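import Pool.Agent.Helper57.ISO.CDefs
import Pool.Agent.Helper82.GS.AreaExists

/-!
# ISO-15 The area measure in isothermal charts

TO PROVE (in place).  Let `e ∈ atlas` with `φ.source ⊆ e.source` (`h.sub`), `F = φ ∘ e.symm`, `A = e '' B` (measurable:
`measurableSet_image_chart`), contained in the open set `U = e.target ∩ e.symm ⁻¹' φ.source`, on which `F` is smooth and
injective; `φ '' B = F '' A`.  Let `κ : ℂ ≃ₗᵢ[ℝ] P2` be `Complex.orthonormalBasisOneI.repr`, a measure preserving map
(`LinearIsometryEquiv.measurePreserving`).  Then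
`∫⁻ z in F '' A, ofReal (ρ z) = ∫⁻ y in (κ ∘ F) '' A, ofReal (ρ (κ.symm y))` (`MeasurePreserving.setLIntegral_comp_preimage` or
`..._emb`), and by the change of variables `lintegral_image_eq_lintegral_abs_det_fderiv_mul` this is
`∫⁻ y in A, ofReal |det L y| * ofReal (ρ (F y))` with `L y = κ ∘ fderiv ℝ F y` (as in `nu_compat` of
Pool.Agent.Helper82.GS.AreaExists).  By `h.metric`, `g.comp e y v w = ρ (F y) inner (L y v) (L y w)` (`κ` is an isometry), so by
`dens_pullback` for the form `A' = ρ (F y) • innerSL` one has `dens (g.comp e y) = |det L y| * ρ (F y)` (the density of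
`ρ • inner` is `√(ρ * ρ - 0) = ρ`).
-/

set_option autoImplicit false

namespace ISO

open scoped ContDiff Manifold
open Pool.Agent.Helper82.GS MeasureTheory

/-- The identification of the complex plane with `P2`. -/
noncomputable def areaK : ℂ ≃ₗᵢ[ℝ] P2 := Complex.orthonormalBasisOneI.repr

/-- The form `c` times the Euclidean inner product. -/
noncomputable def areaForm (c : ℝ) : Bil := c • (innerSL ℝ : P2 →L[ℝ] P2 →L[ℝ] ℝ)

theorem areaForm_apply (c : ℝ) (v w : P2) : areaForm c v w = c * inner ℝ v w := rfl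

theorem dens_areaForm {c : ℝ} (hc : 0 < c) : dens (areaForm c) = c := by
  unfold dens
  rw [areaForm_apply, areaForm_apply, areaForm_apply]
  have h1 : inner ℝ (EuclideanSpace.single 0 1 : P2) (EuclideanSpace.single 0 1) = (1 : ℝ) := by
    simp
  have h2 : inner ℝ (EuclideanSpace.single 1 1 : P2) (EuclideanSpace.single 1 1) = (1 : ℝ) := by
    simp
  have h3 : inner ℝ (EuclideanSpace.single 0 1 : P2) (EuclideanSpace.single 1 1) = (0 : ℝ) := by
    rw [EuclideanSpace.inner_single_left]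
    simp
  rw [h1, h2, h3]
  have h4 : c * 1 * (c * 1) - (c * 0) ^ 2 = c ^ 2 := by ring
  rw [h4, Real.sqrt_sq hc.le]

theorem IsoChart.area {S : Type*} [TopologicalSpace S] [ChartedSpace P2 S] [MeasurableSpace S] [BorelSpace S]
    {g : RMetric S} {φ : OpenPartialHomeomorph S ℂ} {ρ : ℂ → ℝ} (h : IsoChart g φ ρ) {μ : Measure S}
    (hμ : IsArea g μ) {B : Set S} (hB : MeasurableSet B) (hBφ : B ⊆ φ.source) :
    μ B = ∫⁻ z in φ '' B, ENNReal.ofReal (ρ z) := by
  obtain ⟨e, he, hes⟩ := h.sub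
  have hBe : B ⊆ e.source := hBφ.trans hes
  rw [hμ e he B hB hBe]
  have hD : MeasurableSet (e '' B) := measurableSet_image_chart e hB hBe
  -- pass to the plane `P2`
  have hmp : MeasurePreserving areaK (volume : Measure ℂ) (volume : Measure P2) :=
    areaK.measurePreserving
  have hemb : MeasurableEmbedding areaK := areaK.toHomeomorph.measurableEmbedding
  have h1 := hmp.setLIntegral_comp_emb hemb
    (fun b => ENNReal.ofReal (ρ (areaK.symm b))) (φ '' B)
  have h1' : ∫⁻ z in φ '' B, ENNReal.ofReal (ρ z) =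
      ∫⁻ b in areaK '' (φ '' B), ENNReal.ofReal (ρ (areaK.symm b)) := by
    rw [← h1]
    refine lintegral_congr fun z => ?_
    rw [areaK.symm_apply_apply]
  rw [h1']
  -- the map in coordinates
  have himg : areaK '' (φ '' B) = (fun y => areaK ((φ ∘ e.symm) y)) '' (e '' B) := by
    rw [← Set.image_comp, ← Set.image_comp]
    refine Set.image_congr (fun x hx => ?_)
    simp [e.left_inv (hBe hx)]
  have hopen : IsOpen (e.target ∩ e.symm ⁻¹' φ.source) :=
    e.isOpen_inter_preimage_symm φ.open_source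
  have hsrc : ∀ x ∈ B, e x ∈ e.target ∩ e.symm ⁻¹' φ.source := by
    intro x hx
    refine ⟨e.map_source (hBe hx), ?_⟩
    change e.symm (e x) ∈ φ.source
    rw [e.left_inv (hBe hx)]
    exact hBφ hx
  have hder : ∀ y ∈ e '' B, HasFDerivWithinAt (fun y => areaK ((φ ∘ e.symm) y))
      ((areaK.toContinuousLinearEquiv : ℂ →L[ℝ] P2) ∘L fderiv ℝ (φ ∘ e.symm) y) (e '' B) y := by
    rintro _ ⟨x, hx, rfl⟩
    have h2 := (h.smooth₁ e he).differentiableOn (by norm_num)
    have h3 := h2.differentiableAt (hopen.mem_nhds (hsrc x hx))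
    have h4 := (areaK.toContinuousLinearEquiv : ℂ →L[ℝ] P2).hasFDerivAt.comp (e x) h3.hasFDerivAt
    exact h4.hasFDerivWithinAt
  have hinj : Set.InjOn (fun y => areaK ((φ ∘ e.symm) y)) (e '' B) := by
    rintro _ ⟨x, hx, rfl⟩ _ ⟨z, hz, rfl⟩ hxz
    have h2 := areaK.injective hxz
    simp only [Function.comp, e.left_inv (hBe hx), e.left_inv (hBe hz)] at h2
    rw [φ.injOn (hBφ hx) (hBφ hz) h2]
  rw [himg, lintegral_image_eq_lintegral_abs_det_fderiv_mul volume hD hder hinj]
  refine setLIntegral_congr_fun hD ?_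
  rintro _ ⟨x, hx, rfl⟩
  have hx0 : (φ ∘ e.symm) (e x) = φ x := by
    simp [e.left_inv (hBe hx)]
  have hpos : 0 < ρ (φ x) := by
    apply h.ρ_pos
    rw [← h.target]
    exact φ.map_source (hBφ hx)
  have hdens : dens (g.comp e (e x)) =
      |((areaK.toContinuousLinearEquiv : ℂ →L[ℝ] P2) ∘L fderiv ℝ (φ ∘ e.symm) (e x)).det| *
        ρ (φ x) := by
    rw [← dens_areaForm hpos]
    refine dens_pullback (fun v w => ?_) _ (fun v w => ?_)
    · rw [areaForm_apply, areaForm_apply, real_inner_comm]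
    · rw [h.metric e he x (hBe hx) (hBφ hx) v w, areaForm_apply]
      have h5 : inner ℝ (((areaK.toContinuousLinearEquiv : ℂ →L[ℝ] P2) ∘L
          fderiv ℝ (φ ∘ e.symm) (e x)) v) (((areaK.toContinuousLinearEquiv : ℂ →L[ℝ] P2) ∘L
          fderiv ℝ (φ ∘ e.symm) (e x)) w) =
          inner ℝ (fderiv ℝ (φ ∘ e.symm) (e x) v) (fderiv ℝ (φ ∘ e.symm) (e x) w) :=
        areaK.inner_map_map _ _
      rw [h5]
  change ENNReal.ofReal (dens (g.comp e (e x))) = ENNReal.ofReal _ *
    ENNReal.ofReal (ρ (areaK.symm (areaK ((φ ∘ e.symm) (e x)))))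
  rw [areaK.symm_apply_apply, hx0, ← ENNReal.ofReal_mul (abs_nonneg _), hdens]

end ISO
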