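import Pool.Agent.Helper53.CL.Defs

/-!
# ISO-16 The geodesic equation of a conformal metric in Euler-Lagrange form

TO PROVE (in place).  Let `D = fderiv ℝ ρ z`, `ρx = D 1`, `ρy = D I`, so `D u = ρx * u.re + ρy * u.im`.  The derivative of
`z ↦ (Real.log (ρ z) : ℂ)` at `z` in the direction `u` is `(D u / ρ z : ℂ)`, so `dz (log ρ) z = (ρx - I ρy) / (2 ρ z)`.
Hence `c2 = - (ρx - I ρy) c1² / (2 ρ z)`.  With `c1 = a + i b`, `u = p + i q`:
real part of `c2` is `-(ρx (a² - b²) + 2 ρy a b) / (2 ρ)`, imaginary part `-(2 ρx a b - ρy (a² - b²)) / (2 ρ)`; the claim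
`ρ (re c2 p + im c2 q) + (ρx a + ρy b)(a p + b q) = (1/2) (ρx p + ρy q)(a² + b²)` is a polynomial identity after
multiplication by `ρ` (`field_simp`, `ring`).  (`inner ℝ x y = x.re y.re + x.im y.im` for complex numbers: `Complex.inner`.)
-/

set_option autoImplicit false

namespace ISO

open Pool.Agent.Helper53.CL

private theorem ga_dir {ρ : ℂ → ℝ} {z : ℂ} (hρ : DifferentiableAt ℝ ρ z) (hpos : 0 < ρ z) (u : ℂ) :
    fderiv ℝ (fun z => (Real.log (ρ z) : ℂ)) z u = ((fderiv ℝ ρ z u / ρ z : ℝ) : ℂ) := by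
  have h1 : HasFDerivAt (fun z => Real.log (ρ z)) ((ρ z)⁻¹ • fderiv ℝ ρ z) z :=
    hρ.hasFDerivAt.log hpos.ne'
  have h2 : HasFDerivAt (fun z => (Real.log (ρ z) : ℂ))
      (Complex.ofRealCLM ∘L ((ρ z)⁻¹ • fderiv ℝ ρ z)) z :=
    Complex.ofRealCLM.hasFDerivAt.comp z h1
  rw [h2.fderiv]
  simp only [ContinuousLinearMap.comp_apply, smul_apply, smul_eq_mul,
    Complex.ofRealCLM_apply]
  congr 1
  rw [div_eq_inv_mul]

private theorem ga_lin (L : ℂ →L[ℝ] ℝ) (u : ℂ) : L u = L 1 * u.re + L Complex.I * u.im := by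
  have h : u = u.re • (1 : ℂ) + u.im • Complex.I := by
    apply Complex.ext <;> simp
  calc L u = L (u.re • (1 : ℂ) + u.im • Complex.I) := by rw [← h]
    _ = L 1 * u.re + L Complex.I * u.im := by
      rw [map_add, map_smul, map_smul, smul_eq_mul, smul_eq_mul]
      ring

theorem geo_alg {ρ : ℂ → ℝ} {z : ℂ} (hρ : DifferentiableAt ℝ ρ z) (hpos : 0 < ρ z) {c1 c2 : ℂ}
    (h : c2 = -dz (fun z => (Real.log (ρ z) : ℂ)) z * c1 ^ 2) (u : ℂ) :
    ρ z * inner ℝ c2 u + fderiv ℝ ρ z c1 * inner ℝ c1 u = 1 / 2 * (fderiv ℝ ρ z u * ‖c1‖ ^ 2) := by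
  set D := fderiv ℝ ρ z with hD
  set a := D 1 with ha
  set b := D Complex.I with hb
  have hdz : dz (fun z => (Real.log (ρ z) : ℂ)) z =
      (((a / ρ z : ℝ) : ℂ) - Complex.I * ((b / ρ z : ℝ) : ℂ)) / 2 := by
    unfold dz
    congr 2
    · exact ga_dir hρ hpos 1
    · congr 1
      exact ga_dir hρ hpos Complex.I
  have hr0 : ρ z ≠ 0 := hpos.ne'
  have hre : c2.re = -(a * (c1.re ^ 2 - c1.im ^ 2) + 2 * b * c1.re * c1.im) / (2 * ρ z) := by
    rw [h, hdz]
    simp only [sq, Complex.mul_re, Complex.mul_im, Complex.neg_re, Complex.neg_im, Complex.sub_re,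
      Complex.sub_im, Complex.div_re, Complex.div_im, Complex.ofReal_re, Complex.ofReal_im,
      Complex.I_re, Complex.I_im, Complex.re_ofNat, Complex.im_ofNat, Complex.normSq_ofNat]
    field_simp
    ring
  have him : c2.im = -(2 * a * c1.re * c1.im - b * (c1.re ^ 2 - c1.im ^ 2)) / (2 * ρ z) := by
    rw [h, hdz]
    simp only [sq, Complex.mul_re, Complex.mul_im, Complex.neg_re, Complex.neg_im, Complex.sub_re,
      Complex.sub_im, Complex.div_re, Complex.div_im, Complex.ofReal_re, Complex.ofReal_im,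
      Complex.I_re, Complex.I_im, Complex.re_ofNat, Complex.im_ofNat, Complex.normSq_ofNat]
    field_simp
    ring
  have hin : ∀ v w : ℂ, inner ℝ v w = v.re * w.re + v.im * w.im := by
    intro v w
    rw [Complex.inner]
    simp only [Complex.mul_re, Complex.conj_re, Complex.conj_im]
    ring
  have hn : ‖c1‖ ^ 2 = c1.re ^ 2 + c1.im ^ 2 := by
    rw [← Complex.normSq_eq_norm_sq, Complex.normSq_apply]
    ring
  rw [hin, hin, hn, ga_lin D c1, ga_lin D u, ← ha, ← hb, hre, him]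
  field_simp
  ring

end ISO
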