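import Pool.Agent.Helper82.GS.Defs

/-!
# ISO-17 Derivatives of a pulled back conformal metric and of a curve in two charts

TO PROVE (in place).

`fderiv_pull`: near `y₀` (on the open set `U`), `G y = ρ (F y) • B (fderiv ℝ F y)` where `B L v w = inner (L v) (L w)`.
The functions `y ↦ G y v w` and `y ↦ fderiv ℝ F y v` are differentiable; `fderiv ℝ G y₀ u v w = fderiv ℝ (fun y => G y v w) y₀ u`
(`G` is differentiable at `y₀`: hypothesis), and the right hand side is computed by the product rule (`HasFDerivAt.inner`,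
`HasFDerivAt.mul`, chain rule for `ρ ∘ F`), `D2 u v = fderiv ℝ (fderiv ℝ F) y₀ u v`.

`deriv_two`: `c = F ∘ y` near `t`; `deriv c s = fderiv ℝ F (y s) (deriv y s)` for `s` near `t`; differentiate once more
(`HasFDerivAt.clm_apply` / `HasDerivAt.clm_apply`).
-/

set_option autoImplicit false

namespace ISO

open scoped ContDiff
open Pool.Agent.Helper82.GS

theorem fderiv_pull {U : Set P2} (hU : IsOpen U) {F : P2 → ℂ} (hF : ContDiffOn ℝ ∞ F U) {ρ : ℂ → ℝ}
    {G : P2 → Bil} {y₀ : P2} (hy₀ : y₀ ∈ U) (hG : DifferentiableAt ℝ G y₀) (hρ : DifferentiableAt ℝ ρ (F y₀))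
    (hGF : ∀ y ∈ U, ∀ v w : P2, G y v w = ρ (F y) * inner ℝ (fderiv ℝ F y v) (fderiv ℝ F y w)) (u v w : P2) :
    fderiv ℝ G y₀ u v w =
      fderiv ℝ ρ (F y₀) (fderiv ℝ F y₀ u) * inner ℝ (fderiv ℝ F y₀ v) (fderiv ℝ F y₀ w) +
      ρ (F y₀) * (inner ℝ (fderiv ℝ (fderiv ℝ F) y₀ u v) (fderiv ℝ F y₀ w) +
        inner ℝ (fderiv ℝ F y₀ v) (fderiv ℝ (fderiv ℝ F) y₀ u w)) := by
  have hFc : ContDiffAt ℝ ∞ F y₀ := hF.contDiffAt (hU.mem_nhds hy₀)
  have hF1 : HasFDerivAt F (fderiv ℝ F y₀) y₀ := (hFc.differentiableAt (by simp)).hasFDerivAt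
  have hF2 : HasFDerivAt (fderiv ℝ F) (fderiv ℝ (fderiv ℝ F) y₀) y₀ :=
    ((hFc.fderiv_right (m := ∞) (by simp)).differentiableAt (by simp)).hasFDerivAt
  have hρF : HasFDerivAt (fun y => ρ (F y)) ((fderiv ℝ ρ (F y₀)).comp (fderiv ℝ F y₀)) y₀ :=
    hρ.hasFDerivAt.comp y₀ hF1
  have hv : ∀ v : P2, HasFDerivAt (fun y => fderiv ℝ F y v) ((fderiv ℝ (fderiv ℝ F) y₀).flip v) y₀ := by
    intro v
    have h := hF2.clm_apply (hasFDerivAt_const v y₀)
    have e : (fderiv ℝ F y₀).comp (0 : P2 →L[ℝ] P2) + (fderiv ℝ (fderiv ℝ F) y₀).flip v =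
        (fderiv ℝ (fderiv ℝ F) y₀).flip v := by
      ext x
      simp
    rw [e] at h
    exact h
  have h1 : HasFDerivAt (fun y => G y v w) (((fderiv ℝ G y₀).flip v).flip w) y₀ := by
    have h := (hG.hasFDerivAt.clm_apply (hasFDerivAt_const v y₀)).clm_apply
      (hasFDerivAt_const w y₀)
    refine h.congr_fderiv ?_
    ext x
    simp
  have h2 := hρF.mul ((hv v).inner ℝ (hv w))
  have h3 : (fun y => G y v w) =ᶠ[nhds y₀]
      (fun y => ρ (F y)) * fun y => inner ℝ (fderiv ℝ F y v) (fderiv ℝ F y w) := by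
    filter_upwards [hU.mem_nhds hy₀] with y hy
    exact hGF y hy v w
  have h4 := h1.unique (h2.congr_of_eventuallyEq h3)
  have h5 := congrArg (fun L : P2 →L[ℝ] ℝ => L u) h4
  simp only [ContinuousLinearMap.flip_apply, add_apply,
    smul_apply, ContinuousLinearMap.comp_apply, smul_eq_mul,
    ContinuousLinearMap.prod_apply, fderivInnerCLM_apply] at h5
  rw [h5]
  ring

theorem deriv_two {U : Set P2} (hU : IsOpen U) {F : P2 → ℂ} (hF : ContDiffOn ℝ ∞ F U) {y : ℝ → P2} {t : ℝ}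
    (hy : ContDiffAt ℝ 2 y t) (hyU : y t ∈ U) {c : ℝ → ℂ} (hc : ∀ᶠ s in nhds t, c s = F (y s)) :
    deriv c t = fderiv ℝ F (y t) (deriv y t) ∧
    deriv (deriv c) t =
      fderiv ℝ (fderiv ℝ F) (y t) (deriv y t) (deriv y t) + fderiv ℝ F (y t) (deriv (deriv y) t) := by
  have hFc : ContDiffAt ℝ ∞ F (y t) := hF.contDiffAt (hU.mem_nhds hyU)
  have hF2 : HasFDerivAt (fderiv ℝ F) (fderiv ℝ (fderiv ℝ F) (y t)) (y t) :=
    ((hFc.fderiv_right (m := ∞) (by simp)).differentiableAt (by simp)).hasFDerivAt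
  have hy1 : ∀ᶠ s in nhds t, DifferentiableAt ℝ y s := by
    have h := hy.eventually (by simp)
    filter_upwards [h] with s hs
    exact hs.differentiableAt (by simp)
  have hy2 : HasDerivAt (deriv y) (deriv (deriv y) t) t := by
    have h := ((hy.fderiv_right (m := 1) (by norm_num)).differentiableAt (by simp))
    have h' : DifferentiableAt ℝ (fun s => fderiv ℝ y s 1) t :=
      h.clm_apply (differentiableAt_const _)
    exact DifferentiableAt.hasDerivAt h'
  have hyt : HasDerivAt y (deriv y t) t := (hy.differentiableAt (by simp)).hasDerivAt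
  have hUev : ∀ᶠ s in nhds t, y s ∈ U := hyt.continuousAt.eventually (hU.mem_nhds hyU)
  have hd : ∀ᶠ s in nhds t, deriv c s = fderiv ℝ F (y s) (deriv y s) := by
    have hc2 := hc.eventually_nhds
    filter_upwards [hc2, hy1, hUev] with s h1 h2 h3
    have h4 : c =ᶠ[nhds s] F ∘ y := h1
    rw [h4.deriv_eq]
    have h5 : DifferentiableAt ℝ F (y s) :=
      (hF.contDiffAt (hU.mem_nhds h3)).differentiableAt (by simp)
    exact (h5.hasFDerivAt.comp_hasDerivAt s h2.hasDerivAt).deriv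
  refine ⟨hd.self_of_nhds, ?_⟩
  have h6 : deriv c =ᶠ[nhds t] fun s => fderiv ℝ F (y s) (deriv y s) := hd
  rw [h6.deriv_eq]
  have h7 : HasDerivAt (fun s => fderiv ℝ F (y s)) (fderiv ℝ (fderiv ℝ F) (y t) (deriv y t)) t :=
    hF2.comp_hasDerivAt t hyt
  exact (h7.clm_apply hy2).deriv

end ISO
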