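import Pool.Agent.Helper57.ISO.CDefs
import Pool.Agent.Helper57.ISO.GeoAlg
import Pool.Agent.Helper57.ISO.Pull

/-!
# ISO-18 Geodesics in an isothermal chart are geodesics

`U = e.target ∩ e.symm ⁻¹' φ.source` is open and contains `y₀ = e (γ t)`; `F = φ ∘ e.symm` is smooth on
`U`; `F (e (γ s)) = φ (γ s)` for `s` near `t` (`γ` is continuous at `t`).  First, `e ∘ γ = (e ∘ φ.symm) ∘ (φ ∘ γ)` near `t`,
so `ContDiffAt ℝ 2 (e ∘ γ) t` (`h.smooth₂`, `ContDiffAt.comp`, `congr_of_eventuallyEq`).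
Put `y' = deriv (e ∘ γ) t`, `y'' = deriv (deriv (e ∘ γ)) t`, `c' = deriv (φ ∘ γ) t`, `c'' = deriv (deriv (φ ∘ γ)) t`.
`deriv_two`: `c' = DF y'`, `c'' = D²F y' y' + DF y''`.  `h.metric` (with `x = e.symm y`) is the hypothesis `hGF` of `fderiv_pull` for
`G = g.comp e`, and `F y₀ = φ (γ t)`.  Speed: `G y₀ y' y' = ρ inner c' c' = ρ ‖c'‖² = 1`.
Equation: `G y₀ y'' w + fderiv G y₀ y' y' w = ρ inner (DF y'') (DF w) + Dρ c' inner c' (DF w) + ρ inner (D²F y' y') (DF w) + ρ inner c' (D²F y' w)`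
`= ρ inner c'' (DF w) + Dρ c' inner c' (DF w) + ρ inner c' (D²F y' w)`, and
`(1/2) fderiv G y₀ w y' y' = (1/2) Dρ (DF w) ‖c'‖² + ρ inner c' (D²F w y')`; the second derivative is symmetric
(`ContDiffAt.isSymmSndFDerivAt`, `minSmoothness`), and `geo_alg` with `u = DF w` finishes.
-/

set_option autoImplicit false

namespace ISO

open scoped ContDiff Manifold
open Pool.Agent.Helper82.GS Pool.Agent.Helper53.CL

theorem IsoChart.geo {S : Type*} [TopologicalSpace S] [ChartedSpace P2 S] {g : RMetric S}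
    {φ : OpenPartialHomeomorph S ℂ} {ρ : ℂ → ℝ} (h : IsoChart g φ ρ) {e : OpenPartialHomeomorph S P2}
    (he : e ∈ atlas P2 S) {γ : ℝ → S} {t : ℝ} (hγ : ContinuousAt γ t) (ht : γ t ∈ e.source)
    (ht' : γ t ∈ φ.source) (c1 : ContDiffAt ℝ 2 (φ ∘ γ) t)
    (c2 : ρ (φ (γ t)) * ‖deriv (φ ∘ γ) t‖ ^ 2 = 1)
    (c3 : deriv (deriv (φ ∘ γ)) t =
      -dz (fun z => (Real.log (ρ z) : ℂ)) (φ (γ t)) * deriv (φ ∘ γ) t ^ 2) :
    ContDiffAt ℝ 2 (e ∘ γ) t ∧
    g.comp e (e (γ t)) (deriv (e ∘ γ) t) (deriv (e ∘ γ) t) = 1 ∧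
    ∀ w : P2, g.comp e (e (γ t)) (deriv (deriv (e ∘ γ)) t) w +
        fderiv ℝ (g.comp e) (e (γ t)) (deriv (e ∘ γ) t) (deriv (e ∘ γ) t) w =
      (1 / 2) * fderiv ℝ (g.comp e) (e (γ t)) w (deriv (e ∘ γ) t) (deriv (e ∘ γ) t) := by
  set U : Set P2 := e.target ∩ e.symm ⁻¹' φ.source with hUdef
  have hU : IsOpen U := e.symm.isOpen_inter_preimage φ.open_source
  have hF : ContDiffOn ℝ ∞ (φ ∘ e.symm) U := h.smooth₁ e he
  have hsym : e.symm (e (γ t)) = γ t := e.left_inv ht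
  have hsym' : φ.symm (φ (γ t)) = γ t := φ.left_inv ht'
  have hy₀ : e (γ t) ∈ U := by
    refine ⟨e.map_source ht, ?_⟩
    show e.symm (e (γ t)) ∈ φ.source
    rw [hsym]
    exact ht'
  have hFy : (φ ∘ e.symm) (e (γ t)) = φ (γ t) := by
    show φ (e.symm (e (γ t))) = φ (γ t)
    rw [hsym]
  -- the curve in the chart `e`
  have hy : ContDiffAt ℝ 2 (e ∘ γ) t := by
    have hV : IsOpen (φ.target ∩ φ.symm ⁻¹' e.source) := φ.symm.isOpen_inter_preimage e.open_source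
    have hmem : φ (γ t) ∈ φ.target ∩ φ.symm ⁻¹' e.source := by
      refine ⟨φ.map_source ht', ?_⟩
      show φ.symm (φ (γ t)) ∈ e.source
      rw [hsym']
      exact ht
    have h1 : ContDiffAt ℝ 2 (e ∘ φ.symm) ((φ ∘ γ) t) :=
      ((h.smooth₂ e he).contDiffAt (hV.mem_nhds hmem)).of_le (by norm_cast)
    have h2 : ContDiffAt ℝ 2 ((e ∘ φ.symm) ∘ (φ ∘ γ)) t := h1.comp t c1
    apply h2.congr_of_eventuallyEq
    have h3 : ∀ᶠ s in nhds t, γ s ∈ φ.source := hγ.eventually (φ.open_source.mem_nhds ht')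
    filter_upwards [h3] with s hs
    show e (γ s) = e (φ.symm (φ (γ s)))
    rw [φ.left_inv hs]
  have hc : ∀ᶠ s in nhds t, (φ ∘ γ) s = (φ ∘ e.symm) ((e ∘ γ) s) := by
    have h3 : ∀ᶠ s in nhds t, γ s ∈ e.source := hγ.eventually (e.open_source.mem_nhds ht)
    filter_upwards [h3] with s hs
    show φ (γ s) = φ (e.symm (e (γ s)))
    rw [e.left_inv hs]
  obtain ⟨hd1, hd2⟩ := deriv_two hU hF hy hy₀ hc
  have hG : DifferentiableAt ℝ (g.comp e) (e (γ t)) :=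
    ((g.smooth e he).contDiffAt (e.open_target.mem_nhds (e.map_source ht))).differentiableAt
      (by simp)
  have hball : φ (γ t) ∈ Metric.ball (0 : ℂ) 3 := by
    rw [← h.target]
    exact φ.map_source ht'
  have hρ : DifferentiableAt ℝ ρ (φ (γ t)) :=
    (h.ρ_smooth.contDiffAt (Metric.isOpen_ball.mem_nhds hball)).differentiableAt (by simp)
  have hGF : ∀ y ∈ U, ∀ v w : P2, g.comp e y v w =
      ρ ((φ ∘ e.symm) y) * inner ℝ (fderiv ℝ (φ ∘ e.symm) y v) (fderiv ℝ (φ ∘ e.symm) y w) := by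
    intro y hyU v w
    have h1 := h.metric e he (e.symm y) (e.map_target hyU.1) hyU.2 v w
    rw [e.right_inv hyU.1] at h1
    exact h1
  have hpull := fderiv_pull hU hF (ρ := ρ) hy₀ hG (by rw [hFy]; exact hρ) hGF
  rw [hFy] at hpull
  have hsymm : ∀ v w : P2, fderiv ℝ (fderiv ℝ (φ ∘ e.symm)) (e (γ t)) v w =
      fderiv ℝ (fderiv ℝ (φ ∘ e.symm)) (e (γ t)) w v := by
    intro v w
    have h1 : IsSymmSndFDerivAt ℝ (φ ∘ e.symm) (e (γ t)) :=
      (hF.contDiffAt (hU.mem_nhds hy₀)).isSymmSndFDerivAt (by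
        rw [minSmoothness_of_isRCLikeNormedField]
        norm_cast)
    exact h1 v w
  have hGy := hGF (e (γ t)) hy₀
  rw [hFy] at hGy
  set F := φ ∘ e.symm with hFdef
  set y' := deriv (e ∘ γ) t with hy'
  set y'' := deriv (deriv (e ∘ γ)) t with hy''
  have hd1' : fderiv ℝ F (e (γ t)) y' = deriv (φ ∘ γ) t := hd1.symm
  have hd2' : fderiv ℝ F (e (γ t)) y'' = deriv (deriv (φ ∘ γ)) t -
      fderiv ℝ (fderiv ℝ F) (e (γ t)) y' y' := by
    rw [hd2]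
    show _ = fderiv ℝ (fderiv ℝ F) (e (γ t)) y' y' + fderiv ℝ F (e (γ t)) y'' -
      fderiv ℝ (fderiv ℝ F) (e (γ t)) y' y'
    ring
  refine ⟨hy, ?_, ?_⟩
  · rw [hGy, hd1', real_inner_self_eq_norm_sq]
    exact c2
  · intro w
    have halg := geo_alg hρ (h.ρ_pos _ hball) c3 (fderiv ℝ F (e (γ t)) w)
    rw [hGy, hpull, hpull, hd1', hd2', inner_sub_left, real_inner_self_eq_norm_sq, hsymm w y',
      real_inner_comm (fderiv ℝ (fderiv ℝ F) (e (γ t)) y' w) (deriv (φ ∘ γ) t)]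
    linarith

end ISO
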