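import Pool.Agent.Helper57.ISO.CDefs

/-!
# ISO-19 Smooth functions and conformal changes in isothermal charts

TO PROVE (in place).

`smooth_comp`: at `z ∈ ball 0 3 = φ.target` let `x = φ.symm z`, `e = chartAt P2 x`.  Near `z` (on the open set
`φ.target ∩ φ.symm ⁻¹' e.source`), `b ∘ φ.symm = (b ∘ e.symm) ∘ (e ∘ φ.symm)`, a composition of smooth maps.
`scale`: the only changes are `ρ_smooth` (product with `smooth_comp`), `ρ_pos`, and `metric`:
`(g.scale w hw hpos).comp e (e x) = w (e.symm (e x)) • g.comp e (e x)`, `e.symm (e x) = x = φ.symm (φ x)`.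
-/

set_option autoImplicit false

namespace ISO

open scoped ContDiff Manifold
open Pool.Agent.Helper82.GS

theorem IsoChart.smooth_comp {S : Type*} [TopologicalSpace S] [ChartedSpace P2 S] {g : RMetric S}
    {φ : OpenPartialHomeomorph S ℂ} {ρ : ℂ → ℝ} (h : IsoChart g φ ρ) {b : S → ℝ}
    (hb : ∀ e ∈ atlas P2 S, ContDiffOn ℝ ∞ (b ∘ e.symm) e.target) :
    ContDiffOn ℝ ∞ (b ∘ φ.symm) (Metric.ball 0 3) := by
  intro z hz
  rw [← h.target] at hz ⊢
  refine ContDiffAt.contDiffWithinAt ?_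
  set x := φ.symm z with hx
  set e := chartAt P2 x with he
  have heA : e ∈ atlas P2 S := chart_mem_atlas P2 x
  have hxe : x ∈ e.source := mem_chart_source P2 x
  have hO : IsOpen (φ.target ∩ φ.symm ⁻¹' e.source) := φ.isOpen_inter_preimage_symm e.open_source
  have hzO : z ∈ φ.target ∩ φ.symm ⁻¹' e.source := ⟨hz, hxe⟩
  have h1 : ContDiffAt ℝ ∞ (e ∘ φ.symm) z := (h.smooth₂ e heA).contDiffAt (hO.mem_nhds hzO)
  have h2 : ContDiffAt ℝ ∞ (b ∘ e.symm) (e (φ.symm z)) :=
    (hb e heA).contDiffAt (e.open_target.mem_nhds (e.map_source hxe))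
  have h3 : ContDiffAt ℝ ∞ ((b ∘ e.symm) ∘ (e ∘ φ.symm)) z := h2.comp z h1
  refine h3.congr_of_eventuallyEq ?_
  filter_upwards [hO.mem_nhds hzO] with y hy
  simp only [Function.comp_apply]
  rw [e.left_inv hy.2]

theorem IsoChart.scale {S : Type*} [TopologicalSpace S] [ChartedSpace P2 S] {g : RMetric S}
    {φ : OpenPartialHomeomorph S ℂ} {ρ : ℂ → ℝ} (h : IsoChart g φ ρ) {w : S → ℝ}
    (hw : ∀ e ∈ atlas P2 S, ContDiffOn ℝ ∞ (w ∘ e.symm) e.target) (hpos : ∀ x, 0 < w x) :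
    IsoChart (g.scale w hw hpos) φ (fun z => ρ z * w (φ.symm z)) where
  target := h.target
  ρ_smooth := h.ρ_smooth.mul (h.smooth_comp hw)
  ρ_pos z hz := mul_pos (h.ρ_pos z hz) (hpos _)
  sub := h.sub
  smooth₁ := h.smooth₁
  smooth₂ := h.smooth₂
  metric e he x hx hxφ v v' := by
    have h1 := h.metric e he x hx hxφ v v'
    have h2 : (g.scale w hw hpos).comp e (e x) v v' = w (e.symm (e x)) * g.comp e (e x) v v' := rfl
    rw [h2, h1, e.left_inv hx, φ.left_inv hxφ]
    ring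

end ISO
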