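import Pool.Agent.Helper57.ISO.CDefs

/-!
# ISO-20 Transition maps between isothermal charts

TO PROVE (in place).  For `x` in both sources let `e = chartAt P2 x`.  Near `φ x` the map `φ' ∘ φ.symm` is
`(φ' ∘ e.symm) ∘ (e ∘ φ.symm)`, both smooth near the points (`h'.smooth₁`, `h.smooth₂`; the sets are open); this
gives `trans_smooth` (the source of `φ.symm.trans φ'` is `φ.target ∩ φ.symm ⁻¹' φ'.source`) and
`fderiv ℝ (φ' ∘ φ.symm) (φ x) = (fderiv ℝ (φ' ∘ e.symm) (e x)).comp (fderiv ℝ (e ∘ φ.symm) (φ x))`.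
With `φ' = φ`: the composition `(φ ∘ e.symm) ∘ (e ∘ φ.symm)` is the identity near `φ x`, so its derivative is the identity.
Let `V = fderiv ℝ (e ∘ φ.symm) (φ x) v`.  By `h.metric` and `h'.metric` for `(V, V)`:
`ρ (φ x) ‖v‖² = g.comp e (e x) V V = ρ' (φ' x) ‖fderiv ℝ (φ' ∘ φ.symm) (φ x) v‖²` (`real_inner_self_eq_norm_sq`).
-/

set_option autoImplicit false

namespace ISO

open scoped ContDiff Manifold
open Pool.Agent.Helper82.GS

variable {S : Type*} [TopologicalSpace S] [ChartedSpace P2 S] {g : RMetric S}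
  {φ φ' : OpenPartialHomeomorph S ℂ} {ρ ρ' : ℂ → ℝ}

private theorem aux_A (h : IsoChart g φ ρ) {e : OpenPartialHomeomorph S P2} (he : e ∈ atlas P2 S)
    {x : S} (hx : x ∈ φ.source) (hxe : x ∈ e.source) :
    ContDiffAt ℝ ∞ (e ∘ φ.symm) (φ x) := by
  have ho : IsOpen (φ.target ∩ φ.symm ⁻¹' e.source) := φ.symm.isOpen_inter_preimage e.open_source
  have hm : φ x ∈ φ.target ∩ φ.symm ⁻¹' e.source := by
    refine ⟨φ.map_source hx, ?_⟩
    rw [Set.mem_preimage, φ.left_inv hx]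
    exact hxe
  exact (h.smooth₂ e he).contDiffAt (ho.mem_nhds hm)

private theorem aux_B (h : IsoChart g φ ρ) {e : OpenPartialHomeomorph S P2} (he : e ∈ atlas P2 S)
    {x : S} (hx : x ∈ φ.source) (hxe : x ∈ e.source) :
    ContDiffAt ℝ ∞ (φ ∘ e.symm) (e x) := by
  have ho : IsOpen (e.target ∩ e.symm ⁻¹' φ.source) := e.symm.isOpen_inter_preimage φ.open_source
  have hm : e x ∈ e.target ∩ e.symm ⁻¹' φ.source := by
    refine ⟨e.map_source hxe, ?_⟩
    rw [Set.mem_preimage, e.left_inv hxe]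
    exact hx
  exact (h.smooth₁ e he).contDiffAt (ho.mem_nhds hm)

private theorem aux_C {e : OpenPartialHomeomorph S P2} {x : S} (hx : x ∈ φ.source)
    (hxe : x ∈ e.source) :
    (φ' ∘ φ.symm) =ᶠ[nhds (φ x)] (φ' ∘ e.symm) ∘ (e ∘ φ.symm) := by
  have ho : IsOpen (φ.target ∩ φ.symm ⁻¹' e.source) := φ.symm.isOpen_inter_preimage e.open_source
  have hm : φ x ∈ φ.target ∩ φ.symm ⁻¹' e.source := by
    refine ⟨φ.map_source hx, ?_⟩
    rw [Set.mem_preimage, φ.left_inv hx]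
    exact hxe
  filter_upwards [ho.mem_nhds hm] with z hz
  simp only [Function.comp_apply]
  rw [e.left_inv hz.2]

private theorem aux_D (h : IsoChart g φ ρ) (h' : IsoChart g φ' ρ')
    {e : OpenPartialHomeomorph S P2} (he : e ∈ atlas P2 S)
    {x : S} (hx : x ∈ φ.source) (hx' : x ∈ φ'.source) (hxe : x ∈ e.source) (v : ℂ) :
    fderiv ℝ (φ' ∘ e.symm) (e x) (fderiv ℝ (e ∘ φ.symm) (φ x) v) =
      fderiv ℝ (φ' ∘ φ.symm) (φ x) v := by
  rw [(aux_C (φ' := φ') hx hxe).fderiv_eq]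
  have hA := (aux_A h he hx hxe).differentiableAt (by simp)
  have hB := (aux_B h' he hx' hxe).differentiableAt (by simp)
  have e1 : (e ∘ φ.symm) (φ x) = e x := by
    rw [Function.comp_apply, φ.left_inv hx]
  rw [← e1] at hB
  rw [fderiv_comp (φ x) hB hA, e1]
  rfl

theorem IsoChart.trans_smooth (h : IsoChart g φ ρ) (h' : IsoChart g φ' ρ') :
    ContDiffOn ℝ ∞ (φ' ∘ φ.symm) (φ.symm.trans φ').source := by
  intro z hz
  rw [OpenPartialHomeomorph.trans_source] at hz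
  obtain ⟨hz1, hz2⟩ := hz
  have hz1' : z ∈ φ.target := hz1
  set x := φ.symm z with hxd
  have hx : x ∈ φ.source := φ.map_target hz1'
  have hx' : x ∈ φ'.source := hz2
  have hzx : z = φ x := (φ.right_inv hz1').symm
  have he : chartAt P2 x ∈ atlas P2 S := chart_mem_atlas P2 x
  have hxe : x ∈ (chartAt P2 x).source := mem_chart_source P2 x
  have hA := aux_A h he hx hxe
  have hB := aux_B h' he hx' hxe
  have e1 : (chartAt P2 x ∘ φ.symm) (φ x) = chartAt P2 x x := by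
    rw [Function.comp_apply, φ.left_inv hx]
  rw [← e1] at hB
  rw [hzx]
  exact ((hB.comp (φ x) hA).congr_of_eventuallyEq (aux_C hx hxe)).contDiffWithinAt

theorem IsoChart.trans_conf (h : IsoChart g φ ρ) (h' : IsoChart g φ' ρ') {x : S} (hx : x ∈ φ.source)
    (hx' : x ∈ φ'.source) (v : ℂ) :
    ρ' (φ' x) * ‖fderiv ℝ (φ' ∘ φ.symm) (φ x) v‖ ^ 2 = ρ (φ x) * ‖v‖ ^ 2 := by
  have he : chartAt P2 x ∈ atlas P2 S := chart_mem_atlas P2 x
  have hxe : x ∈ (chartAt P2 x).source := mem_chart_source P2 x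
  set V := fderiv ℝ (chartAt P2 x ∘ φ.symm) (φ x) v with hV
  have m1 := h.metric _ he x hxe hx V V
  have m2 := h'.metric _ he x hxe hx' V V
  rw [real_inner_self_eq_norm_sq] at m1 m2
  have d1 := aux_D h h he hx hx hxe v
  have d2 := aux_D h h' he hx hx' hxe v
  have hid : fderiv ℝ (φ ∘ φ.symm) (φ x) v = v := by
    have h3 : (φ ∘ φ.symm) =ᶠ[nhds (φ x)] id := by
      filter_upwards [φ.open_target.mem_nhds (φ.map_source hx)] with z hz
      exact φ.right_inv hz
    rw [h3.fderiv_eq, fderiv_id]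
    rfl
  rw [hid] at d1
  rw [← hV] at d1 d2
  rw [d1] at m1
  rw [d2] at m2
  rw [← m2, m1]

end ISO
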