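import Pool.Agent.Helper57.ISO.Exist
import Pool.Agent.Helper57.ISO.Area
import Pool.Agent.Helper57.ISO.Geo
import Pool.Agent.Helper57.ISO.Scale
import Pool.Agent.Helper57.ISO.Trans

/-!
# ISO-21 Every metric on a closed surface has a finite isothermal atlas: the statement `Iso`

TO PROVE (in place).  For every `x` choose `φ x`, `ρ x` by `exists_isoChart`.  The open sets
`φ x ⁻¹' ball 0 1 ∩ (φ x).source` cover the compact space `S`; take a finite subcover indexed by a finset `F` of points, and
`n = F.card` with the equivalence `F.equivFin.symm : Fin n ≃ F`.  The area measure is given by `exists_unique_area g`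
(Pool.Agent.Helper82.GS.AreaExists).  Fields of `CSurf`: `IsoChart.target`, `ρ_smooth`, `ρ_pos`, `trans_smooth`, `trans_conf`,
`IsoChart.area`.
Second claim: `IsoChart.smooth_comp`.  Third claim: `γ` is continuous; for `e ∈ atlas` and `t` with `γ t ∈ e.source` choose `i` by
`C.cover (γ t)` and apply `(IsoChart.scale ..).geo` to the chart `i` (`C.a w i z = ρ i z * w ((φ i).symm z)`).
-/

set_option autoImplicit false

namespace ISO

open scoped ContDiff Manifold
open Pool.Agent.Helper82.GS Pool.Agent.Helper53.CL MeasureTheory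

universe u

theorem iso (S : Type u) [TopologicalSpace S] [CompactSpace S] [T2Space S] [ChartedSpace P2 S]
    [IsManifold (modelWithCornersSelf ℝ P2) ∞ S] [MeasurableSpace S] [BorelSpace S] :
    Pool.Agent.Helper53.CL.Iface.Iso S := by
  classical
  intro g
  choose φ ρ h hx h0 using fun x : S => exists_isoChart g x
  obtain ⟨μ, hμ, -⟩ := exists_unique_area g
  obtain ⟨F, hF⟩ := isCompact_univ.elim_finite_subcover
    (fun x : S => (φ x).source ∩ (φ x) ⁻¹' Metric.ball (0 : ℂ) 1)
    (fun x => (φ x).isOpen_inter_preimage Metric.isOpen_ball)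
    (fun x _ => Set.mem_iUnion.2 ⟨x, hx x, by
      show φ x x ∈ Metric.ball (0 : ℂ) 1
      rw [h0 x]
      exact Metric.mem_ball_self one_pos⟩)
  let p : Fin F.card → S := fun i => ((F.equivFin.symm i : F) : S)
  have hcov : ∀ x : S, ∃ i, x ∈ (φ (p i)).source ∧ φ (p i) x ∈ Metric.ball (0 : ℂ) 1 := by
    intro x
    obtain ⟨y, hyF, hy⟩ : ∃ y ∈ F, x ∈ (φ y).source ∩ (φ y) ⁻¹' Metric.ball (0 : ℂ) 1 := by
      have h1 := hF (Set.mem_univ x)
      simpa only [Set.mem_iUnion, exists_prop] using h1
    refine ⟨F.equivFin ⟨y, hyF⟩, ?_⟩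
    have h2 : p (F.equivFin ⟨y, hyF⟩) = y := by
      show ((F.equivFin.symm (F.equivFin ⟨y, hyF⟩) : F) : S) = y
      rw [Equiv.symm_apply_apply]
    rw [h2]
    exact hy
  let C : CSurf S :=
    { n := F.card
      φ := fun i => φ (p i)
      ρ := fun i => ρ (p i)
      area := μ
      target := fun i => (h (p i)).target
      cover := hcov
      ρ_smooth := fun i => (h (p i)).ρ_smooth
      ρ_pos := fun i => (h (p i)).ρ_pos
      trans_smooth := fun i j => (h (p i)).trans_smooth (h (p j))
      trans_conf := fun i j x hxi hxj v => (h (p i)).trans_conf (h (p j)) hxi hxj v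
      area_eq := fun i B hB hBi => (h (p i)).area hμ hB hBi }
  refine ⟨C, hμ, fun b hb i => (h (p i)).smooth_comp hb, fun w hw hpos γ hγ => ?_⟩
  refine ⟨hγ.1, fun e he t ht => ?_⟩
  obtain ⟨i, hi1, -⟩ := C.cover (γ t)
  obtain ⟨c1, c2, c3⟩ := hγ.2 i t hi1
  exact ((h (p i)).scale hw hpos).geo he hγ.1.continuousAt ht hi1 c1 c2 c3

end ISO
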