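import Pool.Agent.Helper57.ISO.Defs

/-!
# ISO-11 Bilinear forms and Beltrami coefficients

TO PROVE (in place).  Write `e = B 1 1`, `g = B I I`, `f = B 1 I`, `s = √(e g - f²)`, `l = lam B = (e + g + 2 s)/4`,
`μ = bel B = (e - g + 2 i f)/(4 l)`.

* `e, g > 0`, `e g - f² > 0` (take `v = B 1 I • 1 - B 1 1 • I`, or the Cauchy-Schwarz argument), so `l > 0`.
* `16 l² |μ|² = (e - g)² + 4 f² = (e + g)² - 4 s² = (e + g - 2 s)(e + g + 2 s) = 4 l (e + g - 2 s)`, so
  `|μ|² = (e + g - 2 s)/(e + g + 2 s) < 1`.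
* `metric_eq`: both sides are real bilinear in `(u, w)`, so it suffices to check it for `u, w ∈ {1, I}`
  (write `u = u.re • 1 + u.im • I`): with `μ = μ₁ + i μ₂`, `l (1 + |μ|² + 2 μ₁) = e`, `l (1 + |μ|² - 2 μ₁) = g`, `2 l μ₂ = f`.
* `bel_eq_zero`: `e = g`, `f = 0` there.
* `exists_isom`: for a positive definite form `A` on `P2` (here any two dimensional space with a basis is fine) take the
  orthonormal basis given by Gram-Schmidt: `f₁ = e₁/√A₁₁`, `f₂ = (e₂ - (A₁₂/A₁₁) e₁)/√(A₂₂ - A₁₂²/A₁₁)`, and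
  `L z = z.re • f₁ + z.im • f₂` (injective because `A (L z) (L z) = |z|²`; a linear injection between spaces of the same finite
  dimension is an equivalence, `LinearEquiv.ofInjectiveOfFinrankEq` / `LinearMap.linearEquivOfInjective`, `toContinuousLinearEquiv`).
* smoothness: compositions of smooth functions; the square root is smooth at positive numbers (`ContDiffAt.sqrt`).
-/

set_option autoImplicit false

namespace ISO

open scoped ContDiff

private theorem expand (B : BilC) (hs : ∀ v w, B v w = B w v) (u w : ℂ) :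
    B u w = u.re * w.re * B 1 1 + (u.re * w.im + u.im * w.re) * B 1 Complex.I +
      u.im * w.im * B Complex.I Complex.I := by
  have hu : u = u.re • (1 : ℂ) + u.im • Complex.I := by
    apply Complex.ext <;> simp
  have hw : w = w.re • (1 : ℂ) + w.im • Complex.I := by
    apply Complex.ext <;> simp
  conv_lhs => rw [hu, hw]
  simp only [map_add, map_smul, ContinuousLinearMap.add_apply, ContinuousLinearMap.smul_apply,
    smul_eq_mul]
  rw [hs Complex.I 1]
  ring

private theorem facts {B : BilC} (hB : PosDefC B) :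
    0 < B 1 1 ∧ 0 < B Complex.I Complex.I ∧
      0 < B 1 1 * B Complex.I Complex.I - B 1 Complex.I ^ 2 := by
  have h1 : 0 < B 1 1 := hB.2 1 one_ne_zero
  have h2 : 0 < B Complex.I Complex.I := hB.2 _ Complex.I_ne_zero
  refine ⟨h1, h2, ?_⟩
  have h3 := hB.2 ((B 1 Complex.I) • (1 : ℂ) - (B 1 1) • Complex.I) (by
    intro h
    have h4 := congrArg Complex.im h
    simp at h4
    exact h1.ne' h4)
  rw [expand B hB.1] at h3
  simp at h3
  nlinarith

theorem lam_pos {B : BilC} (hB : PosDefC B) : 0 < lam B := by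
  obtain ⟨h1, h2, h3⟩ := facts hB
  unfold lam
  have := Real.sqrt_pos.2 h3
  linarith

private theorem bel_eq {B : BilC} (hl : lam B ≠ 0) :
    bel B = (((B 1 1 - B Complex.I Complex.I) / (4 * lam B) : ℝ) : ℂ) +
      ((B 1 Complex.I / (2 * lam B) : ℝ) : ℂ) * Complex.I := by
  unfold bel
  have hl' : ((lam B : ℝ) : ℂ) ≠ 0 := by exact_mod_cast hl
  push_cast
  field_simp
  ring

private theorem key {B : BilC} (hB : PosDefC B) :
    4 * lam B * ((bel B).re ^ 2 + (bel B).im ^ 2) = B 1 1 + B Complex.I Complex.I -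
      2 * Real.sqrt (B 1 1 * B Complex.I Complex.I - B 1 Complex.I ^ 2) ∧
    4 * lam B * (bel B).re = B 1 1 - B Complex.I Complex.I ∧
    2 * lam B * (bel B).im = B 1 Complex.I := by
  obtain ⟨h1, h2, h3⟩ := facts hB
  have hl := lam_pos hB
  have hre : (bel B).re = (B 1 1 - B Complex.I Complex.I) / (4 * lam B) := by
    rw [bel_eq hl.ne']
    simp only [Complex.add_re, Complex.ofReal_re, Complex.mul_re, Complex.I_re, mul_zero,
      Complex.ofReal_im, Complex.I_im, zero_mul, sub_zero, add_zero]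
  have him : (bel B).im = B 1 Complex.I / (2 * lam B) := by
    rw [bel_eq hl.ne']
    simp only [Complex.add_im, Complex.ofReal_im, Complex.mul_im, Complex.I_im, mul_one,
      Complex.ofReal_re, Complex.I_re, mul_zero, add_zero, zero_add]
  have e1 : 4 * lam B * (bel B).re = B 1 1 - B Complex.I Complex.I := by
    rw [hre]
    field_simp
  have e2 : 2 * lam B * (bel B).im = B 1 Complex.I := by
    rw [him]
    field_simp
  refine ⟨?_, e1, e2⟩
  have hs := Real.sq_sqrt h3.le
  set σ : ℝ := Real.sqrt (B 1 1 * B Complex.I Complex.I - B 1 Complex.I ^ 2) with hσ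
  have hlam : 4 * lam B = B 1 1 + B Complex.I Complex.I + 2 * σ := by
    rw [hσ]
    unfold lam
    ring
  have h4 : 0 < 4 * lam B := by linarith
  apply mul_left_cancel₀ h4.ne'
  have h5 : 4 * lam B * (4 * lam B * ((bel B).re ^ 2 + (bel B).im ^ 2)) =
      (4 * lam B * (bel B).re) ^ 2 + 4 * (2 * lam B * (bel B).im) ^ 2 := by ring
  rw [h5, e1, e2, hlam]
  linear_combination 4 * hs

theorem norm_bel_lt {B : BilC} (hB : PosDefC B) : ‖bel B‖ < 1 := by
  obtain ⟨h1, h2, h3⟩ := facts hB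
  have hl := lam_pos hB
  obtain ⟨hk, _, _⟩ := key hB
  have hσ := Real.sqrt_pos.2 h3
  have hlam : 4 * lam B = B 1 1 + B Complex.I Complex.I +
      2 * Real.sqrt (B 1 1 * B Complex.I Complex.I - B 1 Complex.I ^ 2) := by
    unfold lam
    ring
  have h4 : ‖bel B‖ ^ 2 = (bel B).re ^ 2 + (bel B).im ^ 2 := by
    rw [Complex.sq_norm, Complex.normSq_apply]
    ring
  rw [← h4] at hk
  have h5 : ‖bel B‖ ^ 2 < 1 := by
    by_contra hcon
    push Not at hcon
    nlinarith
  have h6 : 0 ≤ ‖bel B‖ := norm_nonneg _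
  nlinarith

theorem metric_eq {B : BilC} (hB : PosDefC B) (u w : ℂ) :
    B u w = lam B * inner ℝ (u + bel B * (starRingEnd ℂ) u) (w + bel B * (starRingEnd ℂ) w) := by
  obtain ⟨hk, e1, e2⟩ := key hB
  have hlam : 4 * lam B = B 1 1 + B Complex.I Complex.I +
      2 * Real.sqrt (B 1 1 * B Complex.I Complex.I - B 1 Complex.I ^ 2) := by
    unfold lam
    ring
  have H : lam B * (1 + ((bel B).re ^ 2 + (bel B).im ^ 2)) =
      (B 1 1 + B Complex.I Complex.I) / 2 := by
    linear_combination (1 / 4) * hk + (1 / 4) * hlam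
  rw [expand B hB.1 u w, Complex.inner]
  simp only [Complex.mul_re, Complex.add_re, Complex.add_im, Complex.mul_im, Complex.conj_re,
    Complex.conj_im]
  linear_combination (-(u.re * w.re + u.im * w.im)) * H +
    (-(u.re * w.re - u.im * w.im) / 2) * e1 + (-(u.re * w.im + u.im * w.re)) * e2

theorem bel_eq_zero {B : BilC} (hB : ∀ u w : ℂ, B u w = inner ℝ u w) : bel B = 0 := by
  unfold bel
  rw [hB, hB, hB]
  simp [Complex.inner]

theorem exists_isom {A : EuclideanSpace ℝ (Fin 2) →L[ℝ] EuclideanSpace ℝ (Fin 2) →L[ℝ] ℝ}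
    (hs : ∀ v w, A v w = A w v) (hp : ∀ v, v ≠ 0 → 0 < A v v) :
    ∃ L : ℂ ≃L[ℝ] EuclideanSpace ℝ (Fin 2), ∀ u w : ℂ, A (L u) (L w) = inner ℝ u w := by
  set e1 : EuclideanSpace ℝ (Fin 2) := EuclideanSpace.single 0 1 with he1
  set e2 : EuclideanSpace ℝ (Fin 2) := EuclideanSpace.single 1 1 with he2
  have h1 : 0 < A e1 e1 := hp e1 (by
    intro h
    have := congrArg (fun v : EuclideanSpace ℝ (Fin 2) => v 0) h
    simp [he1] at this)
  set g2 : EuclideanSpace ℝ (Fin 2) := e2 - (A e1 e2 / A e1 e1) • e1 with hg2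
  have h2 : 0 < A g2 g2 := hp g2 (by
    intro h
    have := congrArg (fun v : EuclideanSpace ℝ (Fin 2) => v 1) h
    simp [hg2, he1, he2] at this)
  have h12 : A e1 g2 = 0 := by
    rw [hg2, map_sub, map_smul, smul_eq_mul]
    field_simp
    ring
  have h21 : A g2 e1 = 0 := by rw [hs, h12]
  set a : ℝ := (Real.sqrt (A e1 e1))⁻¹ with ha
  set d : ℝ := (Real.sqrt (A g2 g2))⁻¹ with hd
  have ha2 : a * a * A e1 e1 = 1 := by
    have h3 := Real.mul_self_sqrt h1.le
    have h4 := (Real.sqrt_pos.2 h1).ne'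
    rw [ha]
    nth_rewrite 3 [← h3]
    field_simp
  have hd2 : d * d * A g2 g2 = 1 := by
    have h3 := Real.mul_self_sqrt h2.le
    have h4 := (Real.sqrt_pos.2 h2).ne'
    rw [hd]
    nth_rewrite 3 [← h3]
    field_simp
  let L0 : ℂ →ₗ[ℝ] EuclideanSpace ℝ (Fin 2) :=
    Complex.reLm.smulRight (a • e1) + Complex.imLm.smulRight (d • g2)
  have hL0 : ∀ z, L0 z = z.re • (a • e1) + z.im • (d • g2) := fun z => by
    simp [L0]
  have hiso : ∀ u w : ℂ, A (L0 u) (L0 w) = inner ℝ u w := by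
    intro u w
    rw [hL0, hL0, Complex.inner]
    simp only [map_add, map_smul, ContinuousLinearMap.add_apply, ContinuousLinearMap.smul_apply,
      smul_eq_mul, h12, h21, Complex.mul_re, Complex.conj_re, Complex.conj_im]
    linear_combination (u.re * w.re) * ha2 + (u.im * w.im) * hd2
  have hinj : Function.Injective L0 := by
    rw [injective_iff_map_eq_zero]
    intro u hu
    have h3 := hiso u u
    rw [hu] at h3
    simp only [map_zero] at h3
    have h4 : inner ℝ u u = (0 : ℝ) := h3.symm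
    exact inner_self_eq_zero.1 h4
  have hfr : Module.finrank ℝ ℂ = Module.finrank ℝ (EuclideanSpace ℝ (Fin 2)) := by
    rw [Complex.finrank_real_complex, finrank_euclideanSpace, Fintype.card_fin]
  refine ⟨(LinearEquiv.ofInjectiveOfFinrankEq L0 hinj hfr).toContinuousLinearEquiv, ?_⟩
  intro u w
  exact hiso u w

private theorem cd_apply {D : Set ℂ} {B : ℂ → BilC} (hB : ContDiffOn ℝ ∞ B D) (u v : ℂ) :
    ContDiffOn ℝ ∞ (fun z => B z u v) D :=
  (hB.clm_apply contDiffOn_const).clm_apply contDiffOn_const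

theorem contDiffOn_lam {D : Set ℂ} {B : ℂ → BilC} (hB : ContDiffOn ℝ ∞ B D)
    (hpos : ∀ z ∈ D, PosDefC (B z)) : ContDiffOn ℝ ∞ (fun z => lam (B z)) D := by
  unfold lam
  have h1 := cd_apply hB 1 1
  have h2 := cd_apply hB Complex.I Complex.I
  have h3 := cd_apply hB 1 Complex.I
  have h4 : ContDiffOn ℝ ∞ (fun z => Real.sqrt (B z 1 1 * B z Complex.I Complex.I -
      B z 1 Complex.I ^ 2)) D :=
    ((h1.mul h2).sub (h3.pow 2)).sqrt fun z hz => (facts (hpos z hz)).2.2.ne'
  exact ((h1.add h2).add (contDiffOn_const.mul h4)).div_const 4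

theorem contDiffOn_bel {D : Set ℂ} {B : ℂ → BilC} (hB : ContDiffOn ℝ ∞ B D)
    (hpos : ∀ z ∈ D, PosDefC (B z)) : ContDiffOn ℝ ∞ (fun z => bel (B z)) D := by
  have h0 := contDiffOn_lam hB hpos
  have h1 := cd_apply hB 1 1
  have h2 := cd_apply hB Complex.I Complex.I
  have h3 := cd_apply hB 1 Complex.I
  have h4 : ContDiffOn ℝ ∞ (fun z => (B z 1 1 - B z Complex.I Complex.I) / (4 * lam (B z))) D :=
    (h1.sub h2).div (contDiffOn_const.mul h0) fun z hz =>
      mul_ne_zero four_ne_zero (lam_pos (hpos z hz)).ne'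
  have h5 : ContDiffOn ℝ ∞ (fun z => B z 1 Complex.I / (2 * lam (B z))) D :=
    h3.div (contDiffOn_const.mul h0) fun z hz =>
      mul_ne_zero two_ne_zero (lam_pos (hpos z hz)).ne'
  have h6 := (Complex.ofRealCLM.contDiff.comp_contDiffOn h4)
  have h7 := (Complex.ofRealCLM.contDiff.comp_contDiffOn h5)
  refine (h6.add (h7.mul (contDiffOn_const (c := Complex.I)))).congr fun z hz => ?_
  exact bel_eq (lam_pos (hpos z hz)).ne'

end ISO
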