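import Pool.Agent.Helper57.ISO.Wt

/-!
# ISO-04 Fourier series with rapidly decreasing coefficients are smooth

* `E ξ z = exp (i θ)` with `θ` real: norm one (`Complex.norm_exp_ofReal_mul_I` after rewriting).
* `hasFDerivAt_E`: `2 π i (ξ₁ re v + ξ₂ im v) = π i (conj (cz ξ) v + cz ξ conj v)`.
* `hasFDerivAt_Syn`: `hasFDerivAt_tsum` with the bound `u ξ = 2 π wt ξ ‖a ξ‖`.
* `contDiff_Syn`: induction on the order.
-/

set_option autoImplicit false

namespace ISO

open scoped ContDiff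

private theorem E_eq_exp_lin (ξ : Z2) (z : ℂ) :
    E ξ z = Complex.exp (lin ((Real.pi : ℂ) * Complex.I * (starRingEnd ℂ) (cz ξ))
      ((Real.pi : ℂ) * Complex.I * cz ξ) z) := by
  unfold E
  congr 1
  rw [lin_apply]
  apply Complex.ext <;>
    simp [cz] <;> ring

theorem norm_E (ξ : Z2) (z : ℂ) : ‖E ξ z‖ = 1 := by
  have h : E ξ z = Complex.exp (((2 * Real.pi * ((ξ.1 : ℝ) * z.re + (ξ.2 : ℝ) * z.im) : ℝ) : ℂ) *
      Complex.I) := by
    unfold E
    congr 1
    push_cast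
    ring
  rw [h, Complex.norm_exp_ofReal_mul_I]

theorem E_zero (z : ℂ) : E 0 z = 1 := by
  simp [E]

theorem E_add (ξ η : Z2) (z : ℂ) : E (ξ + η) z = E ξ z * E η z := by
  unfold E
  rw [← Complex.exp_add]
  congr 1
  simp only [Prod.fst_add, Prod.snd_add]
  push_cast
  ring

theorem hasFDerivAt_E (ξ : Z2) (z : ℂ) :
    HasFDerivAt (E ξ) (lin ((Real.pi : ℂ) * Complex.I * (starRingEnd ℂ) (cz ξ) * E ξ z)
      ((Real.pi : ℂ) * Complex.I * cz ξ * E ξ z)) z := by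
  have h1 : HasFDerivAt (fun w => lin ((Real.pi : ℂ) * Complex.I * (starRingEnd ℂ) (cz ξ))
      ((Real.pi : ℂ) * Complex.I * cz ξ) w) (lin ((Real.pi : ℂ) * Complex.I * (starRingEnd ℂ) (cz ξ))
      ((Real.pi : ℂ) * Complex.I * cz ξ)) z := ContinuousLinearMap.hasFDerivAt _
  have h2 := h1.cexp
  have h3 : (fun w => Complex.exp (lin ((Real.pi : ℂ) * Complex.I * (starRingEnd ℂ) (cz ξ))
      ((Real.pi : ℂ) * Complex.I * cz ξ) w)) = E ξ := by
    funext w
    rw [E_eq_exp_lin]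
  rw [h3] at h2
  refine h2.congr_fderiv ?_
  apply ContinuousLinearMap.ext
  intro v
  rw [← E_eq_exp_lin]
  simp only [ContinuousLinearMap.smul_apply, lin_apply, smul_eq_mul]
  ring

theorem summable_Syn {a : Z2 → ℂ} (ha : RD a) (z : ℂ) : Summable fun ξ => ‖a ξ * E ξ z‖ := by
  have h : (fun ξ => ‖a ξ * E ξ z‖) = fun ξ => ‖a ξ‖ := by
    funext ξ
    rw [norm_mul, norm_E, mul_one]
  rw [h]
  exact ha.summable

theorem norm_Syn_le {a : Z2 → ℂ} (ha : RD a) (z : ℂ) : ‖Syn a z‖ ≤ ∑' ξ, ‖a ξ‖ := by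
  unfold Syn
  refine (norm_tsum_le_tsum_norm (summable_Syn ha z)).trans (le_of_eq ?_)
  congr 1
  funext ξ
  rw [norm_mul, norm_E, mul_one]

private theorem rd_p {a : Z2 → ℂ} (ha : RD a) :
    RD (fun ξ => (Real.pi : ℂ) * Complex.I * (starRingEnd ℂ) (cz ξ) * a ξ) := by
  refine ha.of_le (C := Real.pi) (j := 1) fun ξ => ?_
  rw [norm_mul, norm_mul, norm_mul, Complex.norm_I, Complex.norm_real, RCLike.norm_conj, pow_one,
    mul_one, Real.norm_of_nonneg Real.pi_pos.le]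
  gcongr
  exact norm_cz_le ξ

private theorem rd_q {a : Z2 → ℂ} (ha : RD a) :
    RD (fun ξ => (Real.pi : ℂ) * Complex.I * cz ξ * a ξ) := by
  refine ha.of_le (C := Real.pi) (j := 1) fun ξ => ?_
  rw [norm_mul, norm_mul, norm_mul, Complex.norm_I, Complex.norm_real, pow_one,
    mul_one, Real.norm_of_nonneg Real.pi_pos.le]
  gcongr
  exact norm_cz_le ξ

private theorem norm_lin_le (p q : ℂ) : ‖lin p q‖ ≤ ‖p‖ + ‖q‖ := by
  refine ContinuousLinearMap.opNorm_le_bound _ (by positivity) fun v => ?_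
  rw [lin_apply]
  refine (norm_add_le _ _).trans ?_
  rw [norm_mul, norm_mul, RCLike.norm_conj, add_mul]

private theorem smul_lin (c p q : ℂ) : c • lin p q = lin (c * p) (c * q) := by
  apply ContinuousLinearMap.ext
  intro v
  simp only [ContinuousLinearMap.smul_apply, lin_apply, smul_eq_mul]
  ring

theorem hasFDerivAt_Syn {a : Z2 → ℂ} (ha : RD a) (z : ℂ) :
    HasFDerivAt (Syn a) (lin (Syn (fun ξ => (Real.pi : ℂ) * Complex.I * (starRingEnd ℂ) (cz ξ) * a ξ) z)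
      (Syn (fun ξ => (Real.pi : ℂ) * Complex.I * cz ξ * a ξ) z)) z := by
  set p : Z2 → ℂ := fun ξ => (Real.pi : ℂ) * Complex.I * (starRingEnd ℂ) (cz ξ) * a ξ with hp
  set q : Z2 → ℂ := fun ξ => (Real.pi : ℂ) * Complex.I * cz ξ * a ξ with hq
  have hpr : RD p := rd_p ha
  have hqr : RD q := rd_q ha
  have hsp : Summable fun ξ => p ξ * E ξ z := (summable_Syn hpr z).of_norm
  have hsq : Summable fun ξ => q ξ * E ξ z := (summable_Syn hqr z).of_norm
  have hu : Summable fun ξ => ‖p ξ‖ + ‖q ξ‖ := hpr.summable.add hqr.summable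
  have hf : ∀ (ξ : Z2) (w : ℂ), HasFDerivAt (fun w => a ξ * E ξ w)
      (lin (p ξ * E ξ w) (q ξ * E ξ w)) w := by
    intro ξ w
    have h := (hasFDerivAt_E ξ w).const_mul (a ξ)
    refine h.congr_fderiv ?_
    rw [smul_lin]
    congr 1 <;> simp only [hp, hq] <;> ring
  have hf' : ∀ (ξ : Z2) (w : ℂ), ‖lin (p ξ * E ξ w) (q ξ * E ξ w)‖ ≤ ‖p ξ‖ + ‖q ξ‖ := by
    intro ξ w
    refine (norm_lin_le _ _).trans (le_of_eq ?_)
    rw [norm_mul (p ξ), norm_mul (q ξ), norm_E, mul_one, mul_one]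
  have h0 : Summable fun ξ => a ξ * E ξ z := (summable_Syn ha z).of_norm
  have key := hasFDerivAt_tsum (𝕜 := ℝ) hu hf hf' h0 z
  have hS : (fun y => ∑' n, a n * E n y) = Syn a := rfl
  rw [hS] at key
  refine key.congr_fderiv ?_
  have hl : ∀ ξ : Z2, lin (p ξ * E ξ z) (q ξ * E ξ z) =
      (p ξ * E ξ z) • ContinuousLinearMap.id ℝ ℂ +
        (q ξ * E ξ z) • (Complex.conjCLE : ℂ →L[ℝ] ℂ) := fun ξ => rfl
  simp only [hl]
  rw [Summable.tsum_add (hsp.smul_const _) (hsq.smul_const _), hsp.tsum_smul_const,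
    hsq.tsum_smul_const]
  rfl

private theorem contDiff_Syn_nat (n : ℕ) :
    ∀ {a : Z2 → ℂ}, RD a → ContDiff ℝ n (Syn a) := by
  induction n with
  | zero =>
    intro a ha
    have hd : Differentiable ℝ (Syn a) := fun z => (hasFDerivAt_Syn ha z).differentiableAt
    exact contDiff_zero.2 hd.continuous
  | succ n ih =>
    intro a ha
    have h := ih (rd_p ha)
    have h' := ih (rd_q ha)
    rw [Nat.cast_succ]
    rw [contDiff_succ_iff_hasFDerivAt]
    refine ⟨_, ?_, fun z => hasFDerivAt_Syn ha z⟩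
    unfold lin
    exact (h.smul contDiff_const).add (h'.smul contDiff_const)

theorem contDiff_Syn {a : Z2 → ℂ} (ha : RD a) : ContDiff ℝ ∞ (Syn a) :=
  contDiff_infty.2 fun n => contDiff_Syn_nat n ha

end ISO
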