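import Pool.Agent.Helper57.ISO.Conv
import Pool.Agent.Helper57.ISO.SynD

/-!
# ISO-05 Products of Fourier series

TO PROVE (in place).

`Syn_cv`: `(∑ a ξ E ξ z) (∑ b η E η z) = ∑_(ξ, η) a ξ b η E (ξ + η) z` (`tsum_mul_tsum_of_summable_norm`, `E_add`); reindex by the
equivalence `(ξ, η) ↦ (ξ + η, η)` of `Z2 × Z2` (`Equiv.tsum_eq`), so that the summand becomes
`a (ξ - η) b η E ξ z` (absolutely summable), and sum first over `η` (`Summable.tsum_prod`).
-/

set_option autoImplicit false

namespace ISO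

theorem Syn_add {a b : Z2 → ℂ} (ha : RD a) (hb : RD b) (z : ℂ) :
    Syn (fun ξ => a ξ + b ξ) z = Syn a z + Syn b z := by
  unfold Syn
  rw [← ((summable_Syn ha z).of_norm).tsum_add ((summable_Syn hb z).of_norm)]
  refine tsum_congr fun ξ => ?_
  ring

theorem Syn_single (c z : ℂ) : Syn (fun ξ => if ξ = 0 then c else 0) z = c := by
  unfold Syn
  rw [tsum_eq_single (0 : Z2)]
  · change (if (0 : Z2) = 0 then c else 0) * E 0 z = c
    rw [if_pos rfl, E_zero, mul_one]
  · intro ξ hξ
    change (if ξ = 0 then c else 0) * E ξ z = 0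
    rw [if_neg hξ, zero_mul]

/-- the shear of the pairs of frequencies -/
private def shearE : Z2 × Z2 ≃ Z2 × Z2 where
  toFun p := (p.1 - p.2, p.2)
  invFun p := (p.1 + p.2, p.2)
  left_inv p := by simp
  right_inv p := by simp

theorem Syn_cv {a b : Z2 → ℂ} (ha : RD a) (hb : RD b) (z : ℂ) : Syn (cv a b) z = Syn a z * Syn b z := by
  have hsum := summable_mul_of_summable_norm (summable_Syn ha z) (summable_Syn hb z)
  have h1 : Syn a z * Syn b z =
      ∑' p : Z2 × Z2, (a p.1 * E p.1 z) * (b p.2 * E p.2 z) := by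
    unfold Syn
    exact tsum_mul_tsum_of_summable_norm (summable_Syn ha z) (summable_Syn hb z)
  rw [h1, ← shearE.tsum_eq (fun p : Z2 × Z2 => (a p.1 * E p.1 z) * (b p.2 * E p.2 z))]
  have hsum2 : Summable fun p : Z2 × Z2 =>
      (a (shearE p).1 * E (shearE p).1 z) * (b (shearE p).2 * E (shearE p).2 z) :=
    (shearE.summable_iff (f := fun p : Z2 × Z2 => (a p.1 * E p.1 z) * (b p.2 * E p.2 z))).2 hsum
  rw [hsum2.tsum_prod]
  unfold Syn cv
  refine tsum_congr fun ξ => ?_
  rw [← tsum_mul_right]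
  refine tsum_congr fun η => ?_
  have h2 : E ξ z = E (ξ - η) z * E η z := by
    rw [← E_add, sub_add_cancel]
  change a (ξ - η) * b η * E ξ z = (a (ξ - η) * E (ξ - η) z) * (b η * E η z)
  rw [h2]
  ring

end ISO
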