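import Pool.Agent.Helper57.ISO.Fix
import Pool.Agent.Helper57.ISO.SynM

/-!
# ISO-06 The Beltrami equation with a small coefficient given by its Fourier series

TO PROVE (in place).

Take `h` from `exists_fix` with `s = sm` (`norm_sm_le`).  Put `w ξ = h ξ / (π i cz ξ)` for `ξ ≠ 0`, `w 0 = 0` (rapidly
decreasing: `‖w ξ‖ ≤ ‖h ξ‖`, `one_le_norm_cz`), `p z = 1 + Syn (fun ξ => sm ξ * h ξ) z` and
`f z = z + h 0 * conj z + Syn w z`.  By `hasFDerivAt_Syn` the derivative of `f` at `z` is `lin p' q'` with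
`p' = 1 + Syn (fun ξ => π i conj (cz ξ) w ξ) z = p z`  (the coefficients are `sm ξ * h ξ`) and
`q' = h 0 + Syn (fun ξ => π i cz ξ w ξ) z`, where the coefficients are `h ξ` for `ξ ≠ 0` and `0` for `ξ = 0`; so
`q' = Syn h z` (`Syn_add`, `Syn_single`).  By the equation for `h`, `Syn_add` and `Syn_cv`:
`Syn h z = Syn m z + Syn m z * Syn (fun ξ => sm ξ * h ξ) z = Syn m z * p z`.
`‖p z - 1‖ ≤ ∑' ‖h ξ‖ ≤ 1/3` (`norm_Syn_le`).
-/

set_option autoImplicit false

namespace ISO

open scoped ContDiff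

theorem lin_add_lin (p q p' q' : ℂ) : lin p q + lin p' q' = lin (p + p') (q + q') := by
  ext
  simp [lin]; ring

theorem hasFDerivAt_lin (p q z : ℂ) :
    HasFDerivAt (fun z : ℂ => p * z + q * (starRingEnd ℂ) z) (lin p q) z := by
  have h : (fun z : ℂ => p * z + q * (starRingEnd ℂ) z) = fun z => lin p q z := by
    funext z
    rw [lin_apply]
  rw [h]
  exact (lin p q).hasFDerivAt

theorem beltrami_series {m : Z2 → ℂ} (hm : RD m) (hsmall : ∑' ξ, ‖m ξ‖ ≤ 1 / 4) :
    ∃ f p : ℂ → ℂ, ContDiff ℝ ∞ f ∧ ContDiff ℝ ∞ p ∧ (∀ z, ‖p z - 1‖ ≤ 1 / 3) ∧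
      ∀ z, HasFDerivAt f (lin (p z) (p z * Syn m z)) z := by
  obtain ⟨h, hRD, heq, hsum⟩ := exists_fix hm norm_sm_le hsmall
  have hpi : (Real.pi : ℂ) ≠ 0 := by exact_mod_cast Real.pi_ne_zero
  have hI : Complex.I ≠ 0 := Complex.I_ne_zero
  have hcz : ∀ ξ : Z2, ξ ≠ 0 → cz ξ ≠ 0 := by
    intro ξ hξ h0
    have h1 := one_le_norm_cz hξ
    rw [h0, norm_zero] at h1
    linarith
  let w : Z2 → ℂ := fun ξ => if ξ = 0 then 0 else h ξ / ((Real.pi : ℂ) * Complex.I * cz ξ)
  have hw : RD w := by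
    refine RD.of_le hRD (C := 1) (j := 0) fun ξ => ?_
    rw [pow_zero, one_mul, one_mul]
    by_cases hξ : ξ = 0
    · have : w ξ = 0 := if_pos hξ
      rw [this, norm_zero]
      exact norm_nonneg _
    · have e : w ξ = h ξ / ((Real.pi : ℂ) * Complex.I * cz ξ) := if_neg hξ
      rw [e, norm_div, norm_mul, norm_mul, Complex.norm_I, Complex.norm_real, mul_one,
        Real.norm_of_nonneg Real.pi_pos.le]
      apply div_le_self (norm_nonneg _)
      have h1 := one_le_norm_cz hξ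
      have h2 := Real.pi_gt_three
      nlinarith
  let g : Z2 → ℂ := fun ξ => sm ξ * h ξ
  have hgle : ∀ ξ, ‖g ξ‖ ≤ ‖h ξ‖ := by
    intro ξ
    have : ‖g ξ‖ = ‖sm ξ‖ * ‖h ξ‖ := norm_mul _ _
    rw [this]
    exact mul_le_of_le_one_left (norm_nonneg _) (norm_sm_le ξ)
  have hg : RD g := by
    refine RD.of_le hRD (C := 1) (j := 0) fun ξ => ?_
    rw [pow_zero, one_mul, one_mul]
    exact hgle ξ
  refine ⟨fun z => (1 * z + h 0 * (starRingEnd ℂ) z) + Syn w z, fun z => 1 + Syn g z,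
    ?_, ?_, ?_, ?_⟩
  · refine ContDiff.add (ContDiff.add (contDiff_const.mul contDiff_id)
      (contDiff_const.mul ?_)) (contDiff_Syn hw)
    exact Complex.conjCLE.contDiff
  · exact contDiff_const.add (contDiff_Syn hg)
  · intro z
    have e : (1 + Syn g z) - 1 = Syn g z := by ring
    change ‖(1 + Syn g z) - 1‖ ≤ 1 / 3
    rw [e]
    refine (norm_Syn_le hg z).trans (le_trans ?_ hsum)
    exact hg.summable.tsum_le_tsum hgle hRD.summable
  · intro z
    have h1 := (hasFDerivAt_lin 1 (h 0) z).add (hasFDerivAt_Syn hw z)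
    rw [lin_add_lin] at h1
    have eA : (fun ξ => (Real.pi : ℂ) * Complex.I * (starRingEnd ℂ) (cz ξ) * w ξ) = g := by
      funext ξ
      by_cases hξ : ξ = 0
      · have a1 : w ξ = 0 := if_pos hξ
        have a2 : sm ξ = 0 := if_pos hξ
        change _ = sm ξ * h ξ
        rw [a1, a2, mul_zero, zero_mul]
      · have a1 : w ξ = h ξ / ((Real.pi : ℂ) * Complex.I * cz ξ) := if_neg hξ
        have a2 : sm ξ = (starRingEnd ℂ) (cz ξ) / cz ξ := if_neg hξ
        change _ = sm ξ * h ξ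
        have := hcz ξ hξ
        rw [a1, a2]
        field_simp
    have eB : h 0 + Syn (fun ξ => (Real.pi : ℂ) * Complex.I * cz ξ * w ξ) z = Syn h z := by
      have b1 : (fun ξ => (Real.pi : ℂ) * Complex.I * cz ξ * w ξ) =
          fun ξ => if ξ = 0 then 0 else h ξ := by
        funext ξ
        by_cases hξ : ξ = 0
        · have a1 : w ξ = 0 := if_pos hξ
          rw [a1, mul_zero, if_pos hξ]
        · have a1 : w ξ = h ξ / ((Real.pi : ℂ) * Complex.I * cz ξ) := if_neg hξ
          rw [a1, if_neg hξ]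
          have := hcz ξ hξ
          field_simp
      have b2 : h = fun ξ => (if ξ = 0 then h 0 else 0) + (if ξ = 0 then 0 else h ξ) := by
        funext ξ
        by_cases hξ : ξ = 0
        · rw [if_pos hξ, if_pos hξ, hξ, add_zero]
        · rw [if_neg hξ, if_neg hξ, zero_add]
      have b3 : RD fun ξ : Z2 => if ξ = 0 then 0 else h ξ := by
        refine RD.of_le hRD (C := 1) (j := 0) fun ξ => ?_
        rw [pow_zero, one_mul, one_mul]
        by_cases hξ : ξ = 0
        · rw [if_pos hξ, norm_zero]; exact norm_nonneg _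
        · rw [if_neg hξ]
      have b4 := Syn_add (rd_single (h 0)) b3 z
      rw [← b2, Syn_single] at b4
      rw [b1, b4]
    have eC : Syn h z = (1 + Syn g z) * Syn m z := by
      have c1 : h = fun ξ => m ξ + cv m g ξ := funext heq
      have c2 := Syn_add hm (RD.cv hm hg) z
      rw [← c1, Syn_cv hm hg] at c2
      rw [c2]; ring
    rw [eA, eB, eC] at h1
    exact h1

end ISO
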