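import Pool.Agent.Helper53.CL.Iface

/-!
# Isothermal charts of a metric on a surface: the structure
-/

set_option autoImplicit false

namespace ISO

open scoped ContDiff Manifold
open Pool.Agent.Helper82.GS Pool.Agent.Helper53.CL

/-- `φ` is a chart in which the metric `g` is `ρ |dz|^2`; `φ` is smooth with respect to all charts of the atlas. -/
structure IsoChart {S : Type*} [TopologicalSpace S] [ChartedSpace P2 S] (g : RMetric S)
    (φ : OpenPartialHomeomorph S ℂ) (ρ : ℂ → ℝ) : Prop where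
  target : φ.target = Metric.ball 0 3
  ρ_smooth : ContDiffOn ℝ ∞ ρ (Metric.ball 0 3)
  ρ_pos : ∀ z ∈ Metric.ball (0 : ℂ) 3, 0 < ρ z
  sub : ∃ e ∈ atlas P2 S, φ.source ⊆ e.source
  smooth₁ : ∀ e ∈ atlas P2 S, ContDiffOn ℝ ∞ (φ ∘ e.symm) (e.target ∩ e.symm ⁻¹' φ.source)
  smooth₂ : ∀ e ∈ atlas P2 S, ContDiffOn ℝ ∞ (e ∘ φ.symm) (φ.target ∩ φ.symm ⁻¹' e.source)
  metric : ∀ e ∈ atlas P2 S, ∀ x ∈ e.source, x ∈ φ.source → ∀ v w : P2,
    g.comp e (e x) v w =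
      ρ (φ x) * inner ℝ (fderiv ℝ (φ ∘ e.symm) (e x) v) (fderiv ℝ (φ ∘ e.symm) (e x) w)

end ISO
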