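import Pool.Agent.Helper57.ISO.Defs

/-!
# ISO-12 The inverse function theorem with a prescribed target

TO PROVE (in place).

`lin_inv`: `lin p (p q)` with `p ≠ 0`, `‖q‖ < 1` is invertible: it is injective (`‖v + q conj v‖ ≥ (1 - ‖q‖) ‖v‖`), and
`ℂ` has finite dimension over `ℝ` (`LinearEquiv.ofInjectiveEndo`, `toContinuousLinearEquiv`).

`exists_chart`: let `ψ₀ = ContDiffAt.toOpenPartialHomeomorph f` at `0`, restricted to an open set contained in `U` (`restrOpen` with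
`interior U`); its target is an open neighbourhood of `f 0`, so it contains `ball (f 0) (3/c)` for some `c > 0`.
Compose with the homeomorphism `w ↦ c (w - f 0)` of `ℂ` and restrict the source to the preimage of `ball 0 3`
(`OpenPartialHomeomorph.trans`, `Homeomorph.toOpenPartialHomeomorph`, `OpenPartialHomeomorph.restr`, or
`OpenPartialHomeomorph.trans'` ... with `OpenPartialHomeomorph.ofSet (ball 0 3) isOpen_ball`).  The inverse is smooth at every
point of the target by `OpenPartialHomeomorph.contDiffAt_symm`.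
-/

set_option autoImplicit false

namespace ISO

open scoped ContDiff

theorem lin_inv {p q : ℂ} (hp : p ≠ 0) (hq : ‖q‖ < 1) :
    ∃ L : ℂ ≃L[ℝ] ℂ, (L : ℂ →L[ℝ] ℂ) = lin p (p * q) := by
  have hinj : Function.Injective ((lin p (p * q) : ℂ →L[ℝ] ℂ) : ℂ →ₗ[ℝ] ℂ) := by
    rw [← LinearMap.ker_eq_bot, LinearMap.ker_eq_bot']
    intro v hv
    have h1 : p * v + (p * q) * (starRingEnd ℂ) v = 0 := by
      rw [← lin_apply]
      exact hv
    have h2 : p * (v + q * (starRingEnd ℂ) v) = 0 := by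
      rw [← h1]
      ring
    have h3 : v = -(q * (starRingEnd ℂ) v) := by
      have := (mul_eq_zero.1 h2).resolve_left hp
      exact eq_neg_of_add_eq_zero_left this
    have h4 : ‖v‖ = ‖q‖ * ‖v‖ := by
      have := congrArg norm h3
      rwa [norm_neg, norm_mul, RCLike.norm_conj] at this
    by_contra hv0
    have h5 : 0 < ‖v‖ := norm_pos_iff.2 hv0
    nlinarith
  refine ⟨(LinearEquiv.ofInjectiveEndo _ hinj).toContinuousLinearEquiv, ?_⟩
  ext v
  rfl

theorem exists_chart {f : ℂ → ℂ} (hf : ContDiff ℝ ∞ f) (hinv : ∀ z, ∃ L : ℂ ≃L[ℝ] ℂ, fderiv ℝ f z = L)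
    {U : Set ℂ} (hU : U ∈ nhds (0 : ℂ)) :
    ∃ (c : ℝ) (ψ : OpenPartialHomeomorph ℂ ℂ), 0 < c ∧ (0 : ℂ) ∈ ψ.source ∧ ψ.source ⊆ U ∧
      (∀ z, ψ z = (c : ℂ) * (f z - f 0)) ∧ ψ.target = Metric.ball 0 3 ∧
      ContDiffOn ℝ ∞ ψ.symm ψ.target := by
  have hdiff : Differentiable ℝ f := hf.differentiable (by simp)
  obtain ⟨L0, hL0⟩ := hinv 0
  have hd0 : HasFDerivAt f (L0 : ℂ →L[ℝ] ℂ) 0 := by
    rw [← hL0]
    exact (hdiff 0).hasFDerivAt
  set ψ0 := ContDiffAt.toOpenPartialHomeomorph f hf.contDiffAt hd0 (by simp) with hψ0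
  have h00 : (0 : ℂ) ∈ ψ0.source := ContDiffAt.mem_toOpenPartialHomeomorph_source _ hd0 (by simp)
  have hco : ∀ z, ψ0 z = f z := fun z => rfl
  set ψ1 := ψ0.restrOpen (interior U) isOpen_interior with hψ1
  have h01 : (0 : ℂ) ∈ ψ1.source := ⟨h00, mem_interior_iff_mem_nhds.2 hU⟩
  have hco1 : ∀ z, ψ1 z = f z := fun z => rfl
  have ht1 : ψ1.target ∈ nhds (f 0) := ψ1.open_target.mem_nhds (ψ1.map_source h01)
  obtain ⟨r, hr, hball⟩ := Metric.mem_nhds_iff.1 ht1
  set c : ℝ := 3 / r with hc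
  have hc0 : 0 < c := by positivity
  have hcc : (c : ℂ) ≠ 0 := by exact_mod_cast hc0.ne'
  set A : ℂ ≃ₜ ℂ := (Homeomorph.subRight (f 0)).trans (Homeomorph.mulLeft₀ (c : ℂ) hcc) with hA
  have hAa : ∀ w, A w = (c : ℂ) * (w - f 0) := fun w => rfl
  set ψ2 := ψ1.trans A.toOpenPartialHomeomorph with hψ2
  have hco2 : ∀ z, ψ2 z = (c : ℂ) * (f z - f 0) := fun z => rfl
  have hs2 : ψ2.source = ψ1.source := by
    rw [hψ2, OpenPartialHomeomorph.trans_source]
    simp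
  have ht2 : Metric.ball (0 : ℂ) 3 ⊆ ψ2.target := by
    intro w hw
    rw [hψ2, OpenPartialHomeomorph.trans_target]
    refine ⟨trivial, ?_⟩
    apply hball
    have h1 : A (A.symm w) = w := A.apply_symm_apply w
    rw [hAa] at h1
    rw [Metric.mem_ball, dist_eq_norm]
    have h2 : ‖(c : ℂ) * (A.symm w - f 0)‖ < 3 := by
      rw [h1]
      simpa using hw
    rw [norm_mul, Complex.norm_real, Real.norm_of_nonneg hc0.le, hc] at h2
    have h3 : 3 / r * ‖A.symm w - f 0‖ < 3 := h2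
    have h4 : ‖A.symm w - f 0‖ < r := by
      rw [div_mul_eq_mul_div, div_lt_iff₀ hr] at h3
      linarith
    exact h4
  set ψ := (ψ2.symm.restrOpen (Metric.ball 0 3) Metric.isOpen_ball).symm with hψ
  have hco3 : ∀ z, ψ z = (c : ℂ) * (f z - f 0) := fun z => rfl
  have hsrc : ψ.source = ψ2.source ∩ ψ2 ⁻¹' (Metric.ball 0 3) := rfl
  have htgt : ψ.target = ψ2.target ∩ Metric.ball 0 3 := rfl
  have htgt' : ψ.target = Metric.ball 0 3 := by
    rw [htgt]
    exact Set.inter_eq_right.2 ht2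
  refine ⟨c, ψ, hc0, ?_, ?_, hco3, htgt', ?_⟩
  · rw [hsrc, hs2]
    refine ⟨h01, ?_⟩
    rw [Set.mem_preimage, hco2]
    simp
  · intro z hz
    rw [hsrc, hs2] at hz
    exact interior_subset hz.1.2
  · intro a ha
    obtain ⟨L, hL⟩ := hinv (ψ.symm a)
    obtain ⟨M, hM⟩ := lin_inv (p := (c : ℂ)) (q := 0) hcc (by simp)
    have hder : HasFDerivAt (ψ : ℂ → ℂ) ((L.trans M : ℂ ≃L[ℝ] ℂ) : ℂ →L[ℝ] ℂ) (ψ.symm a) := by
      have h1 : HasFDerivAt (fun z => (c : ℂ) * (f z - f 0)) ((c : ℂ) • fderiv ℝ f (ψ.symm a))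
          (ψ.symm a) := ((hdiff _).hasFDerivAt.sub_const (f 0)).const_mul (c : ℂ)
      have h2 : ((L.trans M : ℂ ≃L[ℝ] ℂ) : ℂ →L[ℝ] ℂ) = (c : ℂ) • fderiv ℝ f (ψ.symm a) := by
        rw [hL]
        have h3 : ∀ v, ((L.trans M : ℂ ≃L[ℝ] ℂ) : ℂ →L[ℝ] ℂ) v =
            ((c : ℂ) • (L : ℂ →L[ℝ] ℂ)) v := by
          intro v
          have h4 : M (L v) = lin (c : ℂ) ((c : ℂ) * 0) (L v) := by
            rw [← hM]
            rfl
          have h5 : ((L.trans M : ℂ ≃L[ℝ] ℂ) : ℂ →L[ℝ] ℂ) v = M (L v) := rfl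
          rw [h5, h4, lin_apply]
          simp
        exact ContinuousLinearMap.ext h3
      rw [h2]
      exact h1
    have hcd : ContDiffAt ℝ ∞ (ψ : ℂ → ℂ) (ψ.symm a) := by
      have h1 : ContDiff ℝ ∞ (fun z => (c : ℂ) * (f z - f 0)) :=
        contDiff_const.mul (hf.sub contDiff_const)
      exact h1.contDiffAt
    exact (ψ.contDiffAt_symm ha hder hcd).contDiffWithinAt

end ISO
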