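import Pool.Agent.Helper57.ISO.SynD

/-!
# ISO-07 Fourier coefficients of smooth functions with compact support

TO PROVE (in place).

* `coef_D1`, `coef_D2`: integration by parts (`integral_mul_fderiv_eq_neg_fderiv_mul_of_integrable` of
  Mathlib.Analysis.Calculus.LineDeriv.IntegrationByParts, direction `1` resp. `I`); the derivative of `E (-ξ)` in the direction `1` is
  `- 2 π i ξ₁ E (-ξ)`, in the direction `I` it is `- 2 π i ξ₂ E (-ξ)` (`hasFDerivAt_E`); all products are continuous with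
  compact support, hence integrable.
* `contDiff_iter`, `hasCompactSupport_iter`: induction on `k`.
* `coef_iter`: induction on `k`.
* `coef_bound`: `wt ξ^k = (1 + |ξ₁| + |ξ₂|)^k ≤ 3^k (1 + |ξ₁|^k + |ξ₂|^k)` (the sum is at most three times the maximum),
  `‖coef F ξ‖ ≤ ∫ ‖F‖` (`norm_integral_le_integral_norm`, `norm_E`), and
  `|ξ₁|^k ‖coef F ξ‖ ≤ |2 π ξ₁|^k ‖coef F ξ‖ = ‖coef (D1^[k] F) ξ‖ ≤ ∫ ‖D1^[k] F‖`, the same for `ξ₂`.
* `rd_coef`: `rd_of_bound`.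
-/

set_option autoImplicit false

namespace ISO

open scoped ContDiff
open MeasureTheory

private theorem continuous_E' (ξ : Z2) : Continuous (E ξ) :=
  continuous_iff_continuousAt.2 fun z => (hasFDerivAt_E ξ z).continuousAt

private theorem coef_dir {F : ℂ → ℂ} (hF : ContDiff ℝ ∞ F) (hc : HasCompactSupport F) (ξ : Z2)
    (v c : ℂ) (hv : ∀ z, fderiv ℝ (E (-ξ)) z v = -c * E (-ξ) z) :
    ∫ z : ℂ, fderiv ℝ F z v * E (-ξ) z = c * coef F ξ := by
  have hE : Continuous (E (-ξ)) := continuous_E' (-ξ)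
  have hFc : Continuous F := hF.continuous
  have hF' : Continuous (fun z => fderiv ℝ F z v) :=
    (hF.continuous_fderiv (by simp)).clm_apply continuous_const
  have hc' : HasCompactSupport (fun z => fderiv ℝ F z v) := by
    have h1 : HasCompactSupport (fderiv ℝ F) := hc.fderiv (𝕜 := ℝ)
    exact h1.comp_left (g := fun L : ℂ →L[ℝ] ℂ => L v) (by simp)
  have i1 : Integrable (fun z => fderiv ℝ F z v * E (-ξ) z) :=
    (hF'.mul hE).integrable_of_hasCompactSupport (hc'.mul_right)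
  have i3 : Integrable (fun z => F z * E (-ξ) z) :=
    (hFc.mul hE).integrable_of_hasCompactSupport (hc.mul_right)
  have i2 : Integrable (fun z => F z * fderiv ℝ (E (-ξ)) z v) := by
    have : (fun z => F z * fderiv ℝ (E (-ξ)) z v) = fun z => (-c) * (F z * E (-ξ) z) := by
      funext z
      rw [hv z]
      ring
    rw [this]
    exact i3.const_mul (-c)
  have key := integral_mul_fderiv_eq_neg_fderiv_mul_of_integrable (μ := volume) i1 i2 i3
    (fun x _ => (hF.differentiable (by simp)) x) (fun x _ => (hasFDerivAt_E (-ξ) x).differentiableAt)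
  have key2 : ∫ z : ℂ, F z * fderiv ℝ (E (-ξ)) z v = -c * coef F ξ := by
    rw [coef, ← integral_const_mul]
    congr 1
    funext z
    rw [hv z]
    ring
  rw [key2] at key
  have := congrArg (fun t : ℂ => -t) key
  simp only [neg_neg] at this
  rw [← this]
  ring

private theorem fderiv_E (ξ : Z2) (z v : ℂ) :
    fderiv ℝ (E ξ) z v = 2 * (Real.pi : ℂ) * Complex.I * ((ξ.1 : ℂ) * (v.re : ℂ) + (ξ.2 : ℂ) * (v.im : ℂ)) *
      E ξ z := by
  rw [(hasFDerivAt_E ξ z).fderiv, lin_apply]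
  have h1 : (Real.pi : ℂ) * Complex.I * (starRingEnd ℂ) (cz ξ) * E ξ z * v +
      (Real.pi : ℂ) * Complex.I * cz ξ * E ξ z * (starRingEnd ℂ) v =
      (Real.pi : ℂ) * Complex.I * ((starRingEnd ℂ) (cz ξ) * v + cz ξ * (starRingEnd ℂ) v) * E ξ z := by
    ring
  rw [h1]
  have h2 : (starRingEnd ℂ) (cz ξ) * v + cz ξ * (starRingEnd ℂ) v =
      2 * ((ξ.1 : ℂ) * (v.re : ℂ) + (ξ.2 : ℂ) * (v.im : ℂ)) := by
    apply Complex.ext <;> simp [cz] <;> ring
  rw [h2]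
  ring

theorem coef_D1 {F : ℂ → ℂ} (hF : ContDiff ℝ ∞ F) (hc : HasCompactSupport F) (ξ : Z2) :
    coef (D1 F) ξ = 2 * (Real.pi : ℂ) * Complex.I * (ξ.1 : ℂ) * coef F ξ := by
  refine coef_dir hF hc ξ 1 _ fun z => ?_
  rw [fderiv_E]
  simp

theorem coef_D2 {F : ℂ → ℂ} (hF : ContDiff ℝ ∞ F) (hc : HasCompactSupport F) (ξ : Z2) :
    coef (D2 F) ξ = 2 * (Real.pi : ℂ) * Complex.I * (ξ.2 : ℂ) * coef F ξ := by
  refine coef_dir hF hc ξ Complex.I _ fun z => ?_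
  rw [fderiv_E]
  simp

private theorem contDiff_dir {F : ℂ → ℂ} (hF : ContDiff ℝ ∞ F) (v : ℂ) :
    ContDiff ℝ ∞ (fun z => fderiv ℝ F z v) :=
  (hF.fderiv_right (m := ∞) (by simp)).clm_apply contDiff_const

theorem contDiff_iter {F : ℂ → ℂ} (hF : ContDiff ℝ ∞ F) (k : ℕ) :
    ContDiff ℝ ∞ (D1^[k] F) ∧ ContDiff ℝ ∞ (D2^[k] F) := by
  induction k with
  | zero => exact ⟨hF, hF⟩
  | succ k ih =>
    rw [Function.iterate_succ_apply', Function.iterate_succ_apply']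
    exact ⟨contDiff_dir ih.1 1, contDiff_dir ih.2 Complex.I⟩

private theorem hasCompactSupport_dir {F : ℂ → ℂ} (hc : HasCompactSupport F) (v : ℂ) :
    HasCompactSupport (fun z => fderiv ℝ F z v) := by
  have h1 : HasCompactSupport (fderiv ℝ F) := hc.fderiv (𝕜 := ℝ)
  exact h1.comp_left (g := fun L : ℂ →L[ℝ] ℂ => L v) (by simp)

theorem hasCompactSupport_iter {F : ℂ → ℂ} (hc : HasCompactSupport F) (k : ℕ) :
    HasCompactSupport (D1^[k] F) ∧ HasCompactSupport (D2^[k] F) := by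
  induction k with
  | zero => exact ⟨hc, hc⟩
  | succ k ih =>
    rw [Function.iterate_succ_apply', Function.iterate_succ_apply']
    exact ⟨hasCompactSupport_dir ih.1 1, hasCompactSupport_dir ih.2 Complex.I⟩

theorem coef_iter {F : ℂ → ℂ} (hF : ContDiff ℝ ∞ F) (hc : HasCompactSupport F) (k : ℕ) (ξ : Z2) :
    coef (D1^[k] F) ξ = (2 * (Real.pi : ℂ) * Complex.I * (ξ.1 : ℂ)) ^ k * coef F ξ ∧
    coef (D2^[k] F) ξ = (2 * (Real.pi : ℂ) * Complex.I * (ξ.2 : ℂ)) ^ k * coef F ξ := by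
  induction k with
  | zero => simp
  | succ k ih =>
    rw [Function.iterate_succ_apply', Function.iterate_succ_apply',
      coef_D1 (contDiff_iter hF k).1 (hasCompactSupport_iter hc k).1,
      coef_D2 (contDiff_iter hF k).2 (hasCompactSupport_iter hc k).2, ih.1, ih.2]
    constructor <;> ring

private theorem norm_coef_le (F : ℂ → ℂ) (ξ : Z2) : ‖coef F ξ‖ ≤ ∫ z, ‖F z‖ := by
  refine (norm_integral_le_integral_norm _).trans (le_of_eq ?_)
  congr 1
  funext z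
  rw [norm_mul, norm_E, mul_one]

private theorem wt_pow_split (k : ℕ) (ξ : Z2) :
    wt ξ ^ k ≤ 3 ^ k * (1 + |(ξ.1 : ℝ)| ^ k + |(ξ.2 : ℝ)| ^ k) := by
  have ha : 0 ≤ |(ξ.1 : ℝ)| := abs_nonneg _
  have hb : 0 ≤ |(ξ.2 : ℝ)| := abs_nonneg _
  set a := |(ξ.1 : ℝ)|
  set b := |(ξ.2 : ℝ)|
  have hw : wt ξ = 1 + a + b := rfl
  have hak : 0 ≤ a ^ k := pow_nonneg ha k
  have hbk : 0 ≤ b ^ k := pow_nonneg hb k
  have h3 : (0 : ℝ) ≤ 3 ^ k := by positivity
  rw [hw]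
  rcases le_total a b with hab | hab
  · rcases le_total b 1 with h1 | h1
    · calc (1 + a + b) ^ k ≤ (3 * 1) ^ k := pow_le_pow_left₀ (by positivity) (by linarith) k
        _ = 3 ^ k * 1 := by ring
        _ ≤ _ := by gcongr; linarith
    · calc (1 + a + b) ^ k ≤ (3 * b) ^ k := pow_le_pow_left₀ (by positivity) (by linarith) k
        _ = 3 ^ k * b ^ k := by ring
        _ ≤ _ := by gcongr; linarith
  · rcases le_total a 1 with h1 | h1
    · calc (1 + a + b) ^ k ≤ (3 * 1) ^ k := pow_le_pow_left₀ (by positivity) (by linarith) k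
        _ = 3 ^ k * 1 := by ring
        _ ≤ _ := by gcongr; linarith
    · calc (1 + a + b) ^ k ≤ (3 * a) ^ k := pow_le_pow_left₀ (by positivity) (by linarith) k
        _ = 3 ^ k * a ^ k := by ring
        _ ≤ _ := by gcongr; linarith

private theorem pow_mul_norm_le (x : ℝ) (k : ℕ) (c : ℂ) :
    |x| ^ k * ‖c‖ ≤ ‖(2 * (Real.pi : ℂ) * Complex.I * (x : ℂ)) ^ k * c‖ := by
  rw [norm_mul, norm_pow]
  have h : ‖(2 * (Real.pi : ℂ) * Complex.I * (x : ℂ))‖ = 2 * Real.pi * |x| := by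
    simp [abs_of_pos Real.pi_pos]
  rw [h]
  have h1 : |x| ≤ 2 * Real.pi * |x| := by
    have : (1 : ℝ) ≤ 2 * Real.pi := by linarith [Real.pi_gt_three]
    nlinarith [abs_nonneg x]
  gcongr

theorem coef_bound {F : ℂ → ℂ} (hF : ContDiff ℝ ∞ F) (hc : HasCompactSupport F) (k : ℕ) (ξ : Z2) :
    wt ξ ^ k * ‖coef F ξ‖ ≤ 3 ^ k * ((∫ z, ‖F z‖) + (∫ z, ‖D1^[k] F z‖) + ∫ z, ‖D2^[k] F z‖) := by
  have h0 : ‖coef F ξ‖ ≤ ∫ z, ‖F z‖ := norm_coef_le F ξ
  have h1 : |(ξ.1 : ℝ)| ^ k * ‖coef F ξ‖ ≤ ∫ z, ‖D1^[k] F z‖ := by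
    refine le_trans ?_ (norm_coef_le (D1^[k] F) ξ)
    rw [(coef_iter hF hc k ξ).1]
    have := pow_mul_norm_le (ξ.1 : ℝ) k (coef F ξ)
    simpa using this
  have h2 : |(ξ.2 : ℝ)| ^ k * ‖coef F ξ‖ ≤ ∫ z, ‖D2^[k] F z‖ := by
    refine le_trans ?_ (norm_coef_le (D2^[k] F) ξ)
    rw [(coef_iter hF hc k ξ).2]
    have := pow_mul_norm_le (ξ.2 : ℝ) k (coef F ξ)
    simpa using this
  calc wt ξ ^ k * ‖coef F ξ‖
      ≤ (3 ^ k * (1 + |(ξ.1 : ℝ)| ^ k + |(ξ.2 : ℝ)| ^ k)) * ‖coef F ξ‖ := by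
        gcongr
        exact wt_pow_split k ξ
    _ = 3 ^ k * (‖coef F ξ‖ + |(ξ.1 : ℝ)| ^ k * ‖coef F ξ‖ + |(ξ.2 : ℝ)| ^ k * ‖coef F ξ‖) := by ring
    _ ≤ _ := by gcongr

theorem rd_coef {F : ℂ → ℂ} (hF : ContDiff ℝ ∞ F) (hc : HasCompactSupport F) : RD (coef F) :=
  rd_of_bound fun k => ⟨_, fun ξ => coef_bound hF hc k ξ⟩

end ISO
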