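import Pool.Agent.Helper57.ISO.Wt

/-!
# ISO-02 Convolutions in the weighted norms

TO PROVE (in place).

`‖(cv a b) ξ‖ₑ ≤ ∑' η, ‖a (ξ - η)‖ₑ ‖b η‖ₑ` (`enorm_tsum_le_tsum_enorm`), and `ENNReal.ofReal ‖c‖ = ‖c‖ₑ` (`ofReal_norm`).

* `N_cv_zero`: sum over `ξ`, exchange the sums (`ENNReal.tsum_comm`), `ENNReal.tsum_mul_right`, and
  `∑' ξ, ‖a (ξ - η)‖ₑ = ∑' ξ, ‖a ξ‖ₑ` (`(Equiv.subRight η).tsum_eq`).
* `N_cv_succ`: by `wt_pow_le` with `ξ - η`, `η` in place of `ξ`, `η`: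
  `wt ξ^(k+1) ‖a (ξ-η)‖ ‖b η‖ ≤ ‖a (ξ-η)‖ (wt η^(k+1) ‖b η‖) + (k+1) (wt (ξ-η)^(k+1) ‖a (ξ-η)‖) (wt η^k ‖b η‖)`;
  pass to `ENNReal.ofReal` and sum as before.
* `RD.cv`: by `rd_iff_N` and induction on `k` with the two inequalities.
* `cv_smul_le`: multiplication by `s`, `‖s‖ ≤ 1`, does not increase the norms.
-/

set_option autoImplicit false

namespace ISO

open scoped ENNReal

private lemma conv_N_eq (k : ℕ) (a : Z2 → ℂ) :
    N k a = ∑' ξ, ENNReal.ofReal (wt ξ ^ k) * ‖a ξ‖ₑ := by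
  unfold N
  refine tsum_congr fun ξ => ?_
  rw [ENNReal.ofReal_mul (pow_nonneg (wt_pos ξ).le k), ofReal_norm]

private lemma conv_N_zero (a : Z2 → ℂ) : N 0 a = ∑' ξ, ‖a ξ‖ₑ := by
  rw [conv_N_eq]
  simp

private lemma conv_exch (F G : Z2 → ℝ≥0∞) :
    ∑' ξ, ∑' η, F (ξ - η) * G η = (∑' ξ, F ξ) * ∑' η, G η := by
  rw [ENNReal.tsum_comm, ← ENNReal.tsum_mul_left]
  refine tsum_congr fun η => ?_
  rw [ENNReal.tsum_mul_right]
  congr 1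
  exact (Equiv.subRight η).tsum_eq F

private lemma conv_le (a b : Z2 → ℂ) (ξ : Z2) :
    ‖cv a b ξ‖ₑ ≤ ∑' η, ‖a (ξ - η)‖ₑ * ‖b η‖ₑ := by
  unfold cv
  refine (enorm_tsum_le_tsum_enorm).trans (le_of_eq ?_)
  refine tsum_congr fun η => ?_
  rw [enorm_mul]

theorem N_cv_zero (a b : Z2 → ℂ) : N 0 (cv a b) ≤ N 0 a * N 0 b := by
  rw [conv_N_zero, conv_N_zero, conv_N_zero, ← conv_exch]
  exact ENNReal.tsum_le_tsum fun ξ => conv_le a b ξ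

theorem N_cv_succ (k : ℕ) (a b : Z2 → ℂ) :
    N (k + 1) (cv a b) ≤ N 0 a * N (k + 1) b + ((k : ℝ≥0∞) + 1) * (N (k + 1) a * N k b) := by
  rw [conv_N_zero, conv_N_eq (k + 1) b, ← conv_exch, conv_N_eq (k + 1) a, conv_N_eq k b,
    ← conv_exch, ← ENNReal.tsum_mul_left, ← ENNReal.tsum_add, conv_N_eq]
  refine ENNReal.tsum_le_tsum fun ξ => ?_
  rw [← ENNReal.tsum_mul_left, ← ENNReal.tsum_add]
  refine (mul_le_mul_right (conv_le a b ξ) _).trans ?_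
  rw [← ENNReal.tsum_mul_left]
  refine ENNReal.tsum_le_tsum fun η => ?_
  have h1 := wt_pow_le k (ξ - η) η
  rw [sub_add_cancel] at h1
  have h2 : ENNReal.ofReal (wt ξ ^ (k + 1)) ≤ ENNReal.ofReal (wt η ^ (k + 1)) +
      ((k : ℝ≥0∞) + 1) * (ENNReal.ofReal (wt (ξ - η) ^ (k + 1)) * ENNReal.ofReal (wt η ^ k)) := by
    refine (ENNReal.ofReal_le_ofReal h1).trans (le_of_eq ?_)
    have p1 : 0 ≤ wt η ^ (k + 1) := pow_nonneg (wt_pos _).le _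
    have p2 : 0 ≤ wt (ξ - η) ^ (k + 1) := pow_nonneg (wt_pos _).le _
    have p3 : 0 ≤ wt η ^ k := pow_nonneg (wt_pos _).le _
    rw [ENNReal.ofReal_add p1 (by positivity), ENNReal.ofReal_mul (by positivity),
      ENNReal.ofReal_mul p2]
    congr 2
    rw [ENNReal.ofReal_add (by positivity) (by norm_num), ENNReal.ofReal_natCast,
      ENNReal.ofReal_one]
  calc ENNReal.ofReal (wt ξ ^ (k + 1)) * (‖a (ξ - η)‖ₑ * ‖b η‖ₑ)
      ≤ (ENNReal.ofReal (wt η ^ (k + 1)) +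
      ((k : ℝ≥0∞) + 1) * (ENNReal.ofReal (wt (ξ - η) ^ (k + 1)) * ENNReal.ofReal (wt η ^ k))) *
        (‖a (ξ - η)‖ₑ * ‖b η‖ₑ) := by gcongr
    _ = _ := by ring

theorem RD.cv {a b : Z2 → ℂ} (ha : RD a) (hb : RD b) : RD (ISO.cv a b) := by
  rw [rd_iff_N] at ha hb ⊢
  intro k
  cases k with
  | zero => exact ne_top_of_le_ne_top (ENNReal.mul_ne_top (ha 0) (hb 0)) (N_cv_zero a b)
  | succ k =>
    refine ne_top_of_le_ne_top ?_ (N_cv_succ k a b)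
    refine ENNReal.add_ne_top.2 ⟨ENNReal.mul_ne_top (ha 0) (hb (k + 1)), ?_⟩
    refine ENNReal.mul_ne_top ?_ (ENNReal.mul_ne_top (ha (k + 1)) (hb k))
    exact ENNReal.add_ne_top.2 ⟨ENNReal.natCast_ne_top k, ENNReal.one_ne_top⟩

theorem N_mul_le (k : ℕ) {s : Z2 → ℂ} (hs : ∀ ξ, ‖s ξ‖ ≤ 1) (a : Z2 → ℂ) :
    N k (fun ξ => s ξ * a ξ) ≤ N k a := by
  unfold N
  refine ENNReal.tsum_le_tsum fun ξ => ENNReal.ofReal_le_ofReal ?_
  refine mul_le_mul_of_nonneg_left ?_ (pow_nonneg (wt_pos ξ).le k)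
  rw [norm_mul]
  nlinarith [hs ξ, norm_nonneg (a ξ), norm_nonneg (s ξ)]

/-- the series defining the convolution converges absolutely -/
theorem summable_cv {a b : Z2 → ℂ} (ha : RD a) (hb : Summable fun ξ => ‖b ξ‖) (ξ : Z2) :
    Summable fun η => ‖a (ξ - η) * b η‖ := by
  refine Summable.of_nonneg_of_le (fun η => norm_nonneg _) (fun η => ?_)
    (hb.mul_left (∑' ζ, ‖a ζ‖))
  rw [norm_mul]
  refine mul_le_mul_of_nonneg_right ?_ (norm_nonneg _)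
  exact ha.summable.le_tsum (ξ - η) (fun j _ => norm_nonneg _)

end ISO
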