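import Mathlib

/-!
# Isothermal coordinates: definitions (block A of project CL, MP_6f990d_gt)

Sequences indexed by `Z2 = ℤ × ℤ` and Fourier series on the torus `ℂ / (ℤ + iℤ)`.
-/

set_option autoImplicit false

namespace ISO

open scoped ENNReal

/-- The frequencies. -/
abbrev Z2 : Type := ℤ × ℤ

/-- The weight `1 + |ξ₁| + |ξ₂|`. -/
noncomputable def wt (ξ : Z2) : ℝ := 1 + |(ξ.1 : ℝ)| + |(ξ.2 : ℝ)|

/-- The frequency as a complex number. -/
noncomputable def cz (ξ : Z2) : ℂ := (ξ.1 : ℂ) + (ξ.2 : ℂ) * Complex.I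

/-- The exponential with frequency `ξ`. -/
noncomputable def E (ξ : Z2) (z : ℂ) : ℂ :=
  Complex.exp (2 * (Real.pi : ℂ) * Complex.I * ((ξ.1 : ℂ) * (z.re : ℂ) + (ξ.2 : ℂ) * (z.im : ℂ)))

/-- The weighted `ℓ¹` norm. -/
noncomputable def N (k : ℕ) (a : Z2 → ℂ) : ℝ≥0∞ := ∑' ξ, ENNReal.ofReal (wt ξ ^ k * ‖a ξ‖)

/-- Rapidly decreasing sequences. -/
def RD (a : Z2 → ℂ) : Prop := ∀ k : ℕ, Summable fun ξ => wt ξ ^ k * ‖a ξ‖

/-- Convolution. -/
noncomputable def cv (a b : Z2 → ℂ) : Z2 → ℂ := fun ξ => ∑' η, a (ξ - η) * b η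

/-- The Fourier series with coefficients `a`. -/
noncomputable def Syn (a : Z2 → ℂ) (z : ℂ) : ℂ := ∑' ξ, a ξ * E ξ z

/-- The Fourier coefficients of a function with support in the unit box. -/
noncomputable def coef (F : ℂ → ℂ) (ξ : Z2) : ℂ := ∫ z : ℂ, F z * E (-ξ) z

/-- The partial derivatives. -/
noncomputable def D1 (F : ℂ → ℂ) (z : ℂ) : ℂ := fderiv ℝ F z 1
noncomputable def D2 (F : ℂ → ℂ) (z : ℂ) : ℂ := fderiv ℝ F z Complex.I

/-- The function vanishes off the open unit box centred at the origin. -/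
def InBox (F : ℂ → ℂ) : Prop := ∀ z : ℂ, 1 / 2 ≤ |z.re| ∨ 1 / 2 ≤ |z.im| → F z = 0

/-- The multiplier `conj ξ / ξ`. -/
noncomputable def sm (ξ : Z2) : ℂ := if ξ = 0 then 0 else (starRingEnd ℂ) (cz ξ) / cz ξ

/-- The real linear map `v ↦ p v + q conj v`. -/
noncomputable def lin (p q : ℂ) : ℂ →L[ℝ] ℂ :=
  p • ContinuousLinearMap.id ℝ ℂ + q • (Complex.conjCLE : ℂ →L[ℝ] ℂ)

@[simp] theorem lin_apply (p q v : ℂ) : lin p q v = p * v + q * (starRingEnd ℂ) v := by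
  simp [lin]

/-- Bilinear forms on the complex plane. -/
abbrev BilC : Type := ℂ →L[ℝ] ℂ →L[ℝ] ℝ

/-- Symmetric and positive definite. -/
def PosDefC (B : BilC) : Prop := (∀ v w, B v w = B w v) ∧ ∀ v, v ≠ 0 → 0 < B v v

/-- The conformal factor of a bilinear form. -/
noncomputable def lam (B : BilC) : ℝ :=
  (B 1 1 + B Complex.I Complex.I +
    2 * Real.sqrt (B 1 1 * B Complex.I Complex.I - B 1 Complex.I ^ 2)) / 4

/-- The Beltrami coefficient of a bilinear form. -/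
noncomputable def bel (B : BilC) : ℂ :=
  (((B 1 1 - B Complex.I Complex.I : ℝ) : ℂ) + 2 * Complex.I * ((B 1 Complex.I : ℝ) : ℂ)) /
    (4 * ((lam B : ℝ) : ℂ))

end ISO
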