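import Pool.Agent.Helper57.ISO.Inv1
import Pool.Agent.Helper57.ISO.SynD

/-!
# ISO-09 Fourier inversion in two variables

TO PROVE (in place): `inv1` twice.

Let `c n y = ∫ t, F (t + i y) exp (- 2 π i n t) dt`.
* `c n` is continuous (`F` is continuous and vanishes for `|t| ≥ 1/2`, so the integral is over `[-1/2, 1/2]`;
  `intervalIntegral.continuous_parametric_intervalIntegral_of_continuous` or `continuous_parametric_integral_of_continuous` with
  a compact set, `MeasureTheory.setIntegral_eq_integral_of_forall_compl_eq_zero`), and `c n y = 0` for `1/2 ≤ |y|`.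
* `∫ s, c n s exp (- 2 π i m s) ds = coef F (n, m)`: Fubini (`Complex.volume_preserving_equiv_real_prod`,
  `MeasureTheory.integral_prod`; the integrand is continuous with compact support, hence integrable; mind the order of the two
  integrations, `integral_prod_symm` or `integral_integral_swap`); `E (-ξ)` is the product of the two exponentials.
* By `inv1` (summability over `m` for fixed `n` from `hsum`: `Summable.prod_factor` or the injection `m ↦ (n, m)`),
  `c n y = ∑' m, coef F (n, m) exp (2 π i m y)` for `|y| < 1/2`, so `‖c n y‖ ≤ ∑' m, ‖coef F (n, m)‖`, summable over `n`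
  (`Summable.prod`).
* By `inv1` for `t ↦ F (t + i y)`, `y = z.im`: `F z = ∑' n, c n y exp (2 π i n z.re)`, and
  `Summable.tsum_prod` for the absolutely summable family `coef F ξ * E ξ z` (`norm_E`) gives the claim.
-/

set_option autoImplicit false

namespace ISO

open MeasureTheory

private theorem E_pair (n m : ℤ) (z : ℂ) : E (n, m) z =
    Complex.exp (2 * (Real.pi : ℂ) * Complex.I * ((n : ℂ) * (z.re : ℂ))) *
      Complex.exp (2 * (Real.pi : ℂ) * Complex.I * ((m : ℂ) * (z.im : ℂ))) := by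
  unfold E
  rw [← Complex.exp_add]
  congr 1
  ring

private theorem E_neg_pair (n m : ℤ) (x y : ℝ) : E (-(n, m)) (⟨x, y⟩ : ℂ) =
    Complex.exp (-(2 * (Real.pi : ℂ) * Complex.I * ((n : ℂ) * (x : ℂ)))) *
      Complex.exp (-(2 * (Real.pi : ℂ) * Complex.I * ((m : ℂ) * (y : ℂ)))) := by
  unfold E
  rw [← Complex.exp_add]
  congr 1
  simp only [Prod.neg_mk, Int.cast_neg]
  ring

/-- The partial Fourier coefficient. -/
private noncomputable def pc (F : ℂ → ℂ) (n : ℤ) (y : ℝ) : ℂ :=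
  ∫ t : ℝ, F (⟨t, y⟩ : ℂ) *
    Complex.exp (-(2 * (Real.pi : ℂ) * Complex.I * ((n : ℂ) * (t : ℂ))))

private theorem cont_mk : Continuous (fun p : ℝ × ℝ => (⟨p.1, p.2⟩ : ℂ)) :=
  Complex.equivRealProdCLM.symm.continuous

private theorem pc_cont {F : ℂ → ℂ} (hF : Continuous F) (hb : InBox F) (n : ℤ) :
    Continuous (pc F n) := by
  have h1 : pc F n = fun y => ∫ t in Set.Icc (-(1 / 2) : ℝ) (1 / 2), F (⟨t, y⟩ : ℂ) *
      Complex.exp (-(2 * (Real.pi : ℂ) * Complex.I * ((n : ℂ) * (t : ℂ)))) := by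
    funext y
    refine (setIntegral_eq_integral_of_forall_compl_eq_zero fun t ht => ?_).symm
    rw [hb (⟨t, y⟩ : ℂ) (Or.inl ?_), zero_mul]
    rw [Set.mem_Icc, not_and_or, not_le, not_le] at ht
    show (1 : ℝ) / 2 ≤ |t|
    rw [le_abs]
    rcases ht with h | h
    · right; linarith
    · left; linarith
  rw [h1]
  refine continuous_parametric_integral_of_continuous (f := fun (y t : ℝ) => F (⟨t, y⟩ : ℂ) *
      Complex.exp (-(2 * (Real.pi : ℂ) * Complex.I * ((n : ℂ) * (t : ℂ))))) ?_ isCompact_Icc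
  have h2 : Continuous (fun p : ℝ × ℝ => (⟨p.2, p.1⟩ : ℂ)) := cont_mk.comp continuous_swap
  have h3 : Continuous (fun p : ℝ × ℝ => F (⟨p.2, p.1⟩ : ℂ)) := hF.comp h2
  exact h3.mul (by fun_prop)

private theorem pc_zero {F : ℂ → ℂ} (hb : InBox F) (n : ℤ) (y : ℝ) (hy : 1 / 2 ≤ |y|) :
    pc F n y = 0 := by
  unfold pc
  have h1 : (fun t : ℝ => F (⟨t, y⟩ : ℂ) *
      Complex.exp (-(2 * (Real.pi : ℂ) * Complex.I * ((n : ℂ) * (t : ℂ))))) = fun _ => 0 := by
    funext t
    rw [hb (⟨t, y⟩ : ℂ) (Or.inr hy), zero_mul]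
  rw [h1, integral_zero]

private theorem coef_pc {F : ℂ → ℂ} (hF : Continuous F) (hb : InBox F) (n m : ℤ) :
    ∫ s : ℝ, pc F n s * Complex.exp (-(2 * (Real.pi : ℂ) * Complex.I * ((m : ℂ) * (s : ℂ)))) =
      coef F (n, m) := by
  set G : ℝ × ℝ → ℂ := fun p => F (⟨p.1, p.2⟩ : ℂ) *
    (Complex.exp (-(2 * (Real.pi : ℂ) * Complex.I * ((n : ℂ) * (p.1 : ℂ)))) *
      Complex.exp (-(2 * (Real.pi : ℂ) * Complex.I * ((m : ℂ) * (p.2 : ℂ))))) with hG
  have h1 : coef F (n, m) = ∫ p : ℝ × ℝ, G p := by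
    rw [← Complex.volume_preserving_equiv_real_prod.integral_comp' G]
    unfold coef
    refine integral_congr_ae (Filter.Eventually.of_forall fun z => ?_)
    have h2 : z = (⟨z.re, z.im⟩ : ℂ) := rfl
    show F z * E (-(n, m)) z = G (z.re, z.im)
    rw [hG]
    show F z * E (-(n, m)) z = F (⟨z.re, z.im⟩ : ℂ) * _
    rw [← E_neg_pair]
  have hGc : Continuous G := (hF.comp cont_mk).mul (by fun_prop)
  have hGs : HasCompactSupport G := by
    refine HasCompactSupport.intro
      ((isCompact_Icc (a := (-(1 / 2) : ℝ)) (b := 1 / 2)).prod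
        (isCompact_Icc (a := (-(1 / 2) : ℝ)) (b := 1 / 2))) fun p hp => ?_
    rw [Set.mem_prod, not_and_or] at hp
    have h3 : 1 / 2 ≤ |(⟨p.1, p.2⟩ : ℂ).re| ∨ 1 / 2 ≤ |(⟨p.1, p.2⟩ : ℂ).im| := by
      rcases hp with h | h
      · left
        show (1 : ℝ) / 2 ≤ |p.1|
        rw [Set.mem_Icc, not_and_or, not_le, not_le] at h
        rw [le_abs]
        rcases h with h | h
        · right; linarith
        · left; linarith
      · right
        show (1 : ℝ) / 2 ≤ |p.2|
        rw [Set.mem_Icc, not_and_or, not_le, not_le] at h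
        rw [le_abs]
        rcases h with h | h
        · right; linarith
        · left; linarith
    rw [hG]
    show F (⟨p.1, p.2⟩ : ℂ) * _ = 0
    rw [hb _ h3, zero_mul]
  have hGi : Integrable G := hGc.integrable_of_hasCompactSupport hGs
  rw [h1, Measure.volume_eq_prod, integral_prod_symm _ hGi]
  refine integral_congr_ae (Filter.Eventually.of_forall fun s => ?_)
  show pc F n s * _ = ∫ x : ℝ, G (x, s)
  unfold pc
  rw [← integral_mul_const]
  refine integral_congr_ae (Filter.Eventually.of_forall fun t => ?_)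
  show _ = F (⟨t, s⟩ : ℂ) * _
  simp only
  ring

theorem inv2 {F : ℂ → ℂ} (hF : Continuous F) (hb : InBox F) (hsum : Summable fun ξ => ‖coef F ξ‖) {z : ℂ}
    (h1 : |z.re| < 1 / 2) (h2 : |z.im| < 1 / 2) : F z = Syn (coef F) z := by
  have hE1 : ∀ (n : ℤ) (x : ℝ),
      ‖Complex.exp (2 * (Real.pi : ℂ) * Complex.I * ((n : ℂ) * (x : ℂ)))‖ = 1 := by
    intro n x
    have : 2 * (Real.pi : ℂ) * Complex.I * ((n : ℂ) * (x : ℂ)) =
        ((2 * Real.pi * (n * x) : ℝ) : ℂ) * Complex.I := by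
      push_cast
      ring
    rw [this, Complex.norm_exp_ofReal_mul_I]
  have hfac : ∀ n : ℤ, Summable fun m : ℤ => ‖coef F (n, m)‖ := fun n => hsum.prod_factor n
  have hc : ∀ n : ℤ, pc F n z.im = ∑' m : ℤ, coef F (n, m) *
      Complex.exp (2 * (Real.pi : ℂ) * Complex.I * ((m : ℂ) * (z.im : ℂ))) := by
    intro n
    have h3 := inv1 (pc_cont hF hb n) (fun y hy => pc_zero hb n y hy) (x := z.im) (by
      simp_rw [coef_pc hF hb n]
      exact (hfac n).of_norm) h2
    simp_rw [coef_pc hF hb n] at h3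
    exact h3
  have hcn : ∀ n : ℤ, ‖pc F n z.im‖ ≤ ∑' m : ℤ, ‖coef F (n, m)‖ := by
    intro n
    rw [hc n]
    have h4 : ∀ m : ℤ, ‖coef F (n, m) *
        Complex.exp (2 * (Real.pi : ℂ) * Complex.I * ((m : ℂ) * (z.im : ℂ)))‖ =
        ‖coef F (n, m)‖ := by
      intro m
      rw [norm_mul, hE1, mul_one]
    have h5 := norm_tsum_le_tsum_norm (f := fun m : ℤ => coef F (n, m) *
        Complex.exp (2 * (Real.pi : ℂ) * Complex.I * ((m : ℂ) * (z.im : ℂ)))) (by
      simp_rw [h4]
      exact hfac n)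
    simp_rw [h4] at h5
    exact h5
  have hs2 : Summable fun n : ℤ => pc F n z.im :=
    Summable.of_norm_bounded hsum.prod hcn
  have hcontg : Continuous (fun t : ℝ => F (⟨t, z.im⟩ : ℂ)) :=
    hF.comp (cont_mk.comp (continuous_id.prodMk continuous_const))
  have h6 := inv1 (g := fun t : ℝ => F (⟨t, z.im⟩ : ℂ)) hcontg (fun x hx => hb _ (Or.inl hx))
    (x := z.re) hs2 h1
  have h7 : F z = ∑' n : ℤ, pc F n z.im *
      Complex.exp (2 * (Real.pi : ℂ) * Complex.I * ((n : ℂ) * (z.re : ℂ))) := h6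
  rw [h7]
  unfold Syn
  have hs3 : Summable fun ξ : ℤ × ℤ => coef F ξ * E ξ z := by
    refine Summable.of_norm ?_
    refine hsum.congr fun ξ => ?_
    rw [norm_mul, norm_E, mul_one]
  have h8 : ∑' ξ : Z2, coef F ξ * E ξ z = ∑' n : ℤ, ∑' m : ℤ, coef F (n, m) * E (n, m) z :=
    hs3.tsum_prod
  rw [h8]
  refine tsum_congr fun n => ?_
  rw [hc n, ← tsum_mul_right]
  refine tsum_congr fun m => ?_
  rw [E_pair]
  ring

end ISO
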