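import Pool.Agent.Helper57.ISO.Coef
import Pool.Agent.Helper57.ISO.Inv2

/-!
# ISO-10 A function vanishing at the origin is, after scaling, a small Fourier series near the origin

TO PROVE (in place).

Let `χ : ℂ → ℝ` be a smooth bump function: `χ = 1` on `closedBall 0 (1/4)`, `χ = 0` off `ball 0 (3/8)` (a `ContDiffBump`).
Let `Φ : ℝ × ℂ → ℂ`, `Φ (r, z) = χ z * μ (r z)`, a smooth function; `F r = Φ (r, ·)`; `F 0 = 0`; `InBox (F r)` and
`F r` has compact support.  Define `P1 Ψ q = fderiv ℝ Ψ q (0, 1)`, `P2 Ψ q = fderiv ℝ Ψ q (0, I)` for `Ψ : ℝ × ℂ → ℂ`.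
By induction on `k`: `P1^[k] Φ` is smooth, vanishes for `‖z‖ > 3/8`, and `D1^[k] (F r) z = P1^[k] Φ (r, z)` (chain rule for
`z ↦ (r, z)`), the same with `2`.  In particular these functions vanish for `r = 0`.
So `J r = ∫_{‖z‖ ≤ 3/8} (‖F r z‖ + ‖D1^[4] (F r) z‖ + ‖D2^[4] (F r) z‖)` is a continuous function of `r`
(`continuous_parametric_integral_of_continuous`) with `J 0 = 0`.  Choose `r ∈ (0, 1]` with
`81 J r ∑' (wt ξ^4)⁻¹ ≤ 1/4` and put `m = coef (F r)`.  By `coef_bound` (`k = 4`), `‖m ξ‖ ≤ 81 J r (wt ξ^4)⁻¹`, hence the sum is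
at most `1/4` (`summable_wt`).  `inv2` gives `Syn m z = F r z = μ (r z)` for `‖z‖ ≤ 1/4`.
-/

set_option autoImplicit false

namespace ISO

open scoped ContDiff
open MeasureTheory

/-- derivative in the direction `v` of the second variable -/
private noncomputable def PP (v : ℂ) (Ψ : ℝ × ℂ → ℂ) (q : ℝ × ℂ) : ℂ := fderiv ℝ Ψ q (0, v)

/-- derivative in the direction `v` -/
private noncomputable def DD (v : ℂ) (F : ℂ → ℂ) (z : ℂ) : ℂ := fderiv ℝ F z v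

private theorem pp_smooth (v : ℂ) {Ψ : ℝ × ℂ → ℂ} (h : ContDiff ℝ ∞ Ψ) :
    ContDiff ℝ ∞ (PP v Ψ) :=
  (h.fderiv_right (m := ∞) (by simp)).clm_apply contDiff_const

private theorem dd_eq (v : ℂ) {Ψ : ℝ × ℂ → ℂ} (h : ContDiff ℝ ∞ Ψ) (r : ℝ) :
    DD v (fun z => Ψ (r, z)) = fun z => PP v Ψ (r, z) := by
  funext z
  have h1 : HasFDerivAt Ψ (fderiv ℝ Ψ (r, z)) (r, z) :=
    (h.differentiable (by simp) (r, z)).hasFDerivAt
  have h2 : HasFDerivAt (fun z : ℂ => ((r, z) : ℝ × ℂ))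
      ((0 : ℂ →L[ℝ] ℝ).prod (ContinuousLinearMap.id ℝ ℂ)) z :=
    (hasFDerivAt_const r z).prodMk (hasFDerivAt_id z)
  have h3 := h1.comp z h2
  unfold DD PP
  have h4 : fderiv ℝ (fun z => Ψ (r, z)) z = (fderiv ℝ Ψ (r, z)).comp
      ((0 : ℂ →L[ℝ] ℝ).prod (ContinuousLinearMap.id ℝ ℂ)) := h3.fderiv
  rw [h4]
  simp

private theorem iter_eq (v : ℂ) (r : ℝ) (k : ℕ) : ∀ {Ψ : ℝ × ℂ → ℂ}, ContDiff ℝ ∞ Ψ →
    ContDiff ℝ ∞ ((PP v)^[k] Ψ) ∧
      (DD v)^[k] (fun z => Ψ (r, z)) = fun z => (PP v)^[k] Ψ (r, z) := by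
  induction k with
  | zero => exact fun h => ⟨h, rfl⟩
  | succ k ih =>
    intro Ψ h
    rw [Function.iterate_succ_apply, Function.iterate_succ_apply, dd_eq v h r]
    exact ih (pp_smooth v h)

private theorem pp_zero (v : ℂ) {Ψ : ℝ × ℂ → ℂ} (h : ∀ q : ℝ × ℂ, 3 / 8 < ‖q.2‖ → Ψ q = 0)
    (q : ℝ × ℂ) (hq : 3 / 8 < ‖q.2‖) : PP v Ψ q = 0 := by
  have h1 : Ψ =ᶠ[nhds q] fun _ => 0 := by
    have h2 : {q : ℝ × ℂ | 3 / 8 < ‖q.2‖} ∈ nhds q :=
      (isOpen_lt continuous_const (continuous_norm.comp continuous_snd)).mem_nhds hq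
    filter_upwards [h2] with x hx
    exact h x hx
  unfold PP
  rw [h1.fderiv_eq]
  simp

private theorem iter_zero (v : ℂ) (k : ℕ) : ∀ {Ψ : ℝ × ℂ → ℂ},
    (∀ q : ℝ × ℂ, 3 / 8 < ‖q.2‖ → Ψ q = 0) → ∀ q : ℝ × ℂ, 3 / 8 < ‖q.2‖ →
      (PP v)^[k] Ψ q = 0 := by
  induction k with
  | zero => exact fun h => h
  | succ k ih =>
    intro Ψ h
    rw [Function.iterate_succ_apply]
    exact ih (pp_zero v h)

private theorem dd_fix (v : ℂ) (k : ℕ) : (DD v)^[k] (fun _ => (0 : ℂ)) = fun _ => 0 := by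
  refine Function.iterate_fixed ?_ k
  funext z
  unfold DD
  simp

theorem exists_small {μ : ℂ → ℂ} (hμ : ContDiff ℝ ∞ μ) (h0 : μ 0 = 0) :
    ∃ r : ℝ, 0 < r ∧ ∃ m : Z2 → ℂ, RD m ∧ ∑' ξ, ‖m ξ‖ ≤ 1 / 4 ∧
      ∀ z : ℂ, ‖z‖ ≤ 1 / 4 → Syn m z = μ ((r : ℂ) * z) := by
  obtain ⟨χ, hχ1, hχ2⟩ : ∃ χ : ContDiffBump (0 : ℂ), χ.rIn = 1 / 4 ∧ χ.rOut = 3 / 8 :=
    ⟨⟨1 / 4, 3 / 8, by norm_num, by norm_num⟩, rfl, rfl⟩
  obtain ⟨Φ, hΦ⟩ : ∃ Φ : ℝ × ℂ → ℂ, Φ = fun q => (χ q.2 : ℝ) • μ (q.1 • q.2) := ⟨_, rfl⟩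
  have hΦs : ContDiff ℝ ∞ Φ := by
    rw [hΦ]
    exact (χ.contDiff.comp contDiff_snd).smul (hμ.comp (contDiff_fst.smul contDiff_snd))
  have hΦ0 : ∀ q : ℝ × ℂ, 3 / 8 < ‖q.2‖ → Φ q = 0 := by
    intro q hq
    have h1 : χ q.2 = 0 := χ.zero_of_le_dist (by
      rw [hχ2, dist_zero_right]
      exact hq.le)
    rw [hΦ]
    simp [h1]
  have hΦr0 : (fun z => Φ (0, z)) = fun _ => (0 : ℂ) := by
    funext z
    rw [hΦ]
    simp [h0]
  -- the functions `F r`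
  have hFs : ∀ r : ℝ, ContDiff ℝ ∞ (fun z => Φ (r, z)) := fun r =>
    hΦs.comp (contDiff_const.prodMk contDiff_id)
  have hFb : ∀ r : ℝ, InBox (fun z => Φ (r, z)) := by
    intro r z hz
    refine hΦ0 (r, z) ?_
    show 3 / 8 < ‖z‖
    rcases hz with hz | hz
    · have := Complex.abs_re_le_norm z
      linarith
    · have := Complex.abs_im_le_norm z
      linarith
  have hFc : ∀ r : ℝ, HasCompactSupport (fun z => Φ (r, z)) := by
    intro r
    refine HasCompactSupport.intro (isCompact_closedBall (0 : ℂ) (3 / 8)) ?_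
    intro z hz
    refine hΦ0 (r, z) ?_
    rw [Metric.mem_closedBall, dist_zero_right, not_le] at hz
    exact hz
  -- the continuous majorant
  obtain ⟨G, hG⟩ : ∃ G : ℝ → ℂ → ℝ, G = fun r z => ‖Φ (r, z)‖ + ‖(PP 1)^[4] Φ (r, z)‖ +
      ‖(PP Complex.I)^[4] Φ (r, z)‖ := ⟨_, rfl⟩
  have hGc : Continuous G.uncurry := by
    have h1 := hΦs.continuous
    have h2 := (iter_eq 1 0 4 hΦs).1.continuous
    have h3 := (iter_eq Complex.I 0 4 hΦs).1.continuous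
    have h4 : G.uncurry = fun q : ℝ × ℂ => ‖Φ q‖ + ‖(PP 1)^[4] Φ q‖ +
        ‖(PP Complex.I)^[4] Φ q‖ := by
      funext q
      rw [hG]
      rfl
    rw [h4]
    exact (h1.norm.add h2.norm).add h3.norm
  obtain ⟨J, hJ⟩ : ∃ J : ℝ → ℝ, J = fun r => ∫ z in Metric.closedBall (0 : ℂ) (3 / 8), G r z :=
    ⟨_, rfl⟩
  have hJc : Continuous J := by
    rw [hJ]
    exact continuous_parametric_integral_of_continuous hGc (isCompact_closedBall _ _)
  have hD1 : ∀ r : ℝ, D1^[4] (fun z => Φ (r, z)) = fun z => (PP 1)^[4] Φ (r, z) :=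
    fun r => (iter_eq 1 r 4 hΦs).2
  have hD2 : ∀ r : ℝ, D2^[4] (fun z => Φ (r, z)) = fun z => (PP Complex.I)^[4] Φ (r, z) :=
    fun r => (iter_eq Complex.I r 4 hΦs).2
  have hJ0 : J 0 = 0 := by
    rw [hJ]
    have h1 : ∀ z, G 0 z = 0 := by
      intro z
      rw [hG]
      have h2 : (fun z => (PP 1)^[4] Φ (0, z)) = fun _ => (0 : ℂ) := by
        rw [← (iter_eq 1 0 4 hΦs).2, hΦr0, dd_fix]
      have h3 : (fun z => (PP Complex.I)^[4] Φ (0, z)) = fun _ => (0 : ℂ) := by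
        rw [← (iter_eq Complex.I 0 4 hΦs).2, hΦr0, dd_fix]
      have h4 := congrFun h2 z
      have h5 := congrFun h3 z
      have h6 := congrFun hΦr0 z
      show ‖Φ (0, z)‖ + ‖(PP 1)^[4] Φ (0, z)‖ + ‖(PP Complex.I)^[4] Φ (0, z)‖ = 0
      rw [h4, h5, h6]
      simp
    simp [h1]
  have hJeq : ∀ r : ℝ, (∫ z, ‖Φ (r, z)‖) + (∫ z, ‖D1^[4] (fun z => Φ (r, z)) z‖) +
      (∫ z, ‖D2^[4] (fun z => Φ (r, z)) z‖) = J r := by
    intro r
    have key : ∀ Ψ : ℝ × ℂ → ℂ, (∀ q : ℝ × ℂ, 3 / 8 < ‖q.2‖ → Ψ q = 0) →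
        ∫ z, ‖Ψ (r, z)‖ = ∫ z in Metric.closedBall (0 : ℂ) (3 / 8), ‖Ψ (r, z)‖ := by
      intro Ψ h
      refine (setIntegral_eq_integral_of_forall_compl_eq_zero ?_).symm
      intro z hz
      rw [Metric.mem_closedBall, dist_zero_right, not_le] at hz
      rw [h (r, z) hz, norm_zero]
    have kint : ∀ Ψ : ℝ × ℂ → ℂ, Continuous Ψ → IntegrableOn (fun z => ‖Ψ (r, z)‖)
        (Metric.closedBall (0 : ℂ) (3 / 8)) volume := by
      intro Ψ h
      exact (h.comp (continuous_const.prodMk continuous_id)).norm.continuousOn.integrableOn_compact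
        (isCompact_closedBall _ _)
    rw [hD1, hD2, key Φ hΦ0, key _ (iter_zero 1 4 hΦ0), key _ (iter_zero Complex.I 4 hΦ0), hJ, hG]
    have i1 := kint Φ hΦs.continuous
    have i2 := kint _ (iter_eq 1 0 4 hΦs).1.continuous
    have i3 := kint _ (iter_eq Complex.I 0 4 hΦs).1.continuous
    simp only
    rw [← integral_add i1 i2]
    exact (integral_add (i1.add i2) i3).symm
  -- choice of `r`
  obtain ⟨S, hS⟩ : ∃ S : ℝ, S = ∑' ξ : Z2, (wt ξ ^ 4)⁻¹ := ⟨_, rfl⟩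
  have hSnn : 0 ≤ S := by
    rw [hS]
    exact tsum_nonneg fun ξ => inv_nonneg.2 (pow_nonneg (wt_pos ξ).le 4)
  have hη : 0 < 1 / (324 * (S + 1)) := by positivity
  obtain ⟨δ, hδ, hδJ⟩ := Metric.continuousAt_iff.1 (hJc.continuousAt (x := 0)) _ hη
  have hr : 0 < δ / 2 := by linarith
  refine ⟨δ / 2, hr, coef (fun z => Φ (δ / 2, z)), rd_coef (hFs _) (hFc _), ?_, ?_⟩
  · have hJr : J (δ / 2) ≤ 1 / (324 * (S + 1)) := by
      have h1 := hδJ (x := δ / 2) (by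
        rw [dist_zero_right, Real.norm_eq_abs, abs_of_pos hr]
        linarith)
      rw [hJ0, dist_zero_right, Real.norm_eq_abs] at h1
      exact (le_abs_self _).trans h1.le
    have hb : ∀ ξ : Z2, ‖coef (fun z => Φ (δ / 2, z)) ξ‖ ≤ 81 * J (δ / 2) * (wt ξ ^ 4)⁻¹ := by
      intro ξ
      have h1 := coef_bound (hFs (δ / 2)) (hFc (δ / 2)) 4 ξ
      rw [hJeq] at h1
      have h2 : 0 < wt ξ ^ 4 := pow_pos (wt_pos ξ) 4
      rw [← div_eq_mul_inv, le_div_iff₀ h2]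
      norm_num at h1
      linarith
    have hsum : Summable fun ξ : Z2 => 81 * J (δ / 2) * (wt ξ ^ 4)⁻¹ := summable_wt.mul_left _
    have h2 : ∑' ξ, ‖coef (fun z => Φ (δ / 2, z)) ξ‖ ≤ ∑' ξ : Z2, 81 * J (δ / 2) * (wt ξ ^ 4)⁻¹ :=
      Summable.tsum_le_tsum hb (Summable.of_nonneg_of_le (fun ξ => norm_nonneg _) hb hsum) hsum
    rw [tsum_mul_left, ← hS] at h2
    refine h2.trans ?_
    have h3 : 81 * J (δ / 2) * S ≤ 81 * (1 / (324 * (S + 1))) * S :=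
      mul_le_mul_of_nonneg_right (by linarith) hSnn
    refine h3.trans ?_
    have h4 : 81 * (1 / (324 * (S + 1))) * S = (S / (S + 1)) / 4 := by
      field_simp
      ring
    rw [h4]
    have h5 : S / (S + 1) ≤ 1 := by
      rw [div_le_one (by linarith)]
      linarith
    linarith
  · intro z hz
    have h1 := inv2 (hFs (δ / 2)).continuous (hFb (δ / 2)) ((rd_coef (hFs _) (hFc _)).summable)
      (z := z) (by
        have := Complex.abs_re_le_norm z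
        linarith) (by
        have := Complex.abs_im_le_norm z
        linarith)
    rw [← h1]
    have h2 : χ z = 1 := χ.one_of_mem_closedBall (by
      rw [hχ1, Metric.mem_closedBall, dist_zero_right]
      exact hz)
    rw [hΦ]
    simp only
    rw [h2, one_smul, Complex.real_smul]

end ISO
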