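import Pool.Agent.Helper57.ISO.Belt
import Pool.Agent.Helper57.ISO.Small
import Pool.Agent.Helper57.ISO.Alg
import Pool.Agent.Helper57.ISO.Chart
import Pool.Agent.Helper82.GS.Defs

/-!
# ISO-13 Local isothermal coordinates

TO PROVE (in place).

`exists_isom` for `A = G y₀` gives `L`.  Let `D' = {z | y₀ + L z ∈ D}` (open, contains `0`) and
`B z u w = G (y₀ + L z) (L u) (L w)`, i.e. `B z = (G (y₀ + L z)).bilinearComp L L` or
`((G (y₀ + L z)).comp L).flip.comp L |>.flip`; smooth on `D'`, positive definite; `bel (B 0) = 0` by `bel_eq_zero`.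
Let `θ` be a smooth bump function with values in `[0, 1]`, equal to `1` on a neighbourhood `V` of `0` and with (topological)
support in `D'` (`ContDiffBump`), and `μ z = θ z * bel (B z)`, smooth on `ℂ` (off the support it vanishes near every
point), `μ 0 = 0`, `‖μ z‖ < 1` for all `z` (`norm_bel_lt` on `D'`, zero elsewhere).
`exists_small` gives `r`, `m`; `beltrami_series` gives `f`, `p`; `Syn m z = μ (r z)` only for `‖z‖ ≤ 1/4`, but
`‖Syn m z‖ ≤ 1/4 < 1` everywhere (`norm_Syn_le`), and `p z ≠ 0`; so by `lin_inv` the derivative of `f` is invertible everywhere.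
`exists_chart` with `U = {z | ‖z‖ < 1/4, r z ∈ V}` gives `c` and `χ : OpenPartialHomeomorph ℂ ℂ` (`ψ` there).
Let `a : P2 ≃ₜ ℂ`, `a y = L.symm (y - y₀) / r` (inverse `z ↦ y₀ + L (r z)`), and
`ψ = a.toOpenPartialHomeomorph ≫ₕ χ`; the target is that of `χ` (`simp`), the source is `a ⁻¹' χ.source`.
For `y` in the source put `z = a y`, `z' = r z = L.symm (y - y₀)`: `y = y₀ + L z'`, `z' ∈ V`, and with `u = L.symm v`:
`fderiv ℝ ψ y v = c (p z) (u + μ (r z) conj u) / r = (c / r) p z (u + bel (B z') conj u)`.  By `metric_eq`,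
`G y v w = B z' u u' = lam (B z') inner (u + bel conj u) (u' + bel conj u') = lam (B z') (r / c)² ‖p z‖⁻² inner (fderiv ψ y v) (fderiv ψ y w)`.
So `ρ ζ = lam (B (r z)) (r / c)² / ‖p z‖²` with `z = χ.symm ζ`; smooth on `ball 0 3`, positive.  (`‖p z‖² = inner (p z) (p z)` is
smooth; `inner (p x) (p y) = ‖p‖² inner x y` for complex numbers.)
-/

set_option autoImplicit false

namespace ISO

open scoped ContDiff
open Pool.Agent.Helper82.GS

/-- the affine coordinate change -/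
private noncomputable def aff (y₀ : P2) (L : ℂ ≃L[ℝ] P2) (r : ℝ) (hr : r ≠ 0) : P2 ≃ₜ ℂ where
  toFun y := r⁻¹ • L.symm (y - y₀)
  invFun z := y₀ + L (r • z)
  left_inv y := by
    show y₀ + L (r • r⁻¹ • L.symm (y - y₀)) = y
    rw [smul_inv_smul₀ hr, ContinuousLinearEquiv.apply_symm_apply]
    abel
  right_inv z := by
    show r⁻¹ • L.symm (y₀ + L (r • z) - y₀) = z
    rw [add_sub_cancel_left, ContinuousLinearEquiv.symm_apply_apply, inv_smul_smul₀ hr]
  continuous_toFun := by fun_prop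
  continuous_invFun := by fun_prop

/-- the pulled back form -/
private noncomputable def pb (y₀ : P2) (L : ℂ ≃L[ℝ] P2) (G : P2 → Bil) (z : ℂ) : BilC :=
  ((ContinuousLinearMap.compL ℝ ℂ P2 ℝ).flip (L : ℂ →L[ℝ] P2)).comp
    ((G (y₀ + L z)).comp (L : ℂ →L[ℝ] P2))

private theorem pb_apply (y₀ : P2) (L : ℂ ≃L[ℝ] P2) (G : P2 → Bil) (z u w : ℂ) :
    pb y₀ L G z u w = G (y₀ + L z) (L u) (L w) := rfl

private theorem inner_mul (k x y : ℂ) :
    (inner ℝ (k * x) (k * y) : ℝ) = ‖k‖ ^ 2 * inner ℝ x y := by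
  rw [Complex.inner, Complex.inner, Complex.sq_norm, Complex.normSq_apply]
  simp only [Complex.mul_re, Complex.mul_im, Complex.conj_re, Complex.conj_im]
  ring

theorem iso_local {D : Set P2} (hD : IsOpen D) {G : P2 → Bil} (hG : ContDiffOn ℝ ∞ G D)
    (hpos : ∀ y ∈ D, PosDef (G y)) {y₀ : P2} (hy₀ : y₀ ∈ D) :
    ∃ (ψ : OpenPartialHomeomorph P2 ℂ) (ρ : ℂ → ℝ), y₀ ∈ ψ.source ∧ ψ.source ⊆ D ∧ ψ y₀ = 0 ∧
      ψ.target = Metric.ball 0 3 ∧ ContDiffOn ℝ ∞ ψ ψ.source ∧ ContDiffOn ℝ ∞ ψ.symm ψ.target ∧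
      ContDiffOn ℝ ∞ ρ (Metric.ball 0 3) ∧ (∀ z ∈ Metric.ball (0 : ℂ) 3, 0 < ρ z) ∧
      ∀ y ∈ ψ.source, ∀ v w : P2,
        G y v w = ρ (ψ y) * inner ℝ (fderiv ℝ ψ y v) (fderiv ℝ ψ y w) := by
  obtain ⟨L, hL⟩ := exists_isom (hpos y₀ hy₀).1 (hpos y₀ hy₀).2
  have haff : ContDiff ℝ ∞ (fun z : ℂ => y₀ + L z) := contDiff_const.add L.contDiff
  set D' : Set ℂ := (fun z : ℂ => y₀ + L z) ⁻¹' D with hD'
  have hD'o : IsOpen D' := hD.preimage haff.continuous
  have h0D' : (0 : ℂ) ∈ D' := by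
    show y₀ + L 0 ∈ D
    rw [map_zero, add_zero]
    exact hy₀
  set B : ℂ → BilC := pb y₀ L G with hB
  have hBs : ContDiffOn ℝ ∞ B D' := by
    have h1 : ContDiffOn ℝ ∞ (fun z : ℂ => G (y₀ + L z)) D' :=
      hG.comp haff.contDiffOn fun z hz => hz
    exact contDiffOn_const.clm_comp (h1.clm_comp contDiffOn_const)
  have hBpos : ∀ z ∈ D', PosDefC (B z) := by
    intro z hz
    constructor
    · intro v w
      exact (hpos _ hz).1 (L v) (L w)
    · intro v hv
      refine (hpos _ hz).2 (L v) fun h => hv ?_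
      exact (map_eq_zero_iff L L.injective).1 h
  have hbel0 : bel (B 0) = 0 := by
    refine bel_eq_zero fun u w => ?_
    rw [hB, pb_apply, map_zero, add_zero]
    exact hL u w
  obtain ⟨ε, hε, hball⟩ := Metric.isOpen_iff.1 hD'o 0 h0D'
  let θ : ContDiffBump (0 : ℂ) :=
    { rIn := ε / 4, rOut := ε / 2, rIn_pos := by positivity, rIn_lt_rOut := by linarith }
  have hθ1 : ∀ z : ℂ, ‖z‖ ≤ ε / 4 → θ z = 1 := by
    intro z hz
    refine θ.one_of_mem_closedBall ?_
    rw [mem_closedBall_zero_iff]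
    exact hz
  set μ : ℂ → ℂ := fun z => ((θ z : ℝ) : ℂ) * bel (B z) with hμdef
  have hμ : ContDiff ℝ ∞ μ := by
    rw [contDiff_iff_contDiffAt]
    intro z
    by_cases hz : z ∈ D'
    · have h1 : ContDiffAt ℝ ∞ (fun z => bel (B z)) z :=
        (contDiffOn_bel hBs hBpos).contDiffAt (hD'o.mem_nhds hz)
      have h2 : ContDiffAt ℝ ∞ (fun z => ((θ z : ℝ) : ℂ)) z :=
        (Complex.ofRealCLM.contDiff.comp θ.contDiff).contDiffAt
      exact h2.mul h1
    · have h1 : z ∉ tsupport (θ : ℂ → ℝ) := by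
        rw [θ.tsupport_eq]
        intro h2
        apply hz
        apply hball
        rw [mem_closedBall_zero_iff] at h2
        rw [mem_ball_zero_iff]
        have h3 : ‖z‖ ≤ ε / 2 := h2
        linarith
      have h2 : (θ : ℂ → ℝ) =ᶠ[nhds z] 0 := notMem_tsupport_iff_eventuallyEq.1 h1
      have h3 : μ =ᶠ[nhds z] fun _ => 0 := by
        filter_upwards [h2] with w hw
        simp only [hμdef]
        rw [hw]
        simp
      exact contDiffAt_const.congr_of_eventuallyEq h3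
  have hμ0 : μ 0 = 0 := by
    simp only [hμdef]
    rw [hbel0, mul_zero]
  obtain ⟨r, hr, m, hm, hsum, hSyn⟩ := exists_small hμ hμ0
  obtain ⟨f, p, hf, hp, hp1, hfd⟩ := beltrami_series hm hsum
  have hp0 : ∀ z, p z ≠ 0 := by
    intro z h
    have h1 := hp1 z
    rw [h, zero_sub, norm_neg, norm_one] at h1
    norm_num at h1
  have hSynlt : ∀ z, ‖Syn m z‖ < 1 := fun z =>
    lt_of_le_of_lt ((norm_Syn_le hm z).trans hsum) (by norm_num)
  obtain ⟨c, χ, hc, h0χ, hχU, hχ, hχt, hχs⟩ := exists_chart hf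
    (fun z => by
      obtain ⟨L', hL'⟩ := lin_inv (hp0 z) (hSynlt z)
      exact ⟨L', by rw [(hfd z).fderiv, hL']⟩)
    (U := {z : ℂ | ‖z‖ < 1 / 4 ∧ ‖r • z‖ < ε / 4})
    (by
      apply IsOpen.mem_nhds
      · exact (isOpen_lt continuous_norm continuous_const).inter
          (isOpen_lt (continuous_const_smul r).norm continuous_const)
      · constructor
        · simp
        · simp [hε])
  have hrne : r ≠ 0 := hr.ne'
  have hrz : ∀ z ∈ χ.source, r • z ∈ D' := by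
    intro z hz
    apply hball
    rw [mem_ball_zero_iff]
    have := (hχU hz).2
    linarith
  let a : P2 ≃ₜ ℂ := aff y₀ L r hrne
  have ha : ∀ y, a y = r⁻¹ • L.symm (y - y₀) := fun _ => rfl
  have hasym : ∀ z, a.symm z = y₀ + L (r • z) := fun _ => rfl
  have hra : ∀ y, r • a y = L.symm (y - y₀) := by
    intro y
    rw [ha, smul_inv_smul₀ hrne]
  have hya : ∀ y, y₀ + L (r • a y) = y := fun y => a.left_inv y
  have hacd : ContDiff ℝ ∞ a := by
    have h1 : (a : P2 → ℂ) = fun y => r⁻¹ • L.symm (y - y₀) := funext ha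
    rw [h1]
    exact (L.symm.contDiff.comp (contDiff_id.sub contDiff_const)).const_smul r⁻¹
  let ψ : OpenPartialHomeomorph P2 ℂ := a.transOpenPartialHomeomorph χ
  have hψ : ∀ y, ψ y = (c : ℂ) * (f (a y) - f 0) := fun y => hχ (a y)
  have hψsrc : ∀ y, y ∈ ψ.source ↔ a y ∈ χ.source := fun _ => Iff.rfl
  have hψt : ψ.target = Metric.ball 0 3 := hχt
  have hψsym : ∀ ζ, ψ.symm ζ = y₀ + L (r • χ.symm ζ) := fun _ => rfl
  have hψcd : ContDiff ℝ ∞ ψ := by
    have h1 : (ψ : P2 → ℂ) = fun y => (c : ℂ) * (f (a y) - f 0) := funext hψ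
    rw [h1]
    exact contDiff_const.mul ((hf.comp hacd).sub contDiff_const)
  have hfder : ∀ y v, fderiv ℝ ψ y v = ((c / r : ℝ) : ℂ) * p (a y) *
      (L.symm v + Syn m (a y) * (starRingEnd ℂ) (L.symm v)) := by
    intro y v
    have h1 : HasFDerivAt a (r⁻¹ • (L.symm : P2 →L[ℝ] ℂ)) y := by
      have h2 : (a : P2 → ℂ) = fun y => r⁻¹ • L.symm (y - y₀) := funext ha
      rw [h2]
      have h3 : HasFDerivAt (fun y : P2 => L.symm (y - y₀)) (L.symm : P2 →L[ℝ] ℂ) y := by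
        have h4 := (L.symm : P2 →L[ℝ] ℂ).hasFDerivAt.comp y ((hasFDerivAt_id y).sub_const y₀)
        rw [ContinuousLinearMap.comp_id] at h4
        exact h4
      exact h3.const_smul r⁻¹
    have h2 := (hfd (a y)).comp y h1
    have h3 := (h2.sub_const (f 0)).const_mul (c : ℂ)
    have h4 : (ψ : P2 → ℂ) = fun y => (c : ℂ) * (f (a y) - f 0) := funext hψ
    have h5 : HasFDerivAt ψ ((c : ℂ) • ((lin (p (a y)) (p (a y) * Syn m (a y))).comp
        (r⁻¹ • (L.symm : P2 →L[ℝ] ℂ)))) y := by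
      rw [h4]
      exact h3
    rw [h5.fderiv]
    have h6 : ((c : ℂ) • ((lin (p (a y)) (p (a y) * Syn m (a y))).comp
        (r⁻¹ • (L.symm : P2 →L[ℝ] ℂ)))) v =
        (c : ℂ) * (lin (p (a y)) (p (a y) * Syn m (a y)) (r⁻¹ • L.symm v)) := rfl
    rw [h6, lin_apply, Complex.real_smul, map_mul, Complex.conj_ofReal]
    push_cast
    ring
  set ρ : ℂ → ℝ := fun ζ => lam (B (r • χ.symm ζ)) * (r / c) ^ 2 / ‖p (χ.symm ζ)‖ ^ 2 with hρ
  have hmaps : ∀ ζ ∈ Metric.ball (0 : ℂ) 3, χ.symm ζ ∈ χ.source := by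
    intro ζ hζ
    rw [← hχt] at hζ
    exact χ.map_target hζ
  have hχs' : ContDiffOn ℝ ∞ χ.symm (Metric.ball 0 3) := by
    rw [← hχt]
    exact hχs
  refine ⟨ψ, ρ, ?_, ?_, ?_, hψt, hψcd.contDiffOn, ?_, ?_, ?_, ?_⟩
  · rw [hψsrc, ha, sub_self, map_zero, smul_zero]
    exact h0χ
  · intro y hy
    have h1 := hrz (a y) hy
    have h2 : y₀ + L (r • a y) ∈ D := h1
    rwa [hya] at h2
  · rw [hψ, ha, sub_self, map_zero, smul_zero, sub_self, mul_zero]
  · rw [hψt]
    have h1 : (ψ.symm : ℂ → P2) = fun ζ => y₀ + L (r • χ.symm ζ) := funext hψsym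
    rw [h1]
    exact contDiffOn_const.add (L.contDiff.comp_contDiffOn (hχs'.const_smul r))
  · have h1 : ContDiffOn ℝ ∞ (fun ζ => lam (B (r • χ.symm ζ))) (Metric.ball 0 3) :=
      (contDiffOn_lam hBs hBpos).comp (hχs'.const_smul r) fun ζ hζ => hrz _ (hmaps ζ hζ)
    have h2 : ContDiffOn ℝ ∞ (fun ζ => ‖p (χ.symm ζ)‖ ^ 2) (Metric.ball 0 3) :=
      (hp.comp_contDiffOn hχs').norm_sq ℝ
    exact (h1.mul contDiffOn_const).div h2 fun ζ _ => pow_ne_zero 2 (norm_ne_zero_iff.2 (hp0 _))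
  · intro ζ hζ
    have h1 := lam_pos (hBpos _ (hrz _ (hmaps ζ hζ)))
    have h2 : 0 < ‖p (χ.symm ζ)‖ := norm_pos_iff.2 (hp0 _)
    simp only [hρ]
    positivity
  · intro y hy v w
    have hz : a y ∈ χ.source := hy
    have h1 : χ.symm (ψ y) = a y := χ.left_inv hz
    have h2 : Syn m (a y) = bel (B (r • a y)) := by
      rw [hSyn (a y) (hχU hz).1.le]
      have h3 : (r : ℂ) * a y = r • a y := by rw [Complex.real_smul]
      rw [h3]
      simp only [hμdef]
      rw [hθ1 _ (hχU hz).2.le]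
      simp
    rw [hfder, hfder, inner_mul, h2]
    have h3 := metric_eq (hBpos _ (hrz _ hz)) (L.symm v) (L.symm w)
    have h4 : B (r • a y) (L.symm v) (L.symm w) = G y v w := by
      rw [hB, pb_apply, hya, ContinuousLinearEquiv.apply_symm_apply,
        ContinuousLinearEquiv.apply_symm_apply]
    rw [← h4, h3]
    simp only [hρ]
    rw [h1, norm_mul, Complex.norm_real, Real.norm_eq_abs, mul_pow, sq_abs]
    have h5 : ‖p (a y)‖ ≠ 0 := norm_ne_zero_iff.2 (hp0 _)
    have h6 : (r / c) ^ 2 * (c / r) ^ 2 = 1 := by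
      field_simp
    calc lam (B (r • a y)) * inner ℝ (L.symm v + bel (B (r • a y)) * (starRingEnd ℂ) (L.symm v))
          (L.symm w + bel (B (r • a y)) * (starRingEnd ℂ) (L.symm w))
        = lam (B (r • a y)) * ((r / c) ^ 2 * (c / r) ^ 2) *
          inner ℝ (L.symm v + bel (B (r • a y)) * (starRingEnd ℂ) (L.symm v))
          (L.symm w + bel (B (r • a y)) * (starRingEnd ℂ) (L.symm w)) := by
          rw [h6, mul_one]
      _ = _ := by
          field_simp

end ISO
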