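import Pool.Agent.Helper57.ISO.CDefs
import Pool.Agent.Helper57.ISO.Local

/-!
# ISO-14 Existence of isothermal charts

TO PROVE (in place).  `e₀ = chartAt P2 x`; `iso_local` with `D = e₀.target`, `G = g.comp e₀`, `y₀ = e₀ x` gives `ψ`, `ρ`.
Put `φ = e₀ ≫ₕ ψ` (`OpenPartialHomeomorph.trans`): source `e₀.source ∩ e₀ ⁻¹' ψ.source`, target
`ψ.target ∩ ψ.symm ⁻¹' e₀.target = ψ.target` because `ψ.symm` maps the target of `ψ` into `ψ.source ⊆ e₀.target`.
For `e ∈ atlas`: on `e.target ∩ e.symm ⁻¹' φ.source` the map `φ ∘ e.symm` is `ψ ∘ (e₀ ∘ e.symm)`, and `e₀ ∘ e.symm` is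
smooth there (`trans_smooth` of Pool.Agent.Helper82.GS.Scale); on `φ.target ∩ φ.symm ⁻¹' e.source` the map
`e ∘ φ.symm` is `(e ∘ e₀.symm) ∘ ψ.symm`.
`metric`: `g.change e he e₀ _ x _ _` gives `g.comp e (e x) v w = g.comp e₀ (e₀ x) (D v) (D w)`, `D = fderiv ℝ (e₀ ∘ e.symm) (e x)`,
and `fderiv ℝ (φ ∘ e.symm) (e x) = (fderiv ℝ ψ (e₀ x)).comp D` (chain rule; both maps are differentiable at the points,
since they are smooth on open sets; `e.symm (e x) = x`).
-/

set_option autoImplicit false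

namespace ISO

open scoped ContDiff Manifold
open Pool.Agent.Helper82.GS

theorem exists_isoChart {S : Type*} [TopologicalSpace S] [ChartedSpace P2 S]
    [IsManifold (modelWithCornersSelf ℝ P2) ∞ S] (g : RMetric S) (x : S) :
    ∃ (φ : OpenPartialHomeomorph S ℂ) (ρ : ℂ → ℝ), IsoChart g φ ρ ∧ x ∈ φ.source ∧ φ x = 0 := by
  have he₀ : chartAt P2 x ∈ atlas P2 S := chart_mem_atlas P2 x
  have hx₀ : x ∈ (chartAt P2 x).source := mem_chart_source P2 x
  generalize chartAt P2 x = e₀ at he₀ hx₀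
  obtain ⟨ψ, ρ, hy, hsub, hψ0, ht, hs, hs', hρ, hρpos, hmet⟩ :=
    iso_local e₀.open_target (g.smooth e₀ he₀) (g.posDef e₀ he₀) (e₀.map_source hx₀)
  have hsrc : (e₀.trans ψ).source = e₀.source ∩ e₀ ⁻¹' ψ.source := e₀.trans_source ψ
  have htgt : (e₀.trans ψ).target = ψ.target := by
    rw [e₀.trans_target ψ, Set.inter_eq_left]
    exact fun z hz => hsub (ψ.map_target hz)
  refine ⟨e₀.trans ψ, ρ, ?_, ?_, ?_⟩
  · refine
      { target := htgt.trans ht
        ρ_smooth := hρ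
        ρ_pos := hρpos
        sub := ⟨e₀, he₀, by
          rw [hsrc]
          exact Set.inter_subset_left⟩
        smooth₁ := ?_
        smooth₂ := ?_
        metric := ?_ }
    · intro e he
      rw [hsrc]
      have h1 : ContDiffOn ℝ ∞ (e₀ ∘ e.symm) (e.target ∩ e.symm ⁻¹' (e₀.source ∩ e₀ ⁻¹' ψ.source)) :=
        (trans_smooth he₀ he).mono fun z hz => ⟨hz.1, hz.2.1⟩
      exact hs.comp h1 fun z hz => hz.2.2
    · intro e he
      rw [htgt]
      have h1 : ContDiffOn ℝ ∞ ψ.symm (ψ.target ∩ (e₀.trans ψ).symm ⁻¹' e.source) :=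
        hs'.mono Set.inter_subset_left
      exact (trans_smooth he he₀).comp h1 fun z hz => ⟨hsub (ψ.map_target hz.1), hz.2⟩
    · intro e he y hye hyφ v w
      rw [hsrc] at hyφ
      have hy1 : y ∈ e₀.source := hyφ.1
      have hy2 : e₀ y ∈ ψ.source := hyφ.2
      rw [g.change e he e₀ he₀ y hye hy1, hmet _ hy2]
      have hopen : IsOpen (e.target ∩ e.symm ⁻¹' e₀.source) :=
        e.symm.isOpen_inter_preimage e₀.open_source
      have hmem : e y ∈ e.target ∩ e.symm ⁻¹' e₀.source := by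
        refine ⟨e.map_source hye, ?_⟩
        rw [Set.mem_preimage, e.left_inv hye]
        exact hy1
      have hτ : DifferentiableAt ℝ (e₀ ∘ e.symm) (e y) :=
        ((trans_smooth he₀ he).contDiffAt (hopen.mem_nhds hmem)).differentiableAt (by simp)
      have hpt : (e₀ ∘ e.symm) (e y) = e₀ y := by
        rw [Function.comp_apply, e.left_inv hye]
      have hψ : DifferentiableAt ℝ ψ ((e₀ ∘ e.symm) (e y)) := by
        rw [hpt]
        exact (hs.contDiffAt (ψ.open_source.mem_nhds hy2)).differentiableAt (by simp)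
      have hfun : (e₀.trans ψ) ∘ e.symm = ψ ∘ (e₀ ∘ e.symm) := rfl
      have hval : (e₀.trans ψ) y = ψ (e₀ y) := rfl
      rw [hfun, fderiv_comp _ hψ hτ, hpt, hval]
      rfl
  · rw [hsrc]
    exact ⟨hx₀, hy⟩
  · exact hψ0

end ISO
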