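import Pool.Agent.Helper57.ISO.Conv

/-!
# ISO-03 The equation `h = m + m * (s h)` for rapidly decreasing sequences

TO PROVE (in place).

Auxiliary lemma (real or extended nonnegative numbers): let `b, c : ℕ → ℝ≥0∞` with `b (n+1) ≤ (1/4) b n + C c n`,
`b n ≠ ⊤`, `∑' c ≠ ⊤`, `C ≠ ⊤`; then `∑' b ≠ ⊤`.  (By induction all partial sums are `≤ 2 (b 0 + C ∑' c)`:
`S (n+1) ≤ b 0 + (1/4) S n + C ∑' c`; `ENNReal.tsum_eq_iSup_nat`.)

Put `a 0 = m`, `a (n+1) = cv m (fun η => s η * a n η)`.  All `a n` are rapidly decreasing (`RD.cv`, `N_mul_le`).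
By `N_cv_zero`, `N 0 (a (n+1)) ≤ (1/4) N 0 (a n)`, so `N 0 (a n) ≤ (1/4)^(n+1)` and
`∑' n, N 0 (a n) ≤ 1/3`.  By induction on `k`, the lemma and `N_cv_succ`: `∑' n, N k (a n) ≠ ⊤` for all `k`.

Let `h ξ = ∑' n, a n ξ`, absolutely convergent since `∑' n, ‖a n ξ‖ₑ ≤ ∑' n, N 0 (a n)`.  Then
`N k h ≤ ∑' ξ, ∑' n, ofReal (wt ξ^k ‖a n ξ‖) = ∑' n, N k (a n) < ⊤` (`enorm_tsum_le_tsum_enorm`, `ENNReal.tsum_mul_left`,
`ENNReal.tsum_comm`), so `RD h` and `∑' ‖h ξ‖ ≤ 1/3` (`N_zero`).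
The equation: `h ξ = a 0 ξ + ∑' n, a (n+1) ξ = m ξ + ∑' n, ∑' η, m (ξ - η) * (s η * a n η)`
(`Summable.tsum_eq_zero_add`), and the two sums commute (`Summable.tsum_comm`), because
`(n, η) ↦ m (ξ - η) * (s η * a n η)` is absolutely summable: `‖m (ξ - η)‖ ≤ M` (a summable family is bounded),
`∑ ∑ ‖a n η‖ = ∑' n, N 0 (a n) < ⊤` (for instance `ENNReal.tsum_prod` and `ENNReal.tsum_coe_ne_top_iff_summable`).
-/

set_option autoImplicit false

namespace ISO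

open scoped ENNReal NNReal

private theorem summ_of_enorm {ι : Type*} {f : ι → ℂ} (h : ∑' i, ‖f i‖ₑ ≠ ⊤) :
    Summable fun i => ‖f i‖ := by
  have h1 : ∑' i, ((‖f i‖₊ : ℝ≥0) : ℝ≥0∞) ≠ ⊤ := h
  rw [ENNReal.tsum_coe_ne_top_iff_summable] at h1
  exact NNReal.summable_coe.mpr h1

private theorem ofReal_wt (k : ℕ) (ξ : Z2) (c : ℂ) :
    ENNReal.ofReal (wt ξ ^ k * ‖c‖) = ENNReal.ofReal (wt ξ ^ k) * ‖c‖ₑ := by
  rw [ENNReal.ofReal_mul (pow_nonneg (wt_pos ξ).le k), ofReal_norm]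

private theorem enorm_le_N (a : Z2 → ℂ) (ξ : Z2) : ‖a ξ‖ₑ ≤ N 0 a := by
  have h1 : ENNReal.ofReal (wt ξ ^ 0 * ‖a ξ‖) ≤ N 0 a :=
    ENNReal.le_tsum (f := fun ξ => ENNReal.ofReal (wt ξ ^ 0 * ‖a ξ‖)) ξ
  rwa [pow_zero, one_mul, ofReal_norm] at h1

private theorem aux {b c : ℕ → ℝ≥0∞} {C : ℝ≥0∞}
    (h : ∀ n, b (n + 1) ≤ ENNReal.ofReal (1 / 4) * b n + C * c n) (hb : b 0 ≠ ⊤)
    (hc : ∑' n, c n ≠ ⊤) (hC : C ≠ ⊤) : ∑' n, b n ≠ ⊤ := by
  have hD : b 0 + C * ∑' n, c n ≠ ⊤ := ENNReal.add_ne_top.mpr ⟨hb, ENNReal.mul_ne_top hC hc⟩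
  have hq : ENNReal.ofReal (1 / 4) * 2 ≤ 1 := by
    have h2 : (2 : ℝ≥0∞) = ENNReal.ofReal 2 := by simp
    rw [h2, ← ENNReal.ofReal_mul (by norm_num)]
    rw [← ENNReal.ofReal_one]
    exact ENNReal.ofReal_le_ofReal (by norm_num)
  have key : ∀ n, ∑ i ∈ Finset.range n, b i ≤ 2 * (b 0 + C * ∑' n, c n) := by
    intro n
    induction n with
    | zero => simp
    | succ n ih =>
      rw [Finset.sum_range_succ']
      calc ∑ i ∈ Finset.range n, b (i + 1) + b 0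
          ≤ ∑ i ∈ Finset.range n, (ENNReal.ofReal (1 / 4) * b i + C * c i) + b 0 := by
            gcongr with i _
            exact h i
        _ = ENNReal.ofReal (1 / 4) * ∑ i ∈ Finset.range n, b i +
              C * ∑ i ∈ Finset.range n, c i + b 0 := by
            rw [Finset.sum_add_distrib, Finset.mul_sum, Finset.mul_sum]
        _ ≤ ENNReal.ofReal (1 / 4) * (2 * (b 0 + C * ∑' n, c n)) + C * ∑' n, c n + b 0 := by
            gcongr
            exact ENNReal.sum_le_tsum _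
        _ = ENNReal.ofReal (1 / 4) * 2 * (b 0 + C * ∑' n, c n) + (b 0 + C * ∑' n, c n) := by
            ring
        _ ≤ 1 * (b 0 + C * ∑' n, c n) + (b 0 + C * ∑' n, c n) := by gcongr
        _ = 2 * (b 0 + C * ∑' n, c n) := by ring
  have h3 : ∑' n, b n ≤ 2 * (b 0 + C * ∑' n, c n) := by
    rw [ENNReal.tsum_eq_iSup_nat]
    exact iSup_le key
  exact ne_top_of_le_ne_top (ENNReal.mul_ne_top (by simp) hD) h3

/-- the iterates -/
private noncomputable def it (m s : Z2 → ℂ) : ℕ → Z2 → ℂ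
  | 0 => m
  | n + 1 => cv m (fun η => s η * it m s n η)

theorem exists_fix {m s : Z2 → ℂ} (hm : RD m) (hs : ∀ ξ, ‖s ξ‖ ≤ 1) (hsmall : ∑' ξ, ‖m ξ‖ ≤ 1 / 4) :
    ∃ h : Z2 → ℂ, RD h ∧ (∀ ξ, h ξ = m ξ + cv m (fun η => s η * h η) ξ) ∧ ∑' ξ, ‖h ξ‖ ≤ 1 / 3 := by
  obtain ⟨a, ha⟩ : ∃ a, a = it m s := ⟨_, rfl⟩
  have ha0 : a 0 = m := by rw [ha]; rfl
  have ha1 : ∀ n, a (n + 1) = cv m (fun η => s η * a n η) := by intro n; rw [ha]; rfl
  have hRD : ∀ n, RD (a n) := by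
    intro n
    induction n with
    | zero => rw [ha0]; exact hm
    | succ n ih =>
      rw [ha1]
      apply RD.cv hm
      rw [rd_iff_N] at ih ⊢
      exact fun k => ne_top_of_le_ne_top (ih k) (N_mul_le k hs (a n))
  have hNm : N 0 m ≤ ENNReal.ofReal (1 / 4) := by
    rw [N_zero hm]
    exact ENNReal.ofReal_le_ofReal hsmall
  have hN0 : ∀ n, N 0 (a n) ≤ ENNReal.ofReal ((1 / 4) ^ (n + 1)) := by
    intro n
    induction n with
    | zero => rw [ha0]; simpa using hNm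
    | succ n ih =>
      rw [ha1]
      calc N 0 (cv m (fun η => s η * a n η)) ≤ N 0 m * N 0 (fun η => s η * a n η) := N_cv_zero _ _
        _ ≤ ENNReal.ofReal (1 / 4) * ENNReal.ofReal ((1 / 4) ^ (n + 1)) :=
          mul_le_mul' hNm ((N_mul_le 0 hs (a n)).trans ih)
        _ = ENNReal.ofReal ((1 / 4) ^ (n + 1 + 1)) := by
          rw [← ENNReal.ofReal_mul (by norm_num)]
          congr 1
          ring
  have hgeo : HasSum (fun n : ℕ => ((1 : ℝ) / 4) ^ (n + 1)) (1 / 3) := by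
    have h1 := (hasSum_geometric_of_lt_one (r := (1 : ℝ) / 4) (by norm_num) (by norm_num)).mul_left
      ((1 : ℝ) / 4)
    have h2 : (1 : ℝ) / 4 * (1 - 1 / 4)⁻¹ = 1 / 3 := by norm_num
    rw [h2] at h1
    refine h1.congr_fun ?_
    intro n
    ring
  have hS0 : ∑' n, N 0 (a n) ≤ ENNReal.ofReal (1 / 3) := by
    calc ∑' n, N 0 (a n) ≤ ∑' n : ℕ, ENNReal.ofReal ((1 / 4) ^ (n + 1)) :=
          ENNReal.tsum_le_tsum hN0
      _ = ENNReal.ofReal (∑' n : ℕ, (1 / 4) ^ (n + 1)) :=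
          (ENNReal.ofReal_tsum_of_nonneg (fun n => by positivity) hgeo.summable).symm
      _ = _ := by rw [hgeo.tsum_eq]
  have hSk : ∀ k, ∑' n, N k (a n) ≠ ⊤ := by
    intro k
    induction k with
    | zero => exact ne_top_of_le_ne_top ENNReal.ofReal_ne_top hS0
    | succ k ih =>
      apply aux (C := ((k : ℝ≥0∞) + 1) * N (k + 1) m) (c := fun n => N k (a n)) _ _ ih
      · exact ENNReal.mul_ne_top (by simp) ((rd_iff_N m).1 hm (k + 1))
      · intro n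
        rw [ha1]
        calc N (k + 1) (cv m (fun η => s η * a n η))
            ≤ N 0 m * N (k + 1) (fun η => s η * a n η) +
              ((k : ℝ≥0∞) + 1) * (N (k + 1) m * N k (fun η => s η * a n η)) := N_cv_succ k _ _
          _ ≤ ENNReal.ofReal (1 / 4) * N (k + 1) (a n) +
              ((k : ℝ≥0∞) + 1) * (N (k + 1) m * N k (a n)) := by
            gcongr
            · exact N_mul_le (k + 1) hs (a n)
            · exact N_mul_le k hs (a n)
          _ = _ := by ring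
      · exact (rd_iff_N (a 0)).1 (hRD 0) (k + 1)
  have hsumE : ∀ ξ, ∑' n, ‖a n ξ‖ₑ ≠ ⊤ := by
    intro ξ
    exact ne_top_of_le_ne_top (hSk 0) (ENNReal.tsum_le_tsum fun n => enorm_le_N (a n) ξ)
  have hsum : ∀ ξ, Summable fun n => a n ξ := fun ξ => (summ_of_enorm (hsumE ξ)).of_norm
  have hNh : ∀ k, N k (fun ξ => ∑' n, a n ξ) ≤ ∑' n, N k (a n) := by
    intro k
    calc N k (fun ξ => ∑' n, a n ξ)
        ≤ ∑' ξ, ∑' n, ENNReal.ofReal (wt ξ ^ k * ‖a n ξ‖) := by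
          apply ENNReal.tsum_le_tsum
          intro ξ
          show ENNReal.ofReal (wt ξ ^ k * ‖∑' n, a n ξ‖) ≤ _
          rw [ofReal_wt]
          simp_rw [ofReal_wt]
          rw [ENNReal.tsum_mul_left]
          gcongr
          exact enorm_tsum_le_tsum_enorm
      _ = ∑' n, N k (a n) := ENNReal.tsum_comm
  have hRDh : RD (fun ξ => ∑' n, a n ξ) := by
    rw [rd_iff_N]
    exact fun k => ne_top_of_le_ne_top (hSk k) (hNh k)
  refine ⟨fun ξ => ∑' n, a n ξ, hRDh, ?_, ?_⟩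
  · intro ξ
    show ∑' n, a n ξ = m ξ + ∑' η, m (ξ - η) * (s η * ∑' n, a n η)
    rw [(hsum ξ).tsum_eq_zero_add, ha0]
    congr 1
    have h1 : ∀ n, a (n + 1) ξ = ∑' η, m (ξ - η) * (s η * a n η) := by
      intro n; rw [ha1]; rfl
    have h2 : ∀ η, m (ξ - η) * (s η * ∑' n, a n η) = ∑' n, m (ξ - η) * (s η * a n η) := by
      intro η
      rw [tsum_mul_left, tsum_mul_left]
    simp_rw [h1, h2]
    symm
    apply Summable.tsum_comm
    apply Summable.of_norm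
    apply summ_of_enorm
    have h3 : ∑' p : ℕ × Z2, ‖Function.uncurry (fun n η => m (ξ - η) * (s η * a n η)) p‖ₑ ≤
        ENNReal.ofReal (1 / 4) * ∑' n, N 0 (a n) := by
      have h5 : ∑' p : ℕ × Z2, ‖Function.uncurry (fun n η => m (ξ - η) * (s η * a n η)) p‖ₑ =
          ∑' (n : ℕ) (η : Z2), ‖m (ξ - η) * (s η * a n η)‖ₑ :=
        ENNReal.tsum_prod (f := fun n η => ‖m (ξ - η) * (s η * a n η)‖ₑ)
      rw [h5, ← ENNReal.tsum_mul_left]
      apply ENNReal.tsum_le_tsum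
      intro n
      unfold N
      rw [← ENNReal.tsum_mul_left]
      apply ENNReal.tsum_le_tsum
      intro η
      show ‖m (ξ - η) * (s η * a n η)‖ₑ ≤ _
      rw [pow_zero, one_mul, ofReal_norm, enorm_mul, enorm_mul]
      have h4 : ‖s η‖ₑ ≤ 1 := by
        rw [← ofReal_norm, ← ENNReal.ofReal_one]
        exact ENNReal.ofReal_le_ofReal (hs η)
      calc ‖m (ξ - η)‖ₑ * (‖s η‖ₑ * ‖a n η‖ₑ) ≤ ENNReal.ofReal (1 / 4) * (1 * ‖a n η‖ₑ) := by
            gcongr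
            exact (enorm_le_N m _).trans hNm
        _ = _ := by rw [one_mul]
    exact ne_top_of_le_ne_top (ENNReal.mul_ne_top ENNReal.ofReal_ne_top (hSk 0)) h3
  · have h1 := (hNh 0).trans hS0
    rw [N_zero hRDh] at h1
    exact (ENNReal.ofReal_le_ofReal_iff (by norm_num)).1 h1

end ISO
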