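import Mathlib

/-!
# ISO-08 Fourier inversion in one variable

By the Poisson summation formula `Real.tsum_eq_tsum_fourier_of_rpow_decay_of_summable` with `b = 2`.
The function has compact support (`g x = 0` for `1/2 ≤ |x|`), so it is `O(|x|^(-2))` at infinity (it is eventually zero
along `cocompact ℝ`).  `𝓕 g n = ∫ t, exp (-2 π i t n) g t` (`Real.fourier_eq'`, `Real.fourierChar_apply`, commute the factors).
The left hand side `∑' k, g (x + k)` has only the term `k = 0`: for `k ≠ 0`, `|x + k| ≥ 1 - |x| > 1/2` (`tsum_eq_single`).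
`fourier n x = exp (2 π i n x)` (`fourier_coe_apply`).
-/

set_option autoImplicit false

namespace ISO

open MeasureTheory

theorem inv1 {g : ℝ → ℂ} (hg : Continuous g) (hs : ∀ x : ℝ, 1 / 2 ≤ |x| → g x = 0)
    (hsum : Summable fun n : ℤ => ∫ t : ℝ, g t * Complex.exp (-(2 * (Real.pi : ℂ) * Complex.I * ((n : ℂ) * (t : ℂ)))))
    {x : ℝ} (hx : |x| < 1 / 2) :
    g x = ∑' n : ℤ, (∫ t : ℝ, g t * Complex.exp (-(2 * (Real.pi : ℂ) * Complex.I * ((n : ℂ) * (t : ℂ))))) *
      Complex.exp (2 * (Real.pi : ℂ) * Complex.I * ((n : ℂ) * (x : ℂ))) := by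
  have hF : ∀ n : ℤ, FourierTransform.fourier g (n : ℝ) =
      ∫ t : ℝ, g t * Complex.exp (-(2 * (Real.pi : ℂ) * Complex.I * ((n : ℂ) * (t : ℂ)))) := by
    intro n
    rw [Real.fourier_real_eq_integral_exp_smul]
    apply integral_congr_ae
    filter_upwards with t
    rw [smul_eq_mul, mul_comm]
    congr 2
    push_cast
    ring
  have hO : Asymptotics.IsBigO (Filter.cocompact ℝ) g fun x : ℝ => |x| ^ (-(2 : ℝ)) := by
    have h1 : g =ᶠ[Filter.cocompact ℝ] fun _ => 0 := by
      have h2 : ∀ᶠ x : ℝ in Filter.cocompact ℝ, x ∈ (Metric.closedBall (0 : ℝ) 1)ᶜ :=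
        (isCompact_closedBall (0 : ℝ) 1).compl_mem_cocompact
      filter_upwards [h2] with y hy
      apply hs
      rw [Set.mem_compl_iff, Metric.mem_closedBall, dist_zero_right, Real.norm_eq_abs, not_le] at hy
      linarith
    exact h1.trans_isBigO (Asymptotics.isBigO_zero _ _)
  have hP := Real.tsum_eq_tsum_fourier_of_rpow_decay_of_summable hg (by norm_num : (1 : ℝ) < 2) hO
    (by simpa only [hF] using hsum) x
  have hL : ∑' n : ℤ, g (x + n) = g x := by
    rw [tsum_eq_single (0 : ℤ)]
    · simp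
    · intro k hk
      apply hs
      have h1 : (1 : ℝ) ≤ |(k : ℝ)| := by
        have : (1 : ℤ) ≤ |k| := Int.one_le_abs hk
        exact_mod_cast this
      have h2 : |(k : ℝ)| ≤ |x + k| + |x| := by
        have := abs_sub (x + k) x
        rw [add_sub_cancel_left] at this
        exact this
      linarith
  rw [hL] at hP
  rw [hP]
  apply tsum_congr
  intro n
  rw [hF n, fourier_coe_apply]
  congr 2
  push_cast
  ring

end ISO
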