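import Pool.Agent.Helper57.ISO.Defs

/-!
# ISO-01 Weights and rapidly decreasing sequences

TO PROVE (in place).

* `wt_pow_le`: put `x = wt η ≥ 1`, `y = wt ξ - 1 ≥ 0`, so that `wt (ξ + η) ≤ x + y ≤ x * wt ξ`.  By induction on `k`:
  `(x + y)^(k+1) ≤ x^(k+1) + (k+1) y (x + y)^k` (multiply by `x + y`, and `x (x+y)^k ≤ (x+y)^(k+1)`), and
  `y (x + y)^k ≤ wt ξ * (x * wt ξ)^k`.
* `one_le_norm_cz`: `‖cz ξ‖² = ξ₁² + ξ₂² ≥ 1`.  `norm_sm_le`: `‖conj c / c‖ = 1`.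
* `summable_wt`: `(1 + |a| + |b|)^4 ≥ (1 + |a|)² (1 + |b|)²`, and `∑_{a ∈ ℤ} (1 + |a|)⁻²` converges
  (`Summable.mul_of_nonneg`, and for instance `summable_of_isBigO`, `Real.summable_abs_int_rpow` or
  `Summable.of_nat_of_neg`, `Real.summable_one_div_nat_pow`).
* `RD.of_le`: `wt^k ‖a‖ ≤ C wt^(k+j) ‖b‖`.
* `rd_iff_N`: `ENNReal.ofReal` of a summable family of nonnegative numbers (`ENNReal.ofReal_tsum_of_nonneg`,
  `ENNReal.tsum_coe_ne_top_iff_summable`, `Summable.of_nonneg_of_le`, ...).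
* `rd_of_bound`: `wt^k ‖a‖ = wt^(k+4) ‖a‖ (wt^4)⁻¹ ≤ C (wt^4)⁻¹`.
-/

set_option autoImplicit false

namespace ISO

theorem one_le_wt (ξ : Z2) : 1 ≤ wt ξ := by
  unfold wt
  have h1 := abs_nonneg (ξ.1 : ℝ)
  have h2 := abs_nonneg (ξ.2 : ℝ)
  linarith

theorem wt_pos (ξ : Z2) : 0 < wt ξ := lt_of_lt_of_le one_pos (one_le_wt ξ)

theorem wt_neg (ξ : Z2) : wt (-ξ) = wt ξ := by
  unfold wt
  simp [abs_neg]

theorem wt_add_le (ξ η : Z2) : wt (ξ + η) ≤ wt η + (wt ξ - 1) := by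
  unfold wt
  simp only [Prod.fst_add, Prod.snd_add, Int.cast_add]
  have h1 := abs_add_le (ξ.1 : ℝ) (η.1 : ℝ)
  have h2 := abs_add_le (ξ.2 : ℝ) (η.2 : ℝ)
  linarith

theorem wt_pow_aux (x y : ℝ) (hx : 1 ≤ x) (hy : 0 ≤ y) (k : ℕ) :
    (x + y) ^ (k + 1) ≤ x ^ (k + 1) + ((k : ℝ) + 1) * (y * (x + y) ^ k) := by
  induction k with
  | zero => simp
  | succ k ih =>
    have hxy : 0 ≤ x + y := by linarith
    have h1 : (x + y) ^ (k + 1 + 1) ≤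
        (x ^ (k + 1) + ((k : ℝ) + 1) * (y * (x + y) ^ k)) * (x + y) := by
      rw [pow_succ]
      exact mul_le_mul_of_nonneg_right ih hxy
    have h2 : x ^ (k + 1) ≤ (x + y) ^ (k + 1) := pow_le_pow_left₀ (by linarith) (by linarith) _
    have h3 : y * x ^ (k + 1) ≤ y * (x + y) ^ (k + 1) := mul_le_mul_of_nonneg_left h2 hy
    have h4 : (x ^ (k + 1) + ((k : ℝ) + 1) * (y * (x + y) ^ k)) * (x + y) =
        x ^ (k + 1 + 1) + y * x ^ (k + 1) + ((k : ℝ) + 1) * (y * (x + y) ^ (k + 1)) := by ring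
    rw [h4] at h1
    push_cast
    linarith

theorem wt_pow_le (k : ℕ) (ξ η : Z2) :
    wt (ξ + η) ^ (k + 1) ≤ wt η ^ (k + 1) + ((k : ℝ) + 1) * (wt ξ ^ (k + 1) * wt η ^ k) := by
  have hx := one_le_wt η
  have hz := one_le_wt ξ
  have h0 : wt (ξ + η) ≤ wt η + (wt ξ - 1) := wt_add_le ξ η
  have h1 : wt (ξ + η) ^ (k + 1) ≤ (wt η + (wt ξ - 1)) ^ (k + 1) :=
    pow_le_pow_left₀ (wt_pos _).le h0 _
  have h2 := wt_pow_aux (wt η) (wt ξ - 1) hx (by linarith) k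
  have h3 : wt η + (wt ξ - 1) ≤ wt ξ * wt η := by nlinarith
  have h4 : (wt η + (wt ξ - 1)) ^ k ≤ (wt ξ * wt η) ^ k :=
    pow_le_pow_left₀ (by linarith) h3 _
  have h5 : (wt ξ - 1) * (wt η + (wt ξ - 1)) ^ k ≤ wt ξ * (wt ξ * wt η) ^ k := by
    apply mul_le_mul (by linarith) h4 (pow_nonneg (by linarith) _) (by linarith)
  have h6 : wt ξ * (wt ξ * wt η) ^ k = wt ξ ^ (k + 1) * wt η ^ k := by
    rw [mul_pow]; ring
  rw [h6] at h5
  have h7 : ((k : ℝ) + 1) * ((wt ξ - 1) * (wt η + (wt ξ - 1)) ^ k) ≤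
      ((k : ℝ) + 1) * (wt ξ ^ (k + 1) * wt η ^ k) :=
    mul_le_mul_of_nonneg_left h5 (by positivity)
  linarith

theorem norm_cz_le (ξ : Z2) : ‖cz ξ‖ ≤ wt ξ := by
  unfold cz wt
  have h1 : ‖((ξ.1 : ℂ) + (ξ.2 : ℂ) * Complex.I)‖ ≤ ‖(ξ.1 : ℂ)‖ + ‖(ξ.2 : ℂ) * Complex.I‖ :=
    norm_add_le _ _
  have h2 : ‖(ξ.1 : ℂ)‖ = |(ξ.1 : ℝ)| := by
    rw [Complex.norm_intCast]
  have h3 : ‖(ξ.2 : ℂ) * Complex.I‖ = |(ξ.2 : ℝ)| := by
    rw [norm_mul, Complex.norm_I, mul_one, Complex.norm_intCast]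
  rw [h2, h3] at h1
  linarith

theorem cz_re (ξ : Z2) : (cz ξ).re = (ξ.1 : ℝ) := by
  simp [cz]

theorem cz_im (ξ : Z2) : (cz ξ).im = (ξ.2 : ℝ) := by
  simp [cz]

theorem one_le_norm_cz {ξ : Z2} (h : ξ ≠ 0) : 1 ≤ ‖cz ξ‖ := by
  by_cases h1 : ξ.1 = 0
  · have h2 : ξ.2 ≠ 0 := by
      intro h2
      exact h (Prod.ext h1 h2)
    have h3 : (1 : ℝ) ≤ |((ξ.2 : ℤ) : ℝ)| := by
      rw [← Int.cast_abs]
      exact_mod_cast Int.one_le_abs h2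
    have h4 := Complex.abs_im_le_norm (cz ξ)
    rw [cz_im] at h4
    linarith
  · have h3 : (1 : ℝ) ≤ |((ξ.1 : ℤ) : ℝ)| := by
      rw [← Int.cast_abs]
      exact_mod_cast Int.one_le_abs h1
    have h4 := Complex.abs_re_le_norm (cz ξ)
    rw [cz_re] at h4
    linarith

theorem norm_sm_le (ξ : Z2) : ‖sm ξ‖ ≤ 1 := by
  unfold sm
  split_ifs with h
  · simp
  · have h1 := one_le_norm_cz h
    rw [norm_div, RCLike.norm_conj, div_self]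
    intro h2
    rw [h2] at h1
    linarith

theorem summable_wt_one : Summable fun a : ℤ => ((1 + |(a : ℝ)|) ^ 2)⁻¹ := by
  have h : Summable fun a : ℤ => 1 / (a : ℝ) ^ 2 := by
    have := (Real.summable_one_div_int_pow (p := 2)).2 (by norm_num)
    exact this
  have h1 : Summable fun a : ℤ => (if a = 0 then (1 : ℝ) else 0) :=
    (hasSum_ite_eq (0 : ℤ) (1 : ℝ)).summable
  refine Summable.of_nonneg_of_le (fun a => by positivity) ?_ (h.add h1)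
  intro a
  by_cases ha : a = 0
  · subst ha
    simp
  · simp only [ha, if_false, add_zero]
    rw [one_div]
    have h2 : 0 < |(a : ℝ)| := abs_pos.2 (by exact_mod_cast ha)
    have h3 : (a : ℝ) ^ 2 = |(a : ℝ)| ^ 2 := (sq_abs _).symm
    rw [h3]
    apply inv_anti₀ (by positivity)
    exact pow_le_pow_left₀ h2.le (by linarith) 2

theorem summable_wt : Summable fun ξ : Z2 => (wt ξ ^ 4)⁻¹ := by
  have h := Summable.mul_of_nonneg summable_wt_one summable_wt_one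
    (fun a => by positivity) (fun a => by positivity)
  refine Summable.of_nonneg_of_le (fun ξ => by have := wt_pos ξ; positivity) ?_ h
  intro ξ
  have h1 := abs_nonneg (ξ.1 : ℝ)
  have h2 := abs_nonneg (ξ.2 : ℝ)
  have h3 : (1 + |(ξ.1 : ℝ)|) ^ 2 * (1 + |(ξ.2 : ℝ)|) ^ 2 ≤ wt ξ ^ 4 := by
    have h4 : (1 + |(ξ.1 : ℝ)|) * (1 + |(ξ.2 : ℝ)|) ≤ wt ξ ^ 2 := by
      unfold wt
      nlinarith
    calc (1 + |(ξ.1 : ℝ)|) ^ 2 * (1 + |(ξ.2 : ℝ)|) ^ 2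
        = ((1 + |(ξ.1 : ℝ)|) * (1 + |(ξ.2 : ℝ)|)) ^ 2 := by ring
      _ ≤ (wt ξ ^ 2) ^ 2 := pow_le_pow_left₀ (by positivity) h4 2
      _ = wt ξ ^ 4 := by ring
  change (wt ξ ^ 4)⁻¹ ≤ ((1 + |(ξ.1 : ℝ)|) ^ 2)⁻¹ * ((1 + |(ξ.2 : ℝ)|) ^ 2)⁻¹
  rw [← mul_inv]
  exact inv_anti₀ (by positivity) h3

theorem RD.summable {a : Z2 → ℂ} (h : RD a) : Summable fun ξ => ‖a ξ‖ := by
  have := h 0
  simpa using this

theorem RD.of_le {a b : Z2 → ℂ} (hb : RD b) {C : ℝ} {j : ℕ} (h : ∀ ξ, ‖a ξ‖ ≤ C * wt ξ ^ j * ‖b ξ‖) :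
    RD a := by
  intro k
  refine Summable.of_nonneg_of_le (fun ξ => ?_) ?_ ((hb (k + j)).mul_left C)
  · have := wt_pos ξ
    positivity
  · intro ξ
    have h1 := wt_pos ξ
    calc wt ξ ^ k * ‖a ξ‖ ≤ wt ξ ^ k * (C * wt ξ ^ j * ‖b ξ‖) :=
          mul_le_mul_of_nonneg_left (h ξ) (by positivity)
      _ = C * (wt ξ ^ (k + j) * ‖b ξ‖) := by ring

theorem RD.add {a b : Z2 → ℂ} (ha : RD a) (hb : RD b) : RD fun ξ => a ξ + b ξ := by
  intro k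
  refine Summable.of_nonneg_of_le (fun ξ => ?_) ?_ ((ha k).add (hb k))
  · have := wt_pos ξ
    positivity
  · intro ξ
    have h1 := wt_pos ξ
    calc wt ξ ^ k * ‖a ξ + b ξ‖ ≤ wt ξ ^ k * (‖a ξ‖ + ‖b ξ‖) :=
          mul_le_mul_of_nonneg_left (norm_add_le _ _) (by positivity)
      _ = wt ξ ^ k * ‖a ξ‖ + wt ξ ^ k * ‖b ξ‖ := by ring

theorem rd_single (c : ℂ) : RD fun ξ : Z2 => if ξ = 0 then c else 0 := by
  intro k
  refine summable_of_ne_finset_zero (s := {0}) ?_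
  intro ξ hξ
  have : ξ ≠ 0 := by simpa using hξ
  simp [this]

theorem rd_iff_N (a : Z2 → ℂ) : RD a ↔ ∀ k, N k a ≠ ⊤ := by
  have key : ∀ k, (Summable fun ξ => wt ξ ^ k * ‖a ξ‖) ↔ N k a ≠ ⊤ := by
    intro k
    have h0 : ∀ ξ, 0 ≤ wt ξ ^ k * ‖a ξ‖ := fun ξ => by
      have := wt_pos ξ
      positivity
    unfold N
    constructor
    · intro h
      rw [← ENNReal.ofReal_tsum_of_nonneg h0 h]
      exact ENNReal.ofReal_ne_top
    · intro h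
      have h1 := ENNReal.summable_toReal h
      refine h1.congr ?_
      intro ξ
      exact ENNReal.toReal_ofReal (h0 ξ)
  exact ⟨fun h k => (key k).1 (h k), fun h k => (key k).2 (h k)⟩

/-- the norm of order zero is the sum of the absolute values -/
theorem N_zero {a : Z2 → ℂ} (h : RD a) : N 0 a = ENNReal.ofReal (∑' ξ, ‖a ξ‖) := by
  unfold N
  simp only [pow_zero, one_mul]
  exact (ENNReal.ofReal_tsum_of_nonneg (fun ξ => norm_nonneg _) h.summable).symm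

theorem rd_of_bound {a : Z2 → ℂ} (h : ∀ k : ℕ, ∃ C : ℝ, ∀ ξ, wt ξ ^ k * ‖a ξ‖ ≤ C) : RD a := by
  intro k
  obtain ⟨C, hC⟩ := h (k + 4)
  refine Summable.of_nonneg_of_le (fun ξ => ?_) ?_ (summable_wt.mul_left C)
  · have := wt_pos ξ
    positivity
  · intro ξ
    have h1 := wt_pos ξ
    rw [← div_eq_mul_inv, le_div_iff₀ (by positivity)]
    calc wt ξ ^ k * ‖a ξ‖ * wt ξ ^ 4 = wt ξ ^ (k + 4) * ‖a ξ‖ := by ring
      _ ≤ C := hC ξ

end ISO
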